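import Mathlib

/-! Strong immersion, internal form: graphs with edges and vertices in `ℕ`, pieces, the relation
`Rp` between pieces. -/

set_option autoImplicit false

namespace Pool.Agent.W2411c4

/-- A finite loopless multigraph with edge set `E` (natural numbers), ends `a e`, `b e`, and labels
of the vertices (natural numbers) in `Q`. -/
structure Gr (Q : Type) where
  E : Finset ℕ
  a : ℕ → ℕ
  b : ℕ → ℕ
  ne : ∀ e ∈ E, a e ≠ b e
  lab : ℕ → Q

variable {Q : Type}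

namespace Gr

variable (G : Gr Q)

/-- `v` is an end of `e`. -/
def Inc (e v : ℕ) : Prop := v = G.a e ∨ v = G.b e

/-- both ends in `X` -/
def Inner (X : Finset ℕ) (e : ℕ) : Prop := G.a e ∈ X ∧ G.b e ∈ X

/-- at least one end in `X` -/
def Touch (X : Finset ℕ) (e : ℕ) : Prop := G.a e ∈ X ∨ G.b e ∈ X

/-- exactly one end in `X` -/
def Cross (X : Finset ℕ) (e : ℕ) : Prop := (G.a e ∈ X ∧ G.b e ∉ X) ∨ (G.a e ∉ X ∧ G.b e ∈ X)

instance (X : Finset ℕ) (e : ℕ) : Decidable (G.Cross X e) := by unfold Cross; infer_instance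

instance (X : Finset ℕ) (e : ℕ) : Decidable (G.Inner X e) := by unfold Inner; infer_instance

instance (X : Finset ℕ) (e : ℕ) : Decidable (G.Touch X e) := by unfold Touch; infer_instance

/-- the boundary of `X` -/
def bd (X : Finset ℕ) : Finset ℕ := G.E.filter fun e => G.Cross X e

/-- number of boundary edges -/
def d (X : Finset ℕ) : ℕ := (G.bd X).card

/-- adjacency by an edge in `F` -/
def AdjF (F : Set ℕ) (u v : ℕ) : Prop := ∃ f ∈ F, (G.a f = u ∧ G.b f = v) ∨ (G.a f = v ∧ G.b f = u)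

/-- connected by edges in `F` -/
def Conn (F : Set ℕ) : ℕ → ℕ → Prop := Relation.ReflTransGen (G.AdjF F)

theorem mem_bd {X : Finset ℕ} {e : ℕ} : e ∈ G.bd X ↔ e ∈ G.E ∧ G.Cross X e := by
  simp [bd]

variable {G}

theorem Cross.touch {X : Finset ℕ} {e : ℕ} (h : G.Cross X e) : G.Touch X e := by
  unfold Cross at h; unfold Touch; tauto

theorem Inner.touch {X : Finset ℕ} {e : ℕ} (h : G.Inner X e) : G.Touch X e := Or.inl h.1

theorem Cross.not_inner {X : Finset ℕ} {e : ℕ} (h : G.Cross X e) : ¬ G.Inner X e := by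
  unfold Cross at h; unfold Inner; tauto

theorem touch_iff {X : Finset ℕ} {e : ℕ} : G.Touch X e ↔ G.Inner X e ∨ G.Cross X e := by
  unfold Cross Inner Touch; tauto

theorem Conn.refl {F : Set ℕ} {u : ℕ} : G.Conn F u u := Relation.ReflTransGen.refl

theorem Conn.trans {F : Set ℕ} {u v w : ℕ} (h : G.Conn F u v) (h' : G.Conn F v w) : G.Conn F u w :=
  Relation.ReflTransGen.trans h h'

theorem AdjF.symm {F : Set ℕ} {u v : ℕ} (h : G.AdjF F u v) : G.AdjF F v u := by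
  obtain ⟨f, hf, h⟩ := h
  exact ⟨f, hf, h.symm⟩

theorem Conn.symm {F : Set ℕ} {u v : ℕ} (h : G.Conn F u v) : G.Conn F v u := by
  induction h with
  | refl => exact Conn.refl
  | tail _ hbc ih => exact Conn.trans (Relation.ReflTransGen.single hbc.symm) ih

theorem AdjF.mono {F F' : Set ℕ} (hF : F ⊆ F') {u v : ℕ} (h : G.AdjF F u v) : G.AdjF F' u v := by
  obtain ⟨f, hf, h⟩ := h
  exact ⟨f, hF hf, h⟩

theorem Conn.mono {F F' : Set ℕ} (hF : F ⊆ F') {u v : ℕ} (h : G.Conn F u v) : G.Conn F' u v :=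
  Relation.ReflTransGen.mono (fun _ _ => AdjF.mono hF) _ _ h

theorem conn_edge {F : Set ℕ} {e u v : ℕ} (he : e ∈ F) (hu : G.Inc e u) (hv : G.Inc e v) :
    G.Conn F u v := by
  rcases hu with rfl | rfl <;> rcases hv with rfl | rfl
  · exact Conn.refl
  · exact Relation.ReflTransGen.single ⟨e, he, Or.inl ⟨rfl, rfl⟩⟩
  · exact Relation.ReflTransGen.single ⟨e, he, Or.inr ⟨rfl, rfl⟩⟩
  · exact Conn.refl

end Gr

/-- An enumeration `o 0, ..., o (n-1)` of the boundary edges of `X`. -/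
structure En (G : Gr Q) (X : Finset ℕ) where
  n : ℕ
  o : ℕ → ℕ
  inj : ∀ i < n, ∀ j < n, o i = o j → i = j
  mem : ∀ e, (∃ i < n, o i = e) ↔ e ∈ G.bd X

/-- A piece: a graph, a set of vertices `X`, and an enumeration of the boundary edges of `X`. -/
structure Pc (Q : Type) where
  G : Gr Q
  X : Finset ℕ
  en : En G X

abbrev Pc.n (P : Pc Q) : ℕ := P.en.n

abbrev Pc.o (P : Pc Q) : ℕ → ℕ := P.en.o

theorem Pc.o_mem (P : Pc Q) {i : ℕ} (hi : i < P.n) : P.o i ∈ P.G.bd P.X := (P.en.mem _).1 ⟨i, hi, rfl⟩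

theorem Pc.o_E (P : Pc Q) {i : ℕ} (hi : i < P.n) : P.o i ∈ P.G.E := (P.G.mem_bd.1 (P.o_mem hi)).1

theorem Pc.o_cross (P : Pc Q) {i : ℕ} (hi : i < P.n) : P.G.Cross P.X (P.o i) :=
  (P.G.mem_bd.1 (P.o_mem hi)).2

theorem Pc.exists_o (P : Pc Q) {e : ℕ} (he : e ∈ P.G.E) (hc : P.G.Cross P.X e) :
    ∃ i < P.n, P.o i = e := (P.en.mem e).2 (P.G.mem_bd.2 ⟨he, hc⟩)

theorem Pc.o_inj (P : Pc Q) {i j : ℕ} (hi : i < P.n) (hj : j < P.n) (h : P.o i = P.o j) : i = j :=
  P.en.inj i hi j hj h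

theorem En.n_eq {G : Gr Q} {X : Finset ℕ} (P : En G X) : P.n = G.d X := by
  have h : G.bd X = (Finset.range P.n).image P.o := by
    ext e
    rw [← P.mem e]
    simp
  rw [Gr.d, h, Finset.card_image_of_injOn, Finset.card_range]
  intro i hi j hj hij
  exact P.inj i (by simpa using hi) j (by simpa using hj) hij

/-- every set has an enumeration of its boundary -/
noncomputable def mkEn (G : Gr Q) (X : Finset ℕ) : En G X where
  n := G.d X
  o := fun i => (G.bd X).toList.getD i 0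
  inj := by
    intro i hi j hj h
    have hl : (G.bd X).toList.length = G.d X := by simp [Gr.d]
    rw [← hl] at hi hj
    simp only [List.getD_eq_getElem?_getD, List.getElem?_eq_getElem hi, List.getElem?_eq_getElem hj,
      Option.getD_some] at h
    exact (List.Nodup.getElem_inj_iff (Finset.nodup_toList _)).1 h
  mem := by
    intro e
    have hl : (G.bd X).toList.length = G.d X := by simp [Gr.d]
    rw [← Finset.mem_toList, List.mem_iff_getElem]
    constructor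
    · rintro ⟨i, hi, rfl⟩
      rw [← hl] at hi
      exact ⟨i, hi, by simp [List.getD_eq_getElem?_getD, List.getElem?_eq_getElem hi]⟩
    · rintro ⟨i, hi, rfl⟩
      exact ⟨i, hl ▸ hi, by simp [List.getD_eq_getElem?_getD, List.getElem?_eq_getElem hi]⟩

/-- Immersion of the piece `P` in the piece `P'`: `η` on vertices, the edge `e` goes to the connected
edge set `Φ e`, the boundary edge `P.o i` is continued to the boundary edge `P'.o i`. -/
structure Imm [LE Q] (P P' : Pc Q) (η : ℕ → ℕ) (Φ : ℕ → Set ℕ) : Prop where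
  n_eq : P.n = P'.n
  maps : ∀ x ∈ P.X, η x ∈ P'.X
  inj : ∀ x ∈ P.X, ∀ y ∈ P.X, η x = η y → x = y
  lab : ∀ x ∈ P.X, P.G.lab x ≤ P'.G.lab (η x)
  sub_in : ∀ e ∈ P.G.E, P.G.Inner P.X e → ∀ f ∈ Φ e, f ∈ P'.G.E ∧ P'.G.Inner P'.X f
  sub_bd : ∀ i < P.n, ∀ f ∈ Φ (P.o i), f = P'.o i ∨ (f ∈ P'.G.E ∧ P'.G.Inner P'.X f)
  mem_bd : ∀ i < P.n, P'.o i ∈ Φ (P.o i)
  conn_in : ∀ e ∈ P.G.E, P.G.Inner P.X e → P'.G.Conn (Φ e) (η (P.G.a e)) (η (P.G.b e))
  conn_bd : ∀ i < P.n, ∀ x, P.G.Inc (P.o i) x → x ∈ P.X → ∀ z, P'.G.Inc (P'.o i) z →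
    P'.G.Conn (Φ (P.o i)) z (η x)
  disj : ∀ e ∈ P.G.E, ∀ f ∈ P.G.E, P.G.Touch P.X e → P.G.Touch P.X f → e ≠ f →
    Disjoint (Φ e) (Φ f)
  strong : ∀ e ∈ P.G.E, P.G.Touch P.X e → ∀ y ∈ P.X, ¬ P.G.Inc e y → ∀ f ∈ Φ e,
    ¬ P'.G.Inc f (η y)

/-- the quasi-order on pieces -/
def Rp [LE Q] (P P' : Pc Q) : Prop := ∃ η Φ, Imm P P' η Φ

theorem Imm.refl [Preorder Q] (P : Pc Q) : Imm P P id (fun e => {e}) where
  n_eq := rfl
  maps := fun _ hx => hx
  inj := fun _ _ _ _ h => h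
  lab := fun _ _ => le_rfl
  sub_in := by
    intro e he hi f hf
    rw [Set.mem_singleton_iff.1 hf]
    exact ⟨he, hi⟩
  sub_bd := fun i _ f hf => Or.inl (Set.mem_singleton_iff.1 hf)
  mem_bd := fun i _ => rfl
  conn_in := fun e _ _ => Gr.conn_edge rfl (Or.inl rfl) (Or.inr rfl)
  conn_bd := fun i _ x hx _ z hz => Gr.conn_edge rfl hz hx
  disj := fun e _ f _ _ _ hef => by simpa using hef
  strong := by
    intro e _ _ y _ hy f hf
    rw [Set.mem_singleton_iff.1 hf]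
    exact hy

theorem Rp.refl [Preorder Q] (P : Pc Q) : Rp P P := ⟨_, _, Imm.refl P⟩

end Pool.Agent.W2411c4
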