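import Pool.Agent.W_2411c4_h59.ExchVal

/-! Adding sets with at most two boundary edges. -/

set_option autoImplicit false

namespace Pool.Agent.W2411c4

variable {Q : Type}

open Gr

/-- the starting families: boundedly many kids that have three boundary edges and are not private -/
structure Val0 (G : Gr Q) (V0 : Finset ℕ) (K N : ℕ) (F : Finset (Finset ℕ)) : Prop where
  top : V0 ∈ F
  ne : ∀ M ∈ F, M.Nonempty
  sub : ∀ M ∈ F, M ⊆ V0
  lam : ∀ A ∈ F, ∀ B ∈ F, Lam A B
  ord : ∀ M ∈ F, G.d M ≤ K
  bag : ∀ X ∈ F, (Bag F X).card ≤ N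
  bold : ∀ X ∈ F, ∃ S : Finset (Finset ℕ), S.card ≤ N ∧
    ∀ C, IsKid F X C → 3 ≤ G.d C → ¬ Priv G F X C → C ∈ S

/-- kids touched by few edges -/
theorem touched_count {G : Gr Q} {F : Finset (Finset ℕ)} (hl : ∀ A ∈ F, ∀ B ∈ F, Lam A B)
    {X : Finset ℕ} (D : Finset ℕ) (B : Finset (Finset ℕ))
    (hB : ∀ C ∈ B, IsKid F X C ∧ ∃ e ∈ D, G.Touch C e) : B.card ≤ 2 * D.card := by
  classical
  have h : ∀ C, ∃ e, C ∈ B → e ∈ D ∧ G.Touch C e := by
    intro C
    by_cases hC : C ∈ B
    · obtain ⟨_, e, he, ht⟩ := hB C hC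
      exact ⟨e, fun _ => ⟨he, ht⟩⟩
    · exact ⟨0, fun h => absurd h hC⟩
  choose g hg using h
  have h1 : B.card ≤ (D ×ˢ (Finset.univ : Finset Bool)).card := by
    refine Finset.card_le_card_of_injOn (fun C => (g C, decide (G.a (g C) ∈ C))) ?_ ?_
    · intro C hC
      exact Finset.mem_product.2 ⟨(hg C hC).1, Finset.mem_univ _⟩
    · intro C hC C' hC' heq
      simp only [Prod.mk.injEq, decide_eq_decide] at heq
      obtain ⟨h1, h2⟩ := heq
      obtain ⟨k1, _⟩ := hB C hC
      obtain ⟨k2, _⟩ := hB C' hC'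
      have t1 := (hg C hC).2
      have t2 := (hg C' hC').2
      rw [← h1] at t2 h2
      rcases t1 with t1 | t1
      · exact kid_eq hl k1 k2 t1 (h2.1 t1)
      · rcases t2 with t2 | t2
        · exact kid_eq hl k1 k2 (h2.2 t2) t2
        · exact kid_eq hl k1 k2 t1 t2
  rw [Finset.card_product, Finset.card_univ, Fintype.card_bool] at h1
  omega

/-- union of two sets joined by an edge -/
theorem d_union_edge {G : Gr Q} {A B : Finset ℕ} (hd : Disjoint A B) {e : ℕ} (he : e ∈ G.E)
    (hA : G.Touch A e) (hB : G.Touch B e) : G.d (A ∪ B) + 2 ≤ G.d A + G.d B := by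
  classical
  have hd' : ∀ x, x ∈ A → x ∉ B := fun x hx => Finset.disjoint_left.1 hd hx
  simp only [d_eq_sum]
  have h1 : ∀ f ∈ G.E, (if G.Cross (A ∪ B) f then 1 else 0) + (if f = e then 2 else 0) ≤
      (if G.Cross A f then 1 else 0) + (if G.Cross B f then 1 else 0) := by
    intro f _
    by_cases hfe : f = e
    · subst hfe
      have hcA : G.Cross A f ∧ G.Cross B f ∧ ¬ G.Cross (A ∪ B) f := by
        unfold Gr.Touch at hA hB
        unfold Gr.Cross
        have ha := hd' (G.a f)
        have hb := hd' (G.b f)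
        simp only [Finset.mem_union]
        tauto
      rw [if_pos hcA.1, if_pos hcA.2.1, if_neg hcA.2.2, if_pos rfl]
    · rw [if_neg hfe]
      unfold Gr.Cross
      have ha := hd' (G.a f)
      have hb := hd' (G.b f)
      simp only [Finset.mem_union]
      by_cases h1 : G.a f ∈ A <;> by_cases h2 : G.a f ∈ B <;> by_cases h3 : G.b f ∈ A <;>
        by_cases h4 : G.b f ∈ B <;> simp [h1, h2, h3, h4]
  have h2 := Finset.sum_le_sum h1
  rw [Finset.sum_add_distrib, Finset.sum_add_distrib, Finset.sum_ite_eq' G.E e] at h2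
  rw [if_pos he] at h2
  exact h2

/-- the bound -/
def bnd (K N : ℕ) : ℕ :=
  N + 2 * (K + 2) + 4 * N + 2 * ((K + 2) * (N + 2 * (K + 2) + 4 * N)) + 2 + (K + 2 + 1) * N

theorem exists_val {G : Gr Q} {V0 : Finset ℕ} {K N : ℕ} {F0 : Finset (Finset ℕ)}
    (h : Val0 G V0 K N F0) : ∃ F, Val G V0 (K + 2) (bnd K N) F := by
  classical
  obtain ⟨F, hF, hmax⟩ := Finset.exists_max_image
    ((V0.powerset.powerset).filter fun F => F0 ⊆ F ∧ (∀ M ∈ F, M.Nonempty) ∧
      (∀ A ∈ F, ∀ B ∈ F, Lam A B) ∧ ∀ M ∈ F, M ∉ F0 → G.d M ≤ 2) (fun F => F.card)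
    ⟨F0, by
      rw [Finset.mem_filter, Finset.mem_powerset]
      exact ⟨fun M hM => Finset.mem_powerset.2 (h.sub M hM), Finset.Subset.refl _, h.ne, h.lam,
        fun M hM hM' => absurd hM hM'⟩⟩
  rw [Finset.mem_filter, Finset.mem_powerset] at hF
  obtain ⟨hFV, hFF, hne, hl, hthin⟩ := hF
  have hsub : ∀ M ∈ F, M ⊆ V0 := fun M hM => Finset.mem_powerset.1 (hFV hM)
  have hord : ∀ M ∈ F, G.d M ≤ K + 2 := by
    intro M hM
    by_cases hM0 : M ∈ F0
    · have := h.ord M hM0
      omega
    · have := hthin M hM hM0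
      omega
  refine ⟨F, hFF h.top, hne, hsub, hl, hord, ?_⟩
  intro X hX
  -- the least member of `F0` containing `X`
  obtain ⟨X0, hX0m, hX0min⟩ := Finset.exists_min_image (F0.filter fun M => X ⊆ M)
    (fun M => M.card) ⟨V0, Finset.mem_filter.2 ⟨h.top, hsub X hX⟩⟩
  obtain ⟨hX0, hXX0⟩ := Finset.mem_filter.1 hX0m
  have hmin0 : ∀ M ∈ F0, X ⊆ M → M ⊂ X0 → False := by
    intro M hM hXM hMX
    have h1 := hX0min M (Finset.mem_filter.2 ⟨hM, hXM⟩)
    have h2 := Finset.card_lt_card hMX
    omega
  have hXF0 : X ∈ F0 → X0 = X := by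
    intro hX'
    by_contra hne'
    exact hmin0 X hX' (Finset.Subset.refl _) (Finset.ssubset_iff_subset_ne.2
      ⟨hXX0, fun h' => hne' h'.symm⟩)
  -- a member of `F0` strictly inside `X0` and meeting `X` lies strictly inside `X`
  have hin0 : ∀ M ∈ F0, M ⊂ X0 → ∀ v, v ∈ M → v ∈ X → M ⊂ X := by
    intro M hM hMX v hvM hvX
    rcases lam_sub hl (hFF hM) hX hvM hvX with h1 | h1
    · refine Finset.ssubset_iff_subset_ne.2 ⟨h1, ?_⟩
      rintro rfl
      exact hMX.ne (hXF0 hM).symm
    · exact (hmin0 M hM h1 hMX).elim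
  have hbag : ∀ v ∈ Bag F X, v ∈ Bag F0 X0 := by
    intro v hv
    obtain ⟨h1, h2⟩ := mem_bag.1 hv
    refine mem_bag.2 ⟨hXX0 h1, ?_⟩
    intro M hM hMX hvM
    exact h2 M (hFF hM) (hin0 M hM hMX v hvM h1) hvM
  have hbagc : (Bag F X).card ≤ N := (Finset.card_le_card hbag).trans (h.bag X0 hX0)
  have hboldkid : ∀ C, IsKid F X C → 3 ≤ G.d C → IsKid F0 X0 C := by
    intro C hC h3
    have hC0 : C ∈ F0 := by
      by_contra hcon
      have := hthin C hC.1 hcon
      omega
    obtain ⟨v, hv⟩ := hne C hC.1
    refine ⟨hC0, hC.2.1.trans_subset hXX0, ?_⟩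
    intro M hM hCM hMX
    exact hC.2.2 M (hFF hM) hCM (hin0 M hM hMX v (hCM hv) (hC.2.1.subset hv))
  obtain ⟨S1, hS1c, hS1⟩ := h.bold X0 hX0
  -- kids touched by the boundary of `X`
  let S2 : Finset (Finset ℕ) := F.filter fun C => IsKid F X C ∧ ∃ e ∈ G.bd X, G.Touch C e
  have hS2 : ∀ C, IsKid F X C → (∃ e ∈ G.bd X, G.Touch C e) → C ∈ S2 := fun C hC he =>
    Finset.mem_filter.2 ⟨hC.1, hC, he⟩
  have hS2c : S2.card ≤ 2 * (K + 2) := by
    have h1 := touched_count (G := G) hl (X := X) (G.bd X) S2
      (fun C hC => (Finset.mem_filter.1 hC).2)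
    have h2 : (G.bd X).card ≤ K + 2 := hord X hX
    omega
  -- kids touched by thin kids that contain a vertex of the old bag
  let T3 : Finset (Finset ℕ) := F.filter fun C => IsKid F X C ∧ G.d C ≤ 2 ∧ ∃ v ∈ Bag F0 X0, v ∈ C
  have hT3c : T3.card ≤ N := by
    have h1 : ∀ C, ∃ v, C ∈ T3 → v ∈ Bag F0 X0 ∧ v ∈ C := by
      intro C
      by_cases hC : C ∈ T3
      · obtain ⟨_, _, _, v, hv, hvC⟩ := Finset.mem_filter.1 hC
        exact ⟨v, fun _ => ⟨hv, hvC⟩⟩
      · exact ⟨0, fun h' => absurd h' hC⟩
    choose g hg using h1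
    refine (Finset.card_le_card_of_injOn g (fun C hC => (hg C hC).1) ?_).trans (h.bag X0 hX0)
    intro C hC C' hC' heq
    have k1 := hg C hC
    have k2 := hg C' hC'
    rw [← heq] at k2
    exact kid_eq hl (Finset.mem_filter.1 hC).2.1 (Finset.mem_filter.1 hC').2.1 k1.2 k2.2
  let S3 : Finset (Finset ℕ) := F.filter fun C => IsKid F X C ∧ ∃ e ∈ T3.biUnion G.bd, G.Touch C e
  have hS3c : S3.card ≤ 4 * N := by
    have h1 := touched_count (G := G) hl (X := X) (T3.biUnion G.bd) S3
      (fun C hC => (Finset.mem_filter.1 hC).2)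
    have h2 : (T3.biUnion G.bd).card ≤ T3.card * 2 :=
      Finset.card_biUnion_le_card_mul _ _ _ fun C hC => (Finset.mem_filter.1 hC).2.2.1
    omega
  -- the kid of a vertex
  have hkid : ∀ v, v ∈ X → v ∉ Bag F X → ∃ C, IsKid F X C ∧ v ∈ C := by
    intro v hv hvb
    have h1 : ∃ N' ∈ F, N' ⊂ X ∧ v ∈ N' := by
      by_contra hcon
      push Not at hcon
      exact hvb (mem_bag.2 ⟨hv, hcon⟩)
    obtain ⟨N', hN', hNX, hvN⟩ := h1
    obtain ⟨C, hC, hNC⟩ := exists_kid hN' hNX
    exact ⟨C, hC, hNC hvN⟩
  -- bold kids that are not private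
  have hbold : ∀ C, IsKid F X C → 3 ≤ G.d C → ¬ Priv G F X C → C ∈ S1 ∪ S2 ∪ S3 := by
    intro C hC h3 hP
    by_cases hP0 : Priv G F0 X0 C
    · unfold Priv at hP
      push Not at hP
      obtain ⟨e, he, ht, z, hz, hzC, hzB⟩ := hP
      have hz0 : z ∈ Bag F0 X0 := (hP0 e he ht z hz).resolve_left hzC
      obtain ⟨x, hx, hxC⟩ := touch_end.1 ht
      by_cases hzX : z ∈ X
      · obtain ⟨C', hC', hzC'⟩ := hkid z hzX hzB
        have hthC' : G.d C' ≤ 2 := by
          apply hthin C' hC'.1
          intro hC'0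
          exact (mem_bag.1 hz0).2 C' hC'0 (hC'.2.1.trans_subset hXX0) hzC'
        have hT : C' ∈ T3 := Finset.mem_filter.2 ⟨hC'.1, hC', hthC', z, hz0, hzC'⟩
        have hxC' : x ∉ C' := by
          intro hcon
          apply hzC
          rw [kid_eq hl hC hC' hxC hcon]
          exact hzC'
        apply Finset.mem_union_right
        exact Finset.mem_filter.2 ⟨hC.1, hC, e, Finset.mem_biUnion.2
          ⟨C', hT, G.mem_bd.2 ⟨he, cross_of hz hzC' hx hxC'⟩⟩, ht⟩
      · apply Finset.mem_union_left
        apply Finset.mem_union_right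
        exact hS2 C hC ⟨e, G.mem_bd.2 ⟨he, cross_of hx (hC.2.1.subset hxC) hz hzX⟩, ht⟩
    · apply Finset.mem_union_left
      apply Finset.mem_union_left
      exact hS1 C (hboldkid C hC h3) h3 hP0
  let SB : Finset (Finset ℕ) := (S1 ∪ S2 ∪ S3).filter fun C => IsKid F X C
  have hSBc : SB.card ≤ N + 2 * (K + 2) + 4 * N := by
    refine (Finset.card_filter_le _ _).trans ?_
    have h1 := Finset.card_union_le (S1 ∪ S2) S3
    have h2 := Finset.card_union_le S1 S2
    omega
  let S4 : Finset (Finset ℕ) := F.filter fun C => IsKid F X C ∧ ∃ e ∈ SB.biUnion G.bd, G.Touch C e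
  have hS4c : S4.card ≤ 2 * ((K + 2) * (N + 2 * (K + 2) + 4 * N)) := by
    have h1 := touched_count (G := G) hl (X := X) (SB.biUnion G.bd) S4
      (fun C hC => (Finset.mem_filter.1 hC).2)
    have h2 : (SB.biUnion G.bd).card ≤ SB.card * (K + 2) :=
      Finset.card_biUnion_le_card_mul _ _ _ fun C hC =>
        hord C (Finset.mem_filter.1 hC).2.1
    have h3 : SB.card * (K + 2) ≤ (K + 2) * (N + 2 * (K + 2) + 4 * N) := by
      rw [Nat.mul_comm]
      exact Nat.mul_le_mul_left _ hSBc
    omega
  have hbagm : (K + 2 + 1) * (Bag F X).card ≤ (K + 2 + 1) * N := Nat.mul_le_mul_left _ hbagc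
  -- two adjacent thin kids
  by_cases htwo : ∃ C C', IsKid F X C ∧ IsKid F X C' ∧ C ∪ C' = X
  · obtain ⟨C, C', hC, hC', hCC⟩ := htwo
    have h1 : NP G F X ⊆ {C, C'} := by
      intro D hD
      obtain ⟨hD1, _⟩ := mem_np.1 hD
      obtain ⟨v, hv⟩ := hne D hD1.1
      have hvX : v ∈ C ∪ C' := hCC ▸ hD1.2.1.subset hv
      rcases Finset.mem_union.1 hvX with h1 | h1
      · rw [kid_eq hl hD1 hC hv h1]
        simp
      · rw [kid_eq hl hD1 hC' hv h1]
        simp
    have h2 : (NP G F X).card ≤ 2 := (Finset.card_le_card h1).trans Finset.card_le_two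
    unfold bnd
    omega
  · have h1 : NP G F X ⊆ (S1 ∪ S2 ∪ S3) ∪ S4 := by
      intro C hC'
      obtain ⟨hC, hP⟩ := mem_np.1 hC'
      by_cases h3 : 3 ≤ G.d C
      · exact Finset.mem_union_left _ (hbold C hC h3 hP)
      · have hP' := hP
        unfold Priv at hP'
        push Not at hP'
        obtain ⟨e, he, ht, z, hz, hzC, hzB⟩ := hP'
        obtain ⟨x, hx, hxC⟩ := touch_end.1 ht
        by_cases hzX : z ∈ X
        · obtain ⟨C', hC', hzC'⟩ := hkid z hzX hzB
          have hCC' : C ≠ C' := by
            rintro rfl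
            exact hzC hzC'
          have hdis : Disjoint C C' := by
            rw [Finset.disjoint_left]
            intro w hw hw'
            exact hCC' (kid_eq hl hC hC' hw hw')
          have hxC' : x ∉ C' := fun hcon => Finset.disjoint_left.1 hdis hxC hcon
          have htC' : G.Touch C' e := touch_end.2 ⟨z, hz, hzC'⟩
          by_cases h3' : 3 ≤ G.d C'
          · have hPC' : ¬ Priv G F X C' := by
              intro hcon
              rcases hcon e he htC' x hx with h4 | h4
              · exact hxC' h4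
              · exact kid_not_bag hC hxC h4
            have hSB : C' ∈ SB := Finset.mem_filter.2 ⟨hbold C' hC' h3' hPC', hC'⟩
            apply Finset.mem_union_right
            exact Finset.mem_filter.2 ⟨hC.1, hC, e, Finset.mem_biUnion.2
              ⟨C', hSB, G.mem_bd.2 ⟨he, cross_of hz hzC' hx hxC'⟩⟩, ht⟩
          · exfalso
            have hdu := d_union_edge hdis he ht htC'
            -- the union can be added
            have hUX : C ∪ C' ⊂ X := by
              refine Finset.ssubset_iff_subset_ne.2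
                ⟨Finset.union_subset hC.2.1.subset hC'.2.1.subset, ?_⟩
              intro hcon
              exact htwo ⟨C, C', hC, hC', hcon⟩
            have hUF : C ∪ C' ∉ F := by
              intro hcon
              have h4 := hC.2.2 _ hcon Finset.subset_union_left hUX
              apply hzC
              rw [← h4]
              exact Finset.mem_union_right _ hzC'
            have hlamU : ∀ M ∈ F, Lam M (C ∪ C') := by
              intro M hM
              by_cases hdU : Disjoint M (C ∪ C')
              · exact Or.inr (Or.inr hdU)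
              · rw [Finset.not_disjoint_iff] at hdU
                obtain ⟨w, hwM, hwU⟩ := hdU
                rcases lam_sub hl hM hX hwM (hUX.subset hwU) with h5 | h5
                · by_cases hMX : M = X
                  · rw [hMX]
                    exact Or.inr (Or.inl hUX.subset)
                  · obtain ⟨D, hD, hMD⟩ := exists_kid hM
                      (Finset.ssubset_iff_subset_ne.2 ⟨h5, hMX⟩)
                    left
                    rcases Finset.mem_union.1 hwU with h6 | h6
                    · rw [kid_eq hl hD hC (hMD hwM) h6] at hMD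
                      exact hMD.trans Finset.subset_union_left
                    · rw [kid_eq hl hD hC' (hMD hwM) h6] at hMD
                      exact hMD.trans Finset.subset_union_right
                · exact Or.inr (Or.inl (hUX.subset.trans h5))
            have h6 := hmax (insert (C ∪ C') F) (by
              rw [Finset.mem_filter, Finset.mem_powerset]
              refine ⟨?_, hFF.trans (Finset.subset_insert _ _), ?_, ?_, ?_⟩
              · intro M hM
                rcases Finset.mem_insert.1 hM with rfl | hM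
                · exact Finset.mem_powerset.2 (hUX.subset.trans (hsub X hX))
                · exact hFV hM
              · intro M hM
                rcases Finset.mem_insert.1 hM with rfl | hM
                · exact ⟨x, Finset.mem_union_left _ hxC⟩
                · exact hne M hM
              · intro A hA B hB
                rcases Finset.mem_insert.1 hA with hA' | hA' <;>
                  rcases Finset.mem_insert.1 hB with hB' | hB'
                · rw [hA', hB']
                  exact Lam.refl
                · rw [hA']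
                  exact (hlamU B hB').symm
                · rw [hB']
                  exact hlamU A hA'
                · exact hl A hA' B hB'
              · intro M hM hM0
                rcases Finset.mem_insert.1 hM with rfl | hM
                · omega
                · exact hthin M hM hM0)
            rw [Finset.card_insert_of_notMem hUF] at h6
            omega
        · apply Finset.mem_union_left
          apply Finset.mem_union_left
          apply Finset.mem_union_right
          exact hS2 C hC ⟨e, G.mem_bd.2 ⟨he, cross_of hx (hC.2.1.subset hxC) hz hzX⟩, ht⟩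
    have h2 := Finset.card_le_card h1
    have h3 := Finset.card_union_le (S1 ∪ S2 ∪ S3) S4
    have h4 := Finset.card_union_le (S1 ∪ S2) S3
    have h5 := Finset.card_union_le S1 S2
    unfold bnd
    omega

end Pool.Agent.W2411c4
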