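import Pool.Agent.W_2411c4_h59.Defs
import Pool.Agent.W_2411c4_h59.Thin

/-! From graphs to the internal form. -/

set_option autoImplicit false

namespace Pool.Agent.W2411c4

open Gr

attribute [local instance] MGraph.finV MGraph.finE

namespace MGraph

variable (G : MGraph)

/-- code of a vertex -/
noncomputable def cV (v : G.V) : ℕ := (Finite.equivFin G.V v).1

/-- code of an edge -/
noncomputable def cE (e : G.E) : ℕ := (Finite.equivFin G.E e).1

theorem cV_inj {u v : G.V} (h : G.cV u = G.cV v) : u = v :=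
  (Finite.equivFin G.V).injective (Fin.ext h)

theorem cE_inj {e f : G.E} (h : G.cE e = G.cE f) : e = f :=
  (Finite.equivFin G.E).injective (Fin.ext h)

/-- first end -/
noncomputable def fst (e : G.E) : G.V := (Quot.out (G.ends e)).1

/-- second end -/
noncomputable def snd (e : G.E) : G.V := (Quot.out (G.ends e)).2

theorem ends_fs (e : G.E) : G.ends e = s(G.fst e, G.snd e) := (Quot.out_eq (G.ends e)).symm

theorem mem_ends {e : G.E} {v : G.V} : v ∈ G.ends e ↔ v = G.fst e ∨ v = G.snd e := by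
  rw [G.ends_fs e, Sym2.mem_iff]

theorem fst_ne_snd (e : G.E) : G.fst e ≠ G.snd e := by
  intro h
  apply G.loopless e
  rw [G.ends_fs e, h]
  exact Sym2.mk_isDiag_iff.2 rfl

/-- the set of codes of a set of vertices -/
noncomputable def cs (S : Set G.V) : Finset ℕ := (Set.toFinite (G.cV '' S)).toFinset

theorem mem_cs {S : Set G.V} {n : ℕ} : n ∈ G.cs S ↔ ∃ v ∈ S, G.cV v = n := by
  simp [cs]

theorem cV_mem {S : Set G.V} {v : G.V} : G.cV v ∈ G.cs S ↔ v ∈ S := by
  rw [mem_cs]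
  constructor
  · rintro ⟨w, hw, h⟩
    rwa [← G.cV_inj h]
  · exact fun h => ⟨v, h, rfl⟩

theorem cs_mono {S T : Set G.V} (h : S ⊆ T) : G.cs S ⊆ G.cs T := by
  intro n hn
  obtain ⟨v, hv, rfl⟩ := G.mem_cs.1 hn
  exact G.cV_mem.2 (h hv)

theorem cs_card (S : Set G.V) : (G.cs S).card = S.ncard := by
  have h1 : (G.cs S).card = (G.cV '' S).ncard := (Set.ncard_eq_toFinset_card _ _).symm
  rw [h1, Set.ncard_image_of_injective _ (fun _ _ h => G.cV_inj h)]

open Classical in
/-- the internal graph of `G - A`, with vertex labels -/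
noncomputable def toGr {Q : Type} (A : Set G.V) (l : G.V → Q) (q0 : Q) : Gr Q where
  E := (Set.toFinite (G.cE '' {e | ∀ v ∈ G.ends e, v ∉ A})).toFinset
  a := fun n => if h : ∃ e, G.cE e = n then G.cV (G.fst h.choose) else 0
  b := fun n => if h : ∃ e, G.cE e = n then G.cV (G.snd h.choose) else 0
  ne := by
    intro n hn
    have h : ∃ e, G.cE e = n := by
      rw [Set.Finite.mem_toFinset] at hn
      obtain ⟨e, _, he⟩ := hn
      exact ⟨e, he⟩
    rw [dif_pos h, dif_pos h]
    exact fun h' => G.fst_ne_snd _ (G.cV_inj h')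
  lab := fun n => if h : ∃ v, G.cV v = n then l h.choose else q0

variable {Q : Type} (A : Set G.V) (l : G.V → Q) (q0 : Q)

theorem mem_E {n : ℕ} : n ∈ (G.toGr A l q0).E ↔ ∃ e, (∀ v ∈ G.ends e, v ∉ A) ∧ G.cE e = n := by
  simp [toGr]

theorem a_cE (e : G.E) : (G.toGr A l q0).a (G.cE e) = G.cV (G.fst e) := by
  have h : ∃ e', G.cE e' = G.cE e := ⟨e, rfl⟩
  have h1 : (G.toGr A l q0).a (G.cE e) = G.cV (G.fst h.choose) := by
    simp only [toGr, dif_pos h]
  rw [h1, G.cE_inj h.choose_spec]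

theorem b_cE (e : G.E) : (G.toGr A l q0).b (G.cE e) = G.cV (G.snd e) := by
  have h : ∃ e', G.cE e' = G.cE e := ⟨e, rfl⟩
  have h1 : (G.toGr A l q0).b (G.cE e) = G.cV (G.snd h.choose) := by
    simp only [toGr, dif_pos h]
  rw [h1, G.cE_inj h.choose_spec]

theorem lab_cV (v : G.V) : (G.toGr A l q0).lab (G.cV v) = l v := by
  have h : ∃ v', G.cV v' = G.cV v := ⟨v, rfl⟩
  have h1 : (G.toGr A l q0).lab (G.cV v) = l h.choose := by
    simp only [toGr, dif_pos h]
  rw [h1, G.cV_inj h.choose_spec]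

theorem inc_cE (e : G.E) (n : ℕ) :
    (G.toGr A l q0).Inc (G.cE e) n ↔ ∃ v ∈ G.ends e, G.cV v = n := by
  unfold Gr.Inc
  rw [G.a_cE, G.b_cE]
  constructor
  · rintro (h | h)
    · exact ⟨_, G.mem_ends.2 (Or.inl rfl), h.symm⟩
    · exact ⟨_, G.mem_ends.2 (Or.inr rfl), h.symm⟩
  · rintro ⟨v, hv, rfl⟩
    rcases G.mem_ends.1 hv with rfl | rfl
    · exact Or.inl rfl
    · exact Or.inr rfl

theorem inc_cV {e : G.E} {v : G.V} :
    (G.toGr A l q0).Inc (G.cE e) (G.cV v) ↔ v ∈ G.ends e := by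
  rw [inc_cE]
  constructor
  · rintro ⟨w, hw, h⟩
    rwa [← G.cV_inj h]
  · exact fun h => ⟨v, h, rfl⟩

theorem mem_cut {S : Set G.V} {e : G.E} : e ∈ cut G A S ↔ (∀ v ∈ G.ends e, v ∉ A) ∧
    ∃ u ∈ G.ends e, ∃ v ∈ G.ends e, u ∈ S ∧ v ∉ S := by
  unfold cut
  simp only [Set.mem_ofPred_eq]
  constructor
  · rintro ⟨h1, u, v, h2, h3, h4⟩
    refine ⟨h1, u, ?_, v, ?_, h3, h4⟩
    · rw [h2]
      exact Sym2.mem_mk_left u v
    · rw [h2]
      exact Sym2.mem_mk_right u v
  · rintro ⟨h1, u, hu, v, hv, h3, h4⟩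
    refine ⟨h1, u, v, ?_, h3, h4⟩
    have huv : u ≠ v := by
      rintro rfl
      exact h4 h3
    exact (Sym2.mem_and_mem_iff huv).1 ⟨hu, hv⟩

theorem mem_bd_cs {S : Set G.V} {n : ℕ} :
    n ∈ (G.toGr A l q0).bd (G.cs S) ↔ ∃ e ∈ cut G A S, G.cE e = n := by
  rw [Gr.mem_bd, G.mem_E]
  constructor
  · rintro ⟨⟨e, he, rfl⟩, hc⟩
    refine ⟨e, (G.mem_cut A).2 ⟨he, ?_⟩, rfl⟩
    obtain ⟨p, q, hp, hpS, hq, hqS⟩ := cross_ends hc
    obtain ⟨u, hu, rfl⟩ := (G.inc_cE A l q0 e p).1 hp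
    obtain ⟨v, hv, rfl⟩ := (G.inc_cE A l q0 e q).1 hq
    exact ⟨u, hu, v, hv, G.cV_mem.1 hpS, fun h => hqS (G.cV_mem.2 h)⟩
  · rintro ⟨e, he, rfl⟩
    obtain ⟨h1, u, hu, v, hv, h3, h4⟩ := (G.mem_cut A).1 he
    exact ⟨⟨e, h1, rfl⟩, cross_of ((G.inc_cV A l q0).2 hu) (G.cV_mem.2 h3)
      ((G.inc_cV A l q0).2 hv) (fun h => h4 (G.cV_mem.1 h))⟩

theorem d_cs (S : Set G.V) : (G.toGr A l q0).d (G.cs S) = (cut G A S).ncard := by
  have h1 : (G.toGr A l q0).bd (G.cs S) = (Set.toFinite (G.cE '' cut G A S)).toFinset := by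
    ext n
    rw [G.mem_bd_cs, Set.Finite.mem_toFinset]
    rfl
  unfold Gr.d
  rw [h1, ← Set.ncard_eq_toFinset_card _ _,
    Set.ncard_image_of_injective _ (fun _ _ h => G.cE_inj h)]

end MGraph

namespace RootedTree

variable (R : RootedTree)

theorem iter_root (n : ℕ) : R.par^[n] R.root = R.root := by
  induction n with
  | zero => rfl
  | succ n ih => rw [Function.iterate_succ_apply', ih, R.par_root]

theorem periodic {s : R.T} {k : ℕ} (hk : 1 ≤ k) (h : R.par^[k] s = s) : s = R.root := by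
  obtain ⟨r, hr⟩ := R.reach s
  have h1 : ∀ m, R.par^[k * m] s = s := by
    intro m
    induction m with
    | zero => rfl
    | succ m ih => rw [Nat.mul_succ, Function.iterate_add_apply, h, ih]
  have h2 := h1 r
  obtain ⟨q, hq⟩ : ∃ q, k * r = q + r := ⟨k * r - r, by
    have := Nat.le_mul_of_pos_left r hk
    omega⟩
  rw [hq, Function.iterate_add_apply, hr, R.iter_root] at h2
  exact h2.symm

theorem below_refl (t : R.T) : R.Below t t := ⟨0, rfl⟩

theorem below_trans {r s t : R.T} (h : R.Below r s) (h' : R.Below s t) : R.Below r t := by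
  obtain ⟨n, hn⟩ := h
  obtain ⟨m, hm⟩ := h'
  exact ⟨n + m, by rw [Function.iterate_add_apply, hm, hn]⟩

theorem below_antisymm {s t : R.T} (h : R.Below s t) (h' : R.Below t s) : s = t := by
  obtain ⟨n, hn⟩ := h
  obtain ⟨m, hm⟩ := h'
  rcases Nat.eq_zero_or_pos n with rfl | hn0
  · exact hn.symm
  · have h1 : R.par^[n + m] s = s := by rw [Function.iterate_add_apply, hm, hn]
    have h2 := R.periodic (by omega) h1
    rw [h2, R.iter_root] at hm
    rw [h2, hm]

theorem below_comparable {s t u : R.T} (h : R.Below s u) (h' : R.Below t u) :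
    R.Below s t ∨ R.Below t s := by
  obtain ⟨n, hn⟩ := h
  obtain ⟨m, hm⟩ := h'
  rcases le_total n m with hnm | hnm
  · right
    refine ⟨m - n, ?_⟩
    rw [← hn, ← Function.iterate_add_apply, Nat.sub_add_cancel hnm, hm]
  · left
    refine ⟨n - m, ?_⟩
    rw [← hm, ← Function.iterate_add_apply, Nat.sub_add_cancel hnm, hn]

theorem below_child {c t : R.T} (h : R.Child t c) : R.Below t c := ⟨1, h.2⟩

/-- a proper descendant is below a child -/
theorem exists_child {s t : R.T} (h : R.Below t s) (hne : s ≠ t) :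
    ∃ c, R.Child t c ∧ R.Below c s := by
  classical
  have hn := Nat.find_spec h
  have hmin := fun m hm => Nat.find_min h (m := m) hm
  obtain ⟨k, hk⟩ : ∃ k, Nat.find h = k + 1 := by
    rcases Nat.eq_zero_or_pos (Nat.find h) with h0 | h0
    · rw [h0] at hn
      exact absurd hn hne
    · exact ⟨Nat.find h - 1, by omega⟩
  rw [hk, Function.iterate_succ_apply'] at hn
  refine ⟨R.par^[k] s, ⟨?_, hn⟩, k, rfl⟩
  intro hr
  apply hmin k (by omega)
  rw [hr, ← hn, hr, R.par_root]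

end RootedTree

section

variable (G : MGraph) {Q : Type} (A : Set G.V) (l : G.V → Q) (q0 : Q)

theorem side_mono {R : RootedTree} {f : G.V → R.T} {s t : R.T} (h : R.Below t s) :
    side G A R f s ⊆ side G A R f t := fun _ hv => ⟨hv.1, R.below_trans h hv.2⟩

theorem side_comparable {R : RootedTree} {f : G.V → R.T} {s t : R.T} {v : G.V}
    (hs : v ∈ side G A R f s) (ht : v ∈ side G A R f t) : R.Below s t ∨ R.Below t s :=
  R.below_comparable hs.2 ht.2

open Classical in
/-- the family of a decomposition -/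
noncomputable def famD (R : RootedTree) (f : G.V → R.T) : Finset (Finset ℕ) :=
  haveI := R.finT
  (Set.toFinite (Set.range fun t => G.cs (side G A R f t))).toFinset.filter fun M => M.Nonempty

theorem mem_famD {R : RootedTree} {f : G.V → R.T} {M : Finset ℕ} :
    M ∈ famD G A R f ↔ M.Nonempty ∧ ∃ t, G.cs (side G A R f t) = M := by
  classical
  have := R.finT
  unfold famD
  rw [Finset.mem_filter, Set.Finite.mem_toFinset, Set.mem_range, and_comm]

theorem treeCut_val0 {K N : ℕ} (h : TreeCut K N G A) (hne : (G.cs Aᶜ).Nonempty) :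
    ∃ F, Val0 (G.toGr A l q0) (G.cs Aᶜ) K N F := by
  classical
  obtain ⟨R, f, hK, hN, hC⟩ := h
  have := R.finT
  have hroot : side G A R f R.root = Aᶜ := by
    ext v
    constructor
    · exact fun hv => hv.1
    · exact fun hv => ⟨hv, R.reach _⟩
  have hsubA : ∀ t, side G A R f t ⊆ Aᶜ := fun t v hv => hv.1
  have hlam : ∀ s t, Lam (G.cs (side G A R f s)) (G.cs (side G A R f t)) := by
    intro s t
    by_cases hd : Disjoint (G.cs (side G A R f s)) (G.cs (side G A R f t))
    · exact Or.inr (Or.inr hd)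
    · rw [Finset.not_disjoint_iff] at hd
      obtain ⟨n, h1, h2⟩ := hd
      obtain ⟨v, hv, rfl⟩ := G.mem_cs.1 h1
      rcases side_comparable G A hv (G.cV_mem.1 h2) with h3 | h3
      · exact Or.inr (Or.inl (G.cs_mono (side_mono G A h3)))
      · exact Or.inl (G.cs_mono (side_mono G A h3))
  -- the deepest node of a member
  have hdeep : ∀ X ∈ famD G A R f, ∃ t, G.cs (side G A R f t) = X ∧
      ∀ c, R.Child t c → G.cs (side G A R f c) ≠ X := by
    intro X hX
    obtain ⟨_, t0, ht0⟩ := (mem_famD G A).1 hX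
    obtain ⟨t, ht, hmin⟩ := Set.exists_min_image {t | G.cs (side G A R f t) = X}
      (fun t => {s | R.Below t s}.ncard) (Set.toFinite _) ⟨t0, ht0⟩
    refine ⟨t, ht, ?_⟩
    intro c hc hcX
    have h1 := hmin c hcX
    have h2 : {s | R.Below c s}.ncard < {s | R.Below t s}.ncard := by
      have hsub : {s | R.Below c s} ⊆ {s | R.Below t s} := fun s hs =>
        R.below_trans (R.below_child hc) hs
      apply Set.ncard_lt_ncard _ (Set.toFinite _)
      refine (Set.ssubset_iff_of_subset hsub).2 ⟨t, R.below_refl t, ?_⟩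
      intro hct
      have h3 := R.below_antisymm hct (R.below_child hc)
      have h4 := hc.2
      rw [h3] at h4
      exact hc.1 (h3.trans (R.periodic le_rfl h4))
    omega
  -- kids come from children
  have hkid : ∀ X ∈ famD G A R f, ∀ t, G.cs (side G A R f t) = X →
      (∀ c, R.Child t c → G.cs (side G A R f c) ≠ X) → ∀ s v, v ∈ side G A R f s → v ∈ side G A R f t →
      G.cs (side G A R f s) ⊂ X → ∃ c, R.Child t c ∧ R.Below c s ∧
        G.cs (side G A R f c) ∈ famD G A R f ∧ G.cs (side G A R f c) ⊂ X := by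
    intro X hX t ht hc s v hvs hvt hsX
    rcases side_comparable G A hvs hvt with h1 | h1
    · exfalso
      have h2 := G.cs_mono (side_mono G A (f := f) h1)
      rw [ht] at h2
      exact hsX.not_subset h2
    · have hst : s ≠ t := by
        rintro rfl
        exact hsX.ne ht
      obtain ⟨c, hct, hcs⟩ := R.exists_child h1 hst
      refine ⟨c, hct, hcs, (mem_famD G A).2 ⟨⟨G.cV v, ?_⟩, c, rfl⟩, ?_⟩
      · exact G.cV_mem.2 (side_mono G A hcs hvs)
      · refine Finset.ssubset_iff_subset_ne.2 ⟨?_, hc c hct⟩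
        rw [← ht]
        exact G.cs_mono (side_mono G A (R.below_child hct))
  have hbag : ∀ X ∈ famD G A R f, ∀ t, G.cs (side G A R f t) = X →
      (∀ c, R.Child t c → G.cs (side G A R f c) ≠ X) → ∀ v, v ∉ A → 
      (G.cV v ∈ Bag (famD G A R f) X ↔ f v = t) := by
    intro X hX t ht hc v hvA
    constructor
    · intro hv
      obtain ⟨h1, h2⟩ := mem_bag.1 hv
      rw [← ht, G.cV_mem] at h1
      by_contra hne'
      obtain ⟨c, hct, hcs⟩ := R.exists_child h1.2 hne'
      have hvc : v ∈ side G A R f c := ⟨hvA, hcs⟩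
      refine h2 (G.cs (side G A R f c)) ((mem_famD G A).2 ⟨⟨G.cV v, G.cV_mem.2 hvc⟩, c, rfl⟩) ?_
        (G.cV_mem.2 hvc)
      refine Finset.ssubset_iff_subset_ne.2 ⟨?_, hc c hct⟩
      rw [← ht]
      exact G.cs_mono (side_mono G A (R.below_child hct))
    · intro hv
      have hvt : v ∈ side G A R f t := ⟨hvA, by rw [hv]; exact R.below_refl t⟩
      refine mem_bag.2 ⟨by rw [← ht]; exact G.cV_mem.2 hvt, ?_⟩
      intro M hM hMX hvM
      obtain ⟨_, s, rfl⟩ := (mem_famD G A).1 hM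
      have hvs := G.cV_mem.1 hvM
      have h1 : R.Below s t := by
        have := hvs.2
        rwa [hv] at this
      have h2 := G.cs_mono (side_mono G A (f := f) h1)
      rw [ht] at h2
      exact hMX.not_subset h2
  have hcA : ∀ X ∈ famD G A R f, ∀ n ∈ X, ∃ v, v ∉ A ∧ G.cV v = n := by
    intro X hX n hn
    obtain ⟨_, t, rfl⟩ := (mem_famD G A).1 hX
    obtain ⟨v, hv, rfl⟩ := G.mem_cs.1 hn
    exact ⟨v, hv.1, rfl⟩
  refine ⟨famD G A R f, ?_, ?_, ?_, ?_, ?_, ?_, ?_⟩
  · exact (mem_famD G A).2 ⟨hne, R.root, by rw [hroot]⟩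
  · exact fun M hM => ((mem_famD G A).1 hM).1
  · intro M hM
    obtain ⟨_, t, rfl⟩ := (mem_famD G A).1 hM
    exact G.cs_mono (hsubA t)
  · intro M hM M' hM'
    obtain ⟨_, t, rfl⟩ := (mem_famD G A).1 hM
    obtain ⟨_, t', rfl⟩ := (mem_famD G A).1 hM'
    exact hlam t t'
  · intro M hM
    obtain ⟨_, t, rfl⟩ := (mem_famD G A).1 hM
    rw [G.d_cs]
    exact hK t
  · intro X hX
    obtain ⟨t, ht, hc⟩ := hdeep X hX
    have h1 : Bag (famD G A R f) X ⊆ G.cs {v | v ∉ A ∧ f v = t} := by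
      intro n hn
      obtain ⟨v, hvA, rfl⟩ := hcA X hX n (mem_bag.1 hn).1
      exact G.cV_mem.2 ⟨hvA, (hbag X hX t ht hc v hvA).1 hn⟩
    refine (Finset.card_le_card h1).trans ?_
    rw [G.cs_card]
    exact hN t
  · intro X hX
    obtain ⟨t, ht, hc⟩ := hdeep X hX
    let T : Set R.T := {c | R.Child t c ∧ 3 ≤ (cut G A (side G A R f c)).ncard ∧
      ∃ e ∈ cut G A (side G A R f c), ∃ v ∈ G.ends e, v ∉ side G A R f c ∧ f v ≠ t}
    refine ⟨(Set.toFinite T).toFinset.image fun c => G.cs (side G A R f c), ?_, ?_⟩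
    · refine Finset.card_image_le.trans ?_
      rw [← Set.ncard_eq_toFinset_card _ _]
      exact hC t
    · intro C hCk h3 hP
      obtain ⟨_, s, hs⟩ := (mem_famD G A).1 hCk.1
      obtain ⟨n, hn⟩ := ((mem_famD G A).1 hCk.1).1
      have hn' := hn
      rw [← hs] at hn'
      obtain ⟨v, hv, rfl⟩ := G.mem_cs.1 hn'
      have hvt : v ∈ side G A R f t := by
        have := hCk.2.1.subset hn
        rw [← ht] at this
        exact G.cV_mem.1 this
      obtain ⟨c, hct, hcs, hcF, hcX⟩ := hkid X hX t ht hc s v hv hvt (by rw [hs]; exact hCk.2.1)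
      have hCc : G.cs (side G A R f c) = C := by
        apply hCk.2.2 _ hcF _ hcX
        rw [← hs]
        exact G.cs_mono (side_mono G A hcs)
      refine Finset.mem_image.2 ⟨c, ?_, hCc⟩
      rw [Set.Finite.mem_toFinset]
      refine ⟨hct, ?_, ?_⟩
      · rw [← G.d_cs A l q0, hCc]
        exact h3
      · unfold Priv at hP
        push Not at hP
        obtain ⟨n, hn, hnt, z, hz, hzC, hzB⟩ := hP
        obtain ⟨e, he, rfl⟩ := (G.mem_E A l q0).1 hn
        obtain ⟨w, hw, rfl⟩ := (G.inc_cE A l q0 e z).1 hz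
        obtain ⟨x, hx, hxC⟩ := touch_end.1 hnt
        obtain ⟨y, hy, rfl⟩ := (G.inc_cE A l q0 e x).1 hx
        rw [← hCc, G.cV_mem] at hxC hzC
        refine ⟨e, (G.mem_cut A).2 ⟨he, y, hy, w, hw, hxC, hzC⟩, w, hw, hzC, ?_⟩
        intro hfw
        exact hzB ((hbag X hX t ht hc w (he w hw)).2 hfw)

end

end Pool.Agent.W2411c4
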