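import Mathlib

/-! A maximal laminar family of critical sets of a submodular function. -/

set_option autoImplicit false

namespace Pool.Agent.W2411c4

/-- `Z` separates `u` and `v` -/
def Sep (u v : ℕ) (Z : Finset ℕ) : Prop := (u ∈ Z ∧ v ∉ Z) ∨ (v ∈ Z ∧ u ∉ Z)

/-- `Z` is a best separator of `u` and `v` -/
def Mn (V0 : Finset ℕ) (f : Finset ℕ → ℕ) (u v : ℕ) (Z : Finset ℕ) : Prop :=
  Z ⊆ V0 ∧ Sep u v Z ∧ ∀ W ⊆ V0, Sep u v W → f Z ≤ f W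

/-- `Z` is critical -/
def Crit (V0 : Finset ℕ) (f : Finset ℕ → ℕ) (Z : Finset ℕ) : Prop :=
  ∃ x ∈ V0, ∃ y ∈ V0, Mn V0 f x y Z

/-- two sets do not cross -/
def Lam (A B : Finset ℕ) : Prop := A ⊆ B ∨ B ⊆ A ∨ Disjoint A B

theorem not_lam {A B : Finset ℕ} :
    ¬ Lam A B ↔ (∃ x, x ∈ A ∧ x ∉ B) ∧ (∃ x, x ∈ B ∧ x ∉ A) ∧ ∃ x, x ∈ A ∧ x ∈ B := by
  unfold Lam
  rw [Finset.disjoint_left]
  constructor
  · intro h
    push Not at h
    obtain ⟨h1, h2, h3⟩ := h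
    exact ⟨Finset.not_subset.1 h1, Finset.not_subset.1 h2, h3⟩
  · rintro ⟨⟨x, hx, hx'⟩, ⟨y, hy, hy'⟩, z, hz, hz'⟩ (h | h | h)
    · exact hx' (h hx)
    · exact hy' (h hy)
    · exact h hz hz'

theorem Sep.symm {u v : ℕ} {Z : Finset ℕ} (h : Sep u v Z) : Sep v u Z := Or.symm h

theorem Mn.symm {V0 : Finset ℕ} {f : Finset ℕ → ℕ} {u v : ℕ} {Z : Finset ℕ}
    (h : Mn V0 f u v Z) : Mn V0 f v u Z :=
  ⟨h.1, h.2.1.symm, fun W hW hs => h.2.2 W hW hs.symm⟩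

theorem uncross_aux {V0 : Finset ℕ} {f : Finset ℕ → ℕ}
    (hsub : ∀ A B, f (A ∩ B) + f (A ∪ B) ≤ f A + f B)
    (hpos : ∀ A B, f (A \ B) + f (B \ A) ≤ f A + f B)
    {L Z : Finset ℕ} {u v x y : ℕ} (hL : Mn V0 f x y L) (hZ : Mn V0 f u v Z)
    (hu : u ∈ Z) (hv : v ∉ Z) (hx : x ∈ L) (hy : y ∉ L) :
    Mn V0 f u v L ∨ Mn V0 f u v (Z ∩ L) ∨ Mn V0 f u v (Z ∪ L) ∨ Mn V0 f u v (Z \ L) ∨
      Mn V0 f u v (L \ Z) := by
  obtain ⟨hLV, hLs, hLm⟩ := hL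
  obtain ⟨hZV, hZs, hZm⟩ := hZ
  have h1 := hsub Z L
  have h2 := hpos Z L
  have hI : Z ∩ L ⊆ V0 := Finset.inter_subset_left.trans hZV
  have hU : Z ∪ L ⊆ V0 := Finset.union_subset hZV hLV
  have hD : Z \ L ⊆ V0 := Finset.sdiff_subset.trans hZV
  have hE : L \ Z ⊆ V0 := Finset.sdiff_subset.trans hLV
  have mk : ∀ C, C ⊆ V0 → Sep u v C → f C ≤ f Z → Mn V0 f u v C := fun C h h' h'' =>
    ⟨h, h', fun W hW hs => h''.trans (hZm W hW hs)⟩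
  have iL : ∀ w, w ∈ Z ∩ L ↔ w ∈ Z ∧ w ∈ L := fun w => Finset.mem_inter
  have uL : ∀ w, w ∈ Z ∪ L ↔ w ∈ Z ∨ w ∈ L := fun w => Finset.mem_union
  have dL : ∀ w, w ∈ Z \ L ↔ w ∈ Z ∧ w ∉ L := fun w => Finset.mem_sdiff
  have eL : ∀ w, w ∈ L \ Z ↔ w ∈ L ∧ w ∉ Z := fun w => Finset.mem_sdiff
  by_cases hxZ : x ∈ Z <;> by_cases hyZ : y ∈ Z
  · have a1 := hLm (Z ∩ L) hI (Or.inl ⟨(iL x).2 ⟨hxZ, hx⟩, fun h => hy ((iL y).1 h).2⟩)
    have a2 := hLm (Z \ L) hD (Or.inr ⟨(dL y).2 ⟨hyZ, hy⟩, fun h => ((dL x).1 h).2 hx⟩)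
    by_cases hvL : v ∈ L
    · exact Or.inr (Or.inr (Or.inr (Or.inr (mk _ hE
        (Or.inr ⟨(eL v).2 ⟨hvL, hv⟩, fun h => ((eL u).1 h).2 hu⟩) (by omega)))))
    · exact Or.inr (Or.inr (Or.inl (mk _ hU
        (Or.inl ⟨(uL u).2 (Or.inl hu), fun h => ((uL v).1 h).elim hv hvL⟩) (by omega))))
  · have a1 := hLm (Z ∩ L) hI (Or.inl ⟨(iL x).2 ⟨hxZ, hx⟩, fun h => hy ((iL y).1 h).2⟩)
    have a2 := hLm (Z ∪ L) hU (Or.inl ⟨(uL x).2 (Or.inl hxZ), fun h => ((uL y).1 h).elim hyZ hy⟩)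
    have a3 := hLm Z hZV (Or.inl ⟨hxZ, hyZ⟩)
    by_cases huL : u ∈ L
    · exact Or.inr (Or.inl (mk _ hI (Or.inl ⟨(iL u).2 ⟨hu, huL⟩, fun h => hv ((iL v).1 h).1⟩)
        (by omega)))
    · by_cases hvL : v ∈ L
      · exact Or.inl (mk _ hLV (Or.inr ⟨hvL, huL⟩) a3)
      · exact Or.inr (Or.inr (Or.inl (mk _ hU
          (Or.inl ⟨(uL u).2 (Or.inl hu), fun h => ((uL v).1 h).elim hv hvL⟩) (by omega))))
  · have a1 := hLm (Z \ L) hD (Or.inr ⟨(dL y).2 ⟨hyZ, hy⟩, fun h => ((dL x).1 h).2 hx⟩)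
    have a2 := hLm (L \ Z) hE (Or.inl ⟨(eL x).2 ⟨hx, hxZ⟩, fun h => hy ((eL y).1 h).1⟩)
    have a3 := hLm Z hZV (Or.inr ⟨hyZ, hxZ⟩)
    by_cases huL : u ∈ L
    · by_cases hvL : v ∈ L
      · exact Or.inr (Or.inr (Or.inr (Or.inr (mk _ hE
          (Or.inr ⟨(eL v).2 ⟨hvL, hv⟩, fun h => ((eL u).1 h).2 hu⟩) (by omega)))))
      · exact Or.inl (mk _ hLV (Or.inl ⟨huL, hvL⟩) a3)
    · exact Or.inr (Or.inr (Or.inr (Or.inl (mk _ hD
        (Or.inl ⟨(dL u).2 ⟨hu, huL⟩, fun h => hv ((dL v).1 h).1⟩) (by omega)))))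
  · have a1 := hLm (Z ∪ L) hU (Or.inl ⟨(uL x).2 (Or.inr hx), fun h => ((uL y).1 h).elim hyZ hy⟩)
    have a2 := hLm (L \ Z) hE (Or.inl ⟨(eL x).2 ⟨hx, hxZ⟩, fun h => hy ((eL y).1 h).1⟩)
    by_cases huL : u ∈ L
    · exact Or.inr (Or.inl (mk _ hI (Or.inl ⟨(iL u).2 ⟨hu, huL⟩, fun h => hv ((iL v).1 h).1⟩)
        (by omega)))
    · exact Or.inr (Or.inr (Or.inr (Or.inl (mk _ hD
        (Or.inl ⟨(dL u).2 ⟨hu, huL⟩, fun h => hv ((dL v).1 h).1⟩) (by omega)))))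

theorem uncross {V0 : Finset ℕ} {f : Finset ℕ → ℕ}
    (hsub : ∀ A B, f (A ∩ B) + f (A ∪ B) ≤ f A + f B)
    (hpos : ∀ A B, f (A \ B) + f (B \ A) ≤ f A + f B)
    {L Z : Finset ℕ} {u v x y : ℕ} (hL : Mn V0 f x y L) (hZ : Mn V0 f u v Z) :
    Mn V0 f u v L ∨ Mn V0 f u v (Z ∩ L) ∨ Mn V0 f u v (Z ∪ L) ∨ Mn V0 f u v (Z \ L) ∨
      Mn V0 f u v (L \ Z) := by
  have sw : ∀ C, Mn V0 f v u C → Mn V0 f u v C := fun C h => h.symm
  rcases hZ.2.1 with ⟨h1, h2⟩ | ⟨h1, h2⟩ <;> rcases hL.2.1 with ⟨h3, h4⟩ | ⟨h3, h4⟩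
  · exact uncross_aux hsub hpos hL hZ h1 h2 h3 h4
  · exact uncross_aux hsub hpos hL.symm hZ h1 h2 h3 h4
  · rcases uncross_aux hsub hpos hL hZ.symm h1 h2 h3 h4 with h | h | h | h | h
    · exact Or.inl h.symm
    · exact Or.inr (Or.inl h.symm)
    · exact Or.inr (Or.inr (Or.inl h.symm))
    · exact Or.inr (Or.inr (Or.inr (Or.inl h.symm)))
    · exact Or.inr (Or.inr (Or.inr (Or.inr h.symm)))
  · rcases uncross_aux hsub hpos hL.symm hZ.symm h1 h2 h3 h4 with h | h | h | h | h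
    · exact Or.inl h.symm
    · exact Or.inr (Or.inl h.symm)
    · exact Or.inr (Or.inr (Or.inl h.symm))
    · exact Or.inr (Or.inr (Or.inr (Or.inl h.symm)))
    · exact Or.inr (Or.inr (Or.inr (Or.inr h.symm)))

/-- corners cross fewer members -/
theorem corner_cross {L Z M : Finset ℕ} (hLZ : ¬ Lam L Z) (hML : Lam M L) :
    (¬ Lam M (Z ∩ L) → ¬ Lam M Z) ∧ (¬ Lam M (Z ∪ L) → ¬ Lam M Z) ∧
      (¬ Lam M (Z \ L) → ¬ Lam M Z) ∧ (¬ Lam M (L \ Z) → ¬ Lam M Z) := by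
  rw [not_lam] at *
  obtain ⟨⟨a, ha, ha'⟩, ⟨b, hb, hb'⟩, c, hc, hc'⟩ := hLZ
  simp only [not_lam, Finset.mem_inter, Finset.mem_union, Finset.mem_sdiff]
  rcases hML with h | h | h
  · refine ⟨?_, ?_, ?_, ?_⟩
    · rintro ⟨⟨x, hx, hx'⟩, ⟨y, hy, hy'⟩, z, hz, hz'⟩
      exact ⟨⟨x, hx, fun h' => hx' ⟨h', h hx⟩⟩, ⟨y, hy.1, hy'⟩, z, hz, hz'.1⟩
    · rintro ⟨⟨x, hx, hx'⟩, _⟩
      exact absurd (Or.inr (h hx)) hx'
    · rintro ⟨_, _, z, hz, hz'⟩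
      exact absurd (h hz) hz'.2
    · rintro ⟨⟨x, hx, hx'⟩, _, z, hz, hz'⟩
      refine ⟨⟨z, hz, hz'.2⟩, ⟨b, hb, fun h' => hb' (h h')⟩, x, hx, ?_⟩
      by_contra hxZ
      exact hx' ⟨h hx, hxZ⟩
  · refine ⟨?_, ?_, ?_, ?_⟩
    · rintro ⟨_, ⟨y, hy, hy'⟩, _⟩
      exact absurd (h hy.2) hy'
    · rintro ⟨⟨x, hx, hx'⟩, ⟨y, hy, hy'⟩, _⟩
      refine ⟨⟨x, hx, fun h' => hx' (Or.inl h')⟩, ⟨y, ?_, hy'⟩, c, h hc, hc'⟩
      rcases hy with hy | hy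
      · exact hy
      · exact absurd (h hy) hy'
    · rintro ⟨_, ⟨y, hy, hy'⟩, z, hz, hz'⟩
      exact ⟨⟨a, h ha, ha'⟩, ⟨y, hy.1, hy'⟩, z, hz, hz'.1⟩
    · rintro ⟨_, ⟨y, hy, hy'⟩, _⟩
      exact absurd (h hy.1) hy'
  · rw [Finset.disjoint_left] at h
    refine ⟨?_, ?_, ?_, ?_⟩
    · rintro ⟨_, _, z, hz, hz'⟩
      exact absurd hz'.2 (h hz)
    · rintro ⟨⟨x, hx, hx'⟩, ⟨y, hy, hy'⟩, z, hz, hz'⟩
      refine ⟨⟨x, hx, fun h' => hx' (Or.inl h')⟩, ⟨c, hc', fun h' => h h' hc⟩, z, hz, ?_⟩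
      rcases hz' with hz' | hz'
      · exact hz'
      · exact absurd hz' (h hz)
    · rintro ⟨⟨x, hx, hx'⟩, ⟨y, hy, hy'⟩, z, hz, hz'⟩
      exact ⟨⟨x, hx, fun h' => hx' ⟨h', h hx⟩⟩, ⟨y, hy.1, hy'⟩, z, hz, hz'.1⟩
    · rintro ⟨_, _, z, hz, hz'⟩
      exact absurd hz'.1 (h hz)

/-- corners do not cross `L` -/
theorem corner_self {L Z : Finset ℕ} :
    Lam L (Z ∩ L) ∧ Lam L (Z ∪ L) ∧ Lam L (Z \ L) ∧ Lam L (L \ Z) := by
  refine ⟨Or.inr (Or.inl Finset.inter_subset_right), Or.inl Finset.subset_union_right,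
    Or.inr (Or.inr Finset.disjoint_sdiff), Or.inr (Or.inl Finset.sdiff_subset)⟩

theorem Lam.symm {A B : Finset ℕ} (h : Lam A B) : Lam B A := by
  rcases h with h | h | h
  · exact Or.inr (Or.inl h)
  · exact Or.inl h
  · exact Or.inr (Or.inr h.symm)

theorem Lam.refl {A : Finset ℕ} : Lam A A := Or.inl (Finset.Subset.refl _)

/-- a laminar family of critical sets not containing `r` -/
structure LF (V0 : Finset ℕ) (f : Finset ℕ → ℕ) (r : ℕ) (F : Finset (Finset ℕ)) : Prop where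
  crit : ∀ L ∈ F, Crit V0 f L
  root : ∀ L ∈ F, r ∉ L
  lam : ∀ A ∈ F, ∀ B ∈ F, Lam A B

theorem exists_family (V0 : Finset ℕ) (f : Finset ℕ → ℕ) (r : ℕ)
    (hsub : ∀ A B, f (A ∩ B) + f (A ∪ B) ≤ f A + f B)
    (hpos : ∀ A B, f (A \ B) + f (B \ A) ≤ f A + f B)
    (hsym : ∀ Z ⊆ V0, f (V0 \ Z) = f Z) :
    ∃ F : Finset (Finset ℕ), LF V0 f r F ∧
      ∀ u ∈ V0, ∀ v ∈ V0, u ≠ v → ∃ M ∈ F, Mn V0 f u v M := by
  classical
  obtain ⟨F, hF, hmax⟩ := Finset.exists_max_image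
    ((V0.powerset.powerset).filter fun F => LF V0 f r F) (fun F => F.card)
    ⟨∅, by
      rw [Finset.mem_filter, Finset.mem_powerset]
      exact ⟨Finset.empty_subset _, by simp, by simp, by simp⟩⟩
  rw [Finset.mem_filter, Finset.mem_powerset] at hF
  obtain ⟨hFV, hLF⟩ := hF
  refine ⟨F, hLF, ?_⟩
  intro u hu v hv huv
  -- a best separator avoiding `r`
  have hne : (V0.powerset.filter fun Z => Sep u v Z).Nonempty := by
    refine ⟨{u}, ?_⟩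
    rw [Finset.mem_filter, Finset.mem_powerset]
    exact ⟨by simpa using hu, Or.inl ⟨by simp, by simpa using huv.symm⟩⟩
  obtain ⟨Z0, hZ0, hZ0m⟩ := Finset.exists_min_image _ f hne
  rw [Finset.mem_filter, Finset.mem_powerset] at hZ0
  have hMn0 : Mn V0 f u v Z0 := ⟨hZ0.1, hZ0.2, fun W hW hs => hZ0m W (by
    rw [Finset.mem_filter, Finset.mem_powerset]
    exact ⟨hW, hs⟩)⟩
  have hcand : ((V0.powerset).filter fun Z => Mn V0 f u v Z ∧ r ∉ Z).Nonempty := by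
    by_cases hr : r ∈ Z0
    · refine ⟨V0 \ Z0, ?_⟩
      rw [Finset.mem_filter, Finset.mem_powerset]
      refine ⟨Finset.sdiff_subset, ⟨Finset.sdiff_subset, ?_, ?_⟩, ?_⟩
      · rcases hMn0.2.1 with h | h
        · right
          exact ⟨Finset.mem_sdiff.2 ⟨hv, h.2⟩, fun h' => (Finset.mem_sdiff.1 h').2 h.1⟩
        · left
          exact ⟨Finset.mem_sdiff.2 ⟨hu, h.2⟩, fun h' => (Finset.mem_sdiff.1 h').2 h.1⟩
      · rw [hsym Z0 hZ0.1]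
        exact hMn0.2.2
      · exact fun h' => (Finset.mem_sdiff.1 h').2 hr
    · refine ⟨Z0, ?_⟩
      rw [Finset.mem_filter, Finset.mem_powerset]
      exact ⟨hZ0.1, hMn0, hr⟩
  obtain ⟨Z, hZ, hZmin⟩ := Finset.exists_min_image _
    (fun Z => (F.filter fun M => ¬ Lam M Z).card) hcand
  rw [Finset.mem_filter, Finset.mem_powerset] at hZ
  obtain ⟨hZV, hZM, hrZ⟩ := hZ
  by_cases hcr : ∃ L ∈ F, ¬ Lam L Z
  · obtain ⟨L, hLF', hLZ⟩ := hcr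
    obtain ⟨x, hx, y, hy, hLM⟩ := hLF.crit L hLF'
    have hrL := hLF.root L hLF'
    have hcorner : ∀ C, C ⊆ V0 → Mn V0 f u v C → r ∉ C → Lam L C →
        (∀ M ∈ F, ¬ Lam M C → ¬ Lam M Z) → False := by
      intro C hCV hC hrC hLC hM
      have h1 := hZmin C (by
        rw [Finset.mem_filter, Finset.mem_powerset]
        exact ⟨hCV, hC, hrC⟩)
      have h2 : (F.filter fun M => ¬ Lam M C) ⊂ (F.filter fun M => ¬ Lam M Z) := by
        rw [Finset.ssubset_iff_of_subset]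
        · refine ⟨L, Finset.mem_filter.2 ⟨hLF', hLZ⟩, fun h => (Finset.mem_filter.1 h).2 hLC⟩
        · intro M hM'
          obtain ⟨h3, h4⟩ := Finset.mem_filter.1 hM'
          exact Finset.mem_filter.2 ⟨h3, hM M h3 h4⟩
      have h3 := Finset.card_lt_card h2
      omega
    obtain ⟨s1, s2, s3, s4⟩ := corner_self (L := L) (Z := Z)
    rcases uncross hsub hpos hLM hZM with h | h | h | h | h
    · exact ⟨L, hLF', h⟩
    · exfalso
      exact hcorner _ h.1 h (fun h' => hrZ (Finset.mem_inter.1 h').1) s1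
        (fun M hM => (corner_cross hLZ (hLF.lam M hM L hLF')).1)
    · exfalso
      exact hcorner _ h.1 h (fun h' => (Finset.mem_union.1 h').elim hrZ hrL) s2
        (fun M hM => (corner_cross hLZ (hLF.lam M hM L hLF')).2.1)
    · exfalso
      exact hcorner _ h.1 h (fun h' => hrZ (Finset.mem_sdiff.1 h').1) s3
        (fun M hM => (corner_cross hLZ (hLF.lam M hM L hLF')).2.2.1)
    · exfalso
      exact hcorner _ h.1 h (fun h' => hrL (Finset.mem_sdiff.1 h').1) s4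
        (fun M hM => (corner_cross hLZ (hLF.lam M hM L hLF')).2.2.2)
  · push Not at hcr
    refine ⟨Z, ?_, hZM⟩
    by_contra hZF
    have h1 := hmax (insert Z F) (by
      rw [Finset.mem_filter, Finset.mem_powerset]
      refine ⟨?_, ?_, ?_, ?_⟩
      · intro M hM
        rcases Finset.mem_insert.1 hM with rfl | hM
        · exact Finset.mem_powerset.2 hZV
        · exact hFV hM
      · intro M hM
        rcases Finset.mem_insert.1 hM with rfl | hM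
        · exact ⟨u, hu, v, hv, hZM⟩
        · exact hLF.crit M hM
      · intro M hM
        rcases Finset.mem_insert.1 hM with rfl | hM
        · exact hrZ
        · exact hLF.root M hM
      · intro A hA B hB
        rcases Finset.mem_insert.1 hA with hA' | hA' <;> rcases Finset.mem_insert.1 hB with hB' | hB'
        · rw [hA', hB']
          exact Lam.refl
        · rw [hA']
          exact (hcr B hB').symm
        · rw [hB']
          exact hcr A hA'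
        · exact hLF.lam A hA' B hB')
    rw [Finset.card_insert_of_notMem hZF] at h1
    omega

end Pool.Agent.W2411c4
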