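import Pool.Agent.W_2411c4_h59.Trans
import Pool.Agent.W_2411c4_h59.Family

/-! Cuts: submodularity, connected sides of best separators. -/

set_option autoImplicit false

namespace Pool.Agent.W2411c4

variable {Q : Type}

open Gr

theorem d_eq_sum (G : Gr Q) (X : Finset ℕ) : G.d X = ∑ e ∈ G.E, if G.Cross X e then 1 else 0 := by
  unfold Gr.d Gr.bd
  rw [Finset.card_filter]

theorem d_sub (G : Gr Q) (A B : Finset ℕ) : G.d (A ∩ B) + G.d (A ∪ B) ≤ G.d A + G.d B := by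
  classical
  simp only [d_eq_sum, ← Finset.sum_add_distrib]
  apply Finset.sum_le_sum
  intro e _
  unfold Gr.Cross
  simp only [Finset.mem_inter, Finset.mem_union]
  by_cases h1 : G.a e ∈ A <;> by_cases h2 : G.a e ∈ B <;> by_cases h3 : G.b e ∈ A <;>
    by_cases h4 : G.b e ∈ B <;> simp [h1, h2, h3, h4]

theorem d_pos (G : Gr Q) (A B : Finset ℕ) : G.d (A \ B) + G.d (B \ A) ≤ G.d A + G.d B := by
  classical
  simp only [d_eq_sum, ← Finset.sum_add_distrib]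
  apply Finset.sum_le_sum
  intro e _
  unfold Gr.Cross
  simp only [Finset.mem_sdiff]
  by_cases h1 : G.a e ∈ A <;> by_cases h2 : G.a e ∈ B <;> by_cases h3 : G.b e ∈ A <;>
    by_cases h4 : G.b e ∈ B <;> simp [h1, h2, h3, h4]

/-- no edge leaves `V0` -/
def Closed (G : Gr Q) (V0 : Finset ℕ) : Prop := ∀ e ∈ G.E, G.a e ∈ V0 ↔ G.b e ∈ V0

theorem d_compl {G : Gr Q} {V0 : Finset ℕ} (hV : Closed G V0) {Z : Finset ℕ} (hZ : Z ⊆ V0) :
    G.d (V0 \ Z) = G.d Z := by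
  classical
  unfold Gr.d Gr.bd
  congr 1
  apply Finset.filter_congr
  intro e he
  have h := hV e he
  unfold Gr.Cross
  simp only [Finset.mem_sdiff]
  by_cases h1 : G.a e ∈ V0
  · have h2 := h.1 h1
    simp only [h1, h2]
    tauto
  · have h2 : G.b e ∉ V0 := fun h' => h1 (h.2 h')
    have h3 : G.a e ∉ Z := fun h' => h1 (hZ h')
    have h4 : G.b e ∉ Z := fun h' => h2 (hZ h')
    simp only [h1, h2, h3, h4]
    tauto

/-- the edges inside `X` -/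
def inE (G : Gr Q) (X : Finset ℕ) : Set ℕ := {e | e ∈ G.E ∧ G.Inner X e}

/-- `X` induces a connected subgraph -/
def ConnOn (G : Gr Q) (X : Finset ℕ) : Prop := ∀ x ∈ X, ∀ y ∈ X, G.Conn (inE G X) x y

theorem conn_cross {G : Gr Q} {F : Set ℕ} {u v : ℕ} (h : G.Conn F u v) {Z : Finset ℕ} (hu : u ∈ Z)
    (hv : v ∉ Z) : ∃ f ∈ F, G.Cross Z f := by
  induction h with
  | refl => exact absurd hu hv
  | @tail b c _ hbc ih =>
    by_cases hb : b ∈ Z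
    · obtain ⟨f, hf, ⟨rfl, rfl⟩ | ⟨rfl, rfl⟩⟩ := hbc
      · exact ⟨f, hf, Or.inl ⟨hb, hv⟩⟩
      · exact ⟨f, hf, Or.inr ⟨hv, hb⟩⟩
    · exact ih hb

theorem d_pos_of_conn {G : Gr Q} {V0 : Finset ℕ} (hV : ConnOn G V0) {Z : Finset ℕ} (hZ : Z ⊆ V0)
    {u v : ℕ} (hu : u ∈ Z) (hv : v ∉ Z) (hvV : v ∈ V0) : 0 < G.d Z := by
  obtain ⟨f, hf, hc⟩ := conn_cross (hV u (hZ hu) v hvV) hu hv
  exact Finset.card_pos.2 ⟨f, G.mem_bd.2 ⟨hf.1, hc⟩⟩

theorem conn_side {G : Gr Q} {V0 : Finset ℕ} (hV : ConnOn G V0) {L : Finset ℕ} {x y : ℕ}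
    (hL : Mn V0 G.d x y L) (hx : x ∈ L) (hy : y ∉ L) : ConnOn G L := by
  classical
  obtain ⟨hLV, hLs, hLm⟩ := hL
  let L1 : Finset ℕ := L.filter fun z => G.Conn (inE G L) x z
  have hmem : ∀ z, z ∈ L1 ↔ z ∈ L ∧ G.Conn (inE G L) x z := fun z => by simp [L1]
  have hL1 : L1 ⊆ L := Finset.filter_subset _ _
  have hx1 : x ∈ L1 := (hmem x).2 ⟨hx, Conn.refl⟩
  -- no edges between `L1` and `L \ L1`
  have hno : ∀ e ∈ G.E, G.Inner L e → (G.a e ∈ L1 ↔ G.b e ∈ L1) := by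
    intro e he hi
    rw [hmem, hmem]
    constructor
    · rintro ⟨_, h⟩
      exact ⟨hi.2, h.trans (conn_edge (e := e) ⟨he, hi⟩ (Or.inl rfl) (Or.inr rfl))⟩
    · rintro ⟨_, h⟩
      exact ⟨hi.1, h.trans (conn_edge (e := e) ⟨he, hi⟩ (Or.inr rfl) (Or.inl rfl))⟩
  have hsum : G.d L1 + G.d (L \ L1) ≤ G.d L := by
    simp only [d_eq_sum, ← Finset.sum_add_distrib]
    apply Finset.sum_le_sum
    intro e he
    have h := hno e he
    unfold Gr.Cross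
    simp only [Finset.mem_sdiff]
    by_cases h1 : G.a e ∈ L <;> by_cases h2 : G.b e ∈ L
    · have h3 := h ⟨h1, h2⟩
      by_cases h4 : G.a e ∈ L1
      · have h5 := h3.1 h4
        simp [h4, h5]
      · have h5 : G.b e ∉ L1 := fun h' => h4 (h3.2 h')
        simp [h1, h2, h4, h5]
    · have h3 : G.b e ∉ L1 := fun h' => h2 (hL1 h')
      by_cases h4 : G.a e ∈ L1 <;> simp [h1, h2, h3, h4]
    · have h3 : G.a e ∉ L1 := fun h' => h1 (hL1 h')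
      by_cases h4 : G.b e ∈ L1 <;> simp [h1, h2, h3, h4]
    · have h3 : G.a e ∉ L1 := fun h' => h1 (hL1 h')
      have h4 : G.b e ∉ L1 := fun h' => h2 (hL1 h')
      simp [h1, h2, h3, h4]
  have h1 := hLm L1 (hL1.trans hLV) (Or.inl ⟨hx1, fun h => hy (hL1 h)⟩)
  have hall : ∀ z ∈ L, G.Conn (inE G L) x z := by
    intro z hz
    by_contra hcon
    have hz1 : z ∈ L \ L1 := Finset.mem_sdiff.2 ⟨hz, fun h => hcon ((hmem z).1 h).2⟩
    have h2 := d_pos_of_conn hV (Finset.sdiff_subset.trans hLV) hz1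
      (fun h => (Finset.mem_sdiff.1 h).2 hx1) (hLV hx)
    omega
  intro u hu v hv
  exact (hall u hu).symm.trans (hall v hv)

theorem Mn.compl {G : Gr Q} {V0 : Finset ℕ} (hc : Closed G V0) {L : Finset ℕ} {x y : ℕ}
    (hx : x ∈ V0) (hy : y ∈ V0) (hL : Mn V0 G.d x y L) : Mn V0 G.d x y (V0 \ L) := by
  refine ⟨Finset.sdiff_subset, ?_, ?_⟩
  · rcases hL.2.1 with h | h
    · exact Or.inr ⟨Finset.mem_sdiff.2 ⟨hy, h.2⟩, fun h' => (Finset.mem_sdiff.1 h').2 h.1⟩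
    · exact Or.inl ⟨Finset.mem_sdiff.2 ⟨hx, h.2⟩, fun h' => (Finset.mem_sdiff.1 h').2 h.1⟩
  · rw [d_compl hc hL.1]
    exact hL.2.2

/-- both sides of a best separator are connected -/
theorem conn_sides {G : Gr Q} {V0 : Finset ℕ} (hV : ConnOn G V0) (hc : Closed G V0)
    {L : Finset ℕ} (hL : Crit V0 G.d L) : ConnOn G L ∧ ConnOn G (V0 \ L) ∧ 0 < G.d L := by
  obtain ⟨x, hx, y, hy, hM⟩ := hL
  have hcp := hM.compl hc hx hy
  rcases hM.2.1 with ⟨h1, h2⟩ | ⟨h1, h2⟩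
  · refine ⟨conn_side hV hM h1 h2, ?_, d_pos_of_conn hV hM.1 h1 h2 hy⟩
    exact conn_side hV hcp.symm (Finset.mem_sdiff.2 ⟨hy, h2⟩) (fun h => (Finset.mem_sdiff.1 h).2 h1)
  · refine ⟨conn_side hV hM.symm h1 h2, ?_, d_pos_of_conn hV hM.1 h1 h2 hx⟩
    exact conn_side hV hcp (Finset.mem_sdiff.2 ⟨hx, h2⟩) (fun h => (Finset.mem_sdiff.1 h).2 h1)

/-- the colouring `c` is constant on cycles: edges between two disjoint connected sets have the same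
colour -/
def Mono (G : Gr Q) (c : ℕ → ℕ) : Prop := ∀ L M : Finset ℕ, Disjoint L M → ConnOn G L → ConnOn G M →
  ∀ e ∈ G.E, ∀ f ∈ G.E, ((G.a e ∈ L ∧ G.b e ∈ M) ∨ (G.a e ∈ M ∧ G.b e ∈ L)) →
    ((G.a f ∈ L ∧ G.b f ∈ M) ∨ (G.a f ∈ M ∧ G.b f ∈ L)) → c e = c f

/-- each colour is used at most `k` times -/
def ColB (G : Gr Q) (c : ℕ → ℕ) (k : ℕ) : Prop := ∀ e ∈ G.E, (G.E.filter fun f => c f = c e).card ≤ k

theorem bd_mono {G : Gr Q} {c : ℕ → ℕ} (hm : Mono G c) {V0 : Finset ℕ} (hV : ConnOn G V0)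
    (hc : Closed G V0) {L : Finset ℕ} (hL : Crit V0 G.d L) : ∀ e ∈ G.bd L, ∀ f ∈ G.bd L, c e = c f := by
  obtain ⟨h1, h2, _⟩ := conn_sides hV hc hL
  have hLV : L ⊆ V0 := by
    obtain ⟨x, hx, y, hy, hM⟩ := hL
    exact hM.1
  have key : ∀ e ∈ G.bd L, e ∈ G.E ∧
      ((G.a e ∈ L ∧ G.b e ∈ V0 \ L) ∨ (G.a e ∈ V0 \ L ∧ G.b e ∈ L)) := by
    intro e he
    obtain ⟨heE, hcr⟩ := G.mem_bd.1 he
    have h := hc e heE
    refine ⟨heE, ?_⟩
    simp only [Finset.mem_sdiff]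
    rcases hcr with ⟨h3, h4⟩ | ⟨h3, h4⟩
    · exact Or.inl ⟨h3, h.1 (hLV h3), h4⟩
    · exact Or.inr ⟨⟨h.2 (hLV h4), h3⟩, h4⟩
  intro e he f hf
  obtain ⟨he1, he2⟩ := key e he
  obtain ⟨hf1, hf2⟩ := key f hf
  exact hm L (V0 \ L) Finset.disjoint_sdiff h1 h2 e he1 f hf1 he2 hf2

theorem d_le_of_mono {G : Gr Q} {c : ℕ → ℕ} {k : ℕ} (hk : ColB G c k) {L : Finset ℕ}
    (h : ∀ e ∈ G.bd L, ∀ f ∈ G.bd L, c e = c f) : G.d L ≤ k := by
  classical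
  rcases (G.bd L).eq_empty_or_nonempty with h0 | ⟨e, he⟩
  · unfold Gr.d
    rw [h0]
    exact Nat.zero_le _
  · refine le_trans (Finset.card_le_card ?_) (hk e (G.mem_bd.1 he).1)
    intro f hf
    exact Finset.mem_filter.2 ⟨(G.mem_bd.1 hf).1, h f hf e he⟩

end Pool.Agent.W2411c4
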