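import Mathlib

/-! Definitions for the hand-in: graphs, strong immersions, rooted tree-cut decompositions. -/

set_option autoImplicit false

namespace Pool.Agent.W2411c4

/-- A finite graph without loops; parallel edges are allowed. -/
structure MGraph where
  /-- the vertices -/
  V : Type
  /-- the edges -/
  E : Type
  finV : Finite V
  finE : Finite E
  /-- the unordered pair of ends of an edge -/
  ends : E → Sym2 V
  loopless : ∀ e, ¬ (ends e).IsDiag

/-- Walks of a graph. -/
inductive Walk (G : MGraph) : G.V → G.V → Type
  /-- the walk without edges -/
  | nil (v : G.V) : Walk G v v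
  /-- an edge `e` with ends `u` and `v` followed by a walk from `v` to `w` -/
  | cons {u v w : G.V} (e : G.E) (h : G.ends e = s(u, v)) (p : Walk G v w) : Walk G u w

/-- The vertices of a walk, in order. -/
def Walk.verts {G : MGraph} : {u v : G.V} → Walk G u v → List G.V
  | _, _, Walk.nil v => [v]
  | _, _, @Walk.cons _ u _ _ _ _ p => u :: p.verts

/-- The edges of a walk, in order. -/
def Walk.edges {G : MGraph} : {u v : G.V} → Walk G u v → List G.E
  | _, _, Walk.nil _ => []
  | _, _, Walk.cons e _ p => e :: p.edges

/-- A strong immersion of `H` in `G`: distinct vertices go to distinct vertices; the edge `e` goes to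
a walk without repeated vertices that joins the images of the ends of `e`; the paths of different
edges have no common edge; and the image of a vertex `v` is on the path of `e` only if `v` is an end
of `e`. -/
structure StrongImmersion (H G : MGraph) where
  /-- the image of a vertex -/
  η : H.V → G.V
  inj : Function.Injective η
  /-- first vertex of the path of an edge -/
  src : H.E → G.V
  /-- last vertex of the path of an edge -/
  dst : H.E → G.V
  /-- the path of an edge -/
  path : ∀ e, Walk G (src e) (dst e)
  ends_eq : ∀ e, s(src e, dst e) = (H.ends e).map η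
  isPath : ∀ e, (path e).verts.Nodup
  disj : ∀ e f, e ≠ f → ∀ g, g ∈ (path e).edges → g ∉ (path f).edges
  strong : ∀ e v, v ∉ H.ends e → η v ∉ (path e).verts

/-- A finite rooted tree, given by the parent of each node. -/
structure RootedTree where
  /-- the nodes -/
  T : Type
  finT : Finite T
  /-- the root -/
  root : T
  /-- the parent of a node (of the root: the root) -/
  par : T → T
  par_root : par root = root
  reach : ∀ t, ∃ n, par^[n] t = root

/-- `s` is `t` or a descendant of `t`. -/
def RootedTree.Below (R : RootedTree) (t s : R.T) : Prop := ∃ n, R.par^[n] s = t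

/-- `c` is a child of `t`. -/
def RootedTree.Child (R : RootedTree) (t c : R.T) : Prop := c ≠ R.root ∧ R.par c = t

/-- The edges of `G - A` with exactly one end in `S`. -/
def cut (G : MGraph) (A S : Set G.V) : Set G.E :=
  {e | (∀ v ∈ G.ends e, v ∉ A) ∧ ∃ u v, G.ends e = s(u, v) ∧ u ∈ S ∧ v ∉ S}

/-- The vertices of `G - A` that a map `f` to the nodes puts at `t` or below `t`. -/
def side (G : MGraph) (A : Set G.V) (R : RootedTree) (f : G.V → R.T) (t : R.T) : Set G.V :=
  {v | v ∉ A ∧ R.Below t (f v)}

/-- `G - A` has a rooted tree-cut decomposition in which each link of the tree displays a cut of at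
most `K` edges, each bag has at most `N` vertices, and each node has at most `N` children whose cut
has three or more edges, not all of them leading to the bag of the node. -/
def TreeCut (K N : ℕ) (G : MGraph) (A : Set G.V) : Prop :=
  ∃ (R : RootedTree) (f : G.V → R.T),
    (∀ t, (cut G A (side G A R f t)).ncard ≤ K) ∧
    (∀ t, {v | v ∉ A ∧ f v = t}.ncard ≤ N) ∧
    ∀ t, {c | R.Child t c ∧ 3 ≤ (cut G A (side G A R f c)).ncard ∧
      ∃ e ∈ cut G A (side G A R f c), ∃ v ∈ G.ends e, v ∉ side G A R f c ∧ f v ≠ t}.ncard ≤ N

end Pool.Agent.W2411c4
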