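import Pool.Agent.W_2411c4_h59.Pwo
import Pool.Agent.W_2411c4_h59.Cut

/-! The structure of a node: its kids are grouped by the colour of their boundary. -/

set_option autoImplicit false

open Set

namespace Pool.Agent.W2411c4

variable {Q : Type}

open Gr

/-- empty pieces -/
def Emp (Q : Type) : Set (Pc Q) := {P | P.X = ∅}

theorem emp_n {P : Pc Q} (h : P.X = ∅) : P.n = 0 := by
  have h1 := P.en.n_eq
  have h2 : P.G.d P.X = 0 := by
    rw [h]
    unfold Gr.d Gr.bd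
    rw [Finset.card_eq_zero, Finset.filter_eq_empty_iff]
    intro e _ hc
    unfold Gr.Cross at hc
    simp at hc
  exact h1.trans h2

theorem emp_rp [Preorder Q] {P P' : Pc Q} (h : P.X = ∅) (h' : P'.X = ∅) : Rp P P' := by
  have hn := emp_n h
  have hn' := emp_n h'
  have hX : ∀ x, x ∉ P.X := fun x => by rw [h]; exact Finset.notMem_empty x
  refine ⟨id, fun _ => ∅, ?_⟩
  constructor
  · rw [hn, hn']
  · exact fun x hx => absurd hx (hX x)
  · exact fun x hx => absurd hx (hX x)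
  · exact fun x hx => absurd hx (hX x)
  · exact fun e _ hi => absurd hi.1 (hX _)
  · exact fun i hi => absurd hi (by rw [hn]; exact Nat.not_lt_zero i)
  · exact fun i hi => absurd hi (by rw [hn]; exact Nat.not_lt_zero i)
  · exact fun e _ hi => absurd hi.1 (hX _)
  · exact fun i hi => absurd hi (by rw [hn]; exact Nat.not_lt_zero i)
  · intro e _ f _ ht
    rcases ht with ht | ht
    · exact absurd ht (hX _)
    · exact absurd ht (hX _)
  · intro e _ ht
    rcases ht with ht | ht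
    · exact absurd ht (hX _)
    · exact absurd ht (hX _)

theorem emp_pwo [Preorder Q] : (Emp Q).PartiallyWellOrderedOn Rp := by
  rw [partiallyWellOrderedOn_iff_exists_lt]
  intro f hf
  exact ⟨0, 1, Nat.zero_lt_one, emp_rp (hf 0) (hf 1)⟩

/-- maximal members strictly inside `X` -/
def IsKid (F : Finset (Finset ℕ)) (X Y : Finset ℕ) : Prop :=
  Y ∈ F ∧ Y ⊂ X ∧ ∀ M ∈ F, Y ⊆ M → M ⊂ X → M = Y

theorem exists_kid {F : Finset (Finset ℕ)} {X M : Finset ℕ} (hM : M ∈ F) (hMX : M ⊂ X) :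
    ∃ Y, IsKid F X Y ∧ M ⊆ Y := by
  classical
  obtain ⟨Y, hY, hmax⟩ := Finset.exists_max_image (F.filter fun Y => M ⊆ Y ∧ Y ⊂ X)
    (fun Y => Y.card) ⟨M, Finset.mem_filter.2 ⟨hM, Finset.Subset.refl _, hMX⟩⟩
  obtain ⟨hYF, hMY, hYX⟩ := Finset.mem_filter.1 hY
  refine ⟨Y, ⟨hYF, hYX, ?_⟩, hMY⟩
  intro M' hM' hYM' hM'X
  have h1 := hmax M' (Finset.mem_filter.2 ⟨hM', hMY.trans hYM', hM'X⟩)
  exact (Finset.eq_of_subset_of_card_le hYM' h1).symm

/-- enumeration of at most `N` pairwise disjoint sets -/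
theorem exists_enum (S : Finset (Finset ℕ)) (N : ℕ) (hN : S.card ≤ N)
    (hd : ∀ A ∈ S, ∀ B ∈ S, A ≠ B → Disjoint A B) :
    ∃ g : Fin N → Finset ℕ, (∀ j, g j ∈ S ∨ g j = ∅) ∧ (∀ Y ∈ S, ∃ j, g j = Y) ∧
      ∀ i j, i ≠ j → Disjoint (g i) (g j) := by
  classical
  let g : Fin N → Finset ℕ := fun j => if h : j.1 < S.card then (S.equivFin.symm ⟨j.1, h⟩).1 else ∅
  refine ⟨g, ?_, ?_, ?_⟩
  · intro j
    by_cases h : j.1 < S.card
    · left
      simp only [g, dif_pos h]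
      exact (S.equivFin.symm ⟨j.1, h⟩).2
    · right
      simp only [g, dif_neg h]
  · intro Y hY
    have h := (S.equivFin ⟨Y, hY⟩).2
    refine ⟨⟨(S.equivFin ⟨Y, hY⟩).1, h.trans_le hN⟩, ?_⟩
    simp only [g, dif_pos h, Fin.eta, Equiv.symm_apply_apply]
  · intro i j hij
    by_cases h : i.1 < S.card
    · by_cases h' : j.1 < S.card
      · simp only [g, dif_pos h, dif_pos h']
        apply hd _ (S.equivFin.symm ⟨i.1, h⟩).2 _ (S.equivFin.symm ⟨j.1, h'⟩).2
        intro he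
        have h1 := S.equivFin.symm.injective (Subtype.ext he)
        exact hij (Fin.ext (by simpa using h1))
      · simp only [g, dif_neg h']
        exact Finset.disjoint_empty_right _
    · simp only [g, dif_neg h]
      exact Finset.disjoint_empty_left _

theorem node_mem [Preorder Q] {G : Gr Q} {c : ℕ → ℕ} {k : ℕ} {V0 : Finset ℕ} {r : ℕ}
    {F : Finset (Finset ℕ)} {X : Finset ℕ} (mono : Mono G c) (col : ColB G c k)
    (closed : Closed G V0) (conn : ConnOn G V0) (fam : LF V0 G.d r F)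
    (sep : ∀ u ∈ V0, ∀ v ∈ V0, u ≠ v → ∃ M ∈ F, Mn V0 G.d u v M) (hX : X = V0 ∨ X ∈ F)
    (en : En G X) (hen : en.n ≤ k) (W : Set (Pc Q))
    (hkid : ∀ Y, IsKid F X Y → ∃ eY : En G Y, (⟨G, Y, eY⟩ : Pc Q) ∈ W) :
    (⟨G, X, en⟩ : Pc Q) ∈ HubP k (UnP (2 * k) k (W ∪ Emp Q)) := by
  classical
  -- facts on members of `F`
  have hFV : ∀ Y ∈ F, Y ⊆ V0 := by
    intro Y hY
    obtain ⟨x, _, y, _, hM⟩ := fam.crit Y hY
    exact hM.1
  have hFm : ∀ Y ∈ F, ∀ e ∈ G.bd Y, ∀ f ∈ G.bd Y, c e = c f := fun Y hY =>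
    bd_mono mono conn closed (fam.crit Y hY)
  have hFk : ∀ Y ∈ F, G.d Y ≤ k := fun Y hY => d_le_of_mono col (hFm Y hY)
  have hFne : ∀ Y ∈ F, (G.bd Y).Nonempty := fun Y hY =>
    Finset.card_pos.1 (conn_sides conn closed (fam.crit Y hY)).2.2
  have hXV : X ⊆ V0 := by
    rcases hX with h | h
    · exact h.subset
    · exact hFV X h
  -- the kids
  let KS : Finset (Finset ℕ) := F.filter fun Y => IsKid F X Y
  have hKS : ∀ Y, Y ∈ KS ↔ IsKid F X Y := by
    intro Y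
    simp only [KS, Finset.mem_filter]
    exact ⟨fun h => h.2, fun h => ⟨h.1, h⟩⟩
  have hdis : ∀ A ∈ KS, ∀ B ∈ KS, A ≠ B → Disjoint A B := by
    intro A hA B hB hAB
    rw [hKS] at hA hB
    rcases fam.lam A hA.1 B hB.1 with h | h | h
    · exact absurd (hA.2.2 B hB.1 h hB.2.1).symm hAB
    · exact absurd (hB.2.2 A hA.1 h hA.2.1) hAB
    · exact h
  have huq : ∀ A ∈ KS, ∀ B ∈ KS, ∀ x, x ∈ A → x ∈ B → A = B := by
    intro A hA B hB x hxA hxB
    by_contra hAB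
    exact Finset.disjoint_left.1 (hdis A hA B hB hAB) hxA hxB
  -- colours of kids
  let kc : Finset ℕ → ℕ := fun Y => if h : (G.bd Y).Nonempty then c h.choose else 0
  have hkc : ∀ Y ∈ F, ∀ e ∈ G.bd Y, c e = kc Y := by
    intro Y hY e he
    have h := hFne Y hY
    simp only [kc, dif_pos h]
    exact hFm Y hY e he _ h.choose_spec
  have hkc' : ∀ Y ∈ KS, ∀ e ∈ G.bd Y, c e = kc Y := fun Y hY => hkc Y ((hKS Y).1 hY).1
  let C : Finset ℕ := KS.image kc
  let cl : Fin C.card → ℕ := fun i => (C.equivFin.symm i).1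
  have clinj : ∀ i j, cl i = cl j → i = j := fun i j h => C.equivFin.symm.injective (Subtype.ext h)
  have clsurj : ∀ Y ∈ KS, ∃ i, cl i = kc Y := by
    intro Y hY
    refine ⟨C.equivFin ⟨kc Y, Finset.mem_image_of_mem _ hY⟩, ?_⟩
    simp only [cl, Equiv.symm_apply_apply]
  let KG : Fin C.card → Finset (Finset ℕ) := fun i => KS.filter fun Y => kc Y = cl i
  have hKG : ∀ i Y, Y ∈ KG i ↔ Y ∈ KS ∧ kc Y = cl i := fun i Y => Finset.mem_filter
  let Xi : Fin C.card → Finset ℕ := fun i => (KG i).biUnion id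
  have hXi : ∀ i x, x ∈ Xi i ↔ ∃ Y, Y ∈ KG i ∧ x ∈ Y := by
    intro i x
    simp only [Xi, Finset.mem_biUnion, id]
  let H : Finset ℕ := X \ KS.biUnion id
  have hH : ∀ x, x ∈ H ↔ x ∈ X ∧ ∀ Y ∈ KS, x ∉ Y := by
    intro x
    simp only [H, Finset.mem_sdiff, Finset.mem_biUnion, id]
    push Not
    rfl
  have hSplit : Split X H Xi := by
    constructor
    · intro x
      rw [hH]
      constructor
      · intro hx
        by_cases h : ∃ Y ∈ KS, x ∈ Y
        · obtain ⟨Y, hY, hxY⟩ := h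
          obtain ⟨i, hi⟩ := clsurj Y hY
          exact Or.inr ⟨i, (hXi i x).2 ⟨Y, (hKG i Y).2 ⟨hY, hi.symm⟩, hxY⟩⟩
        · push Not at h
          exact Or.inl ⟨hx, h⟩
      · rintro (h | ⟨i, hi⟩)
        · exact h.1
        · obtain ⟨Y, hY, hxY⟩ := (hXi i x).1 hi
          exact ((hKS Y).1 ((hKG i Y).1 hY).1).2.1.subset hxY
    · intro i j hij
      rw [Finset.disjoint_left]
      intro x hxi hxj
      obtain ⟨Y, hY, hxY⟩ := (hXi i x).1 hxi
      obtain ⟨Y', hY', hxY'⟩ := (hXi j x).1 hxj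
      rw [hKG] at hY hY'
      have h1 := huq Y hY.1 Y' hY'.1 x hxY hxY'
      exact hij (clinj _ _ (by rw [← hY.2, ← hY'.2, h1]))
    · intro i
      rw [Finset.disjoint_left]
      intro x hxH hxi
      obtain ⟨Y, hY, hxY⟩ := (hXi i x).1 hxi
      exact ((hH x).1 hxH).2 Y ((hKG i Y).1 hY).1 hxY
  -- the hub
  have hHc : H.card ≤ 1 := by
    rw [Finset.card_le_one]
    intro u hu v hv
    by_contra huv
    have hu' := (hH u).1 hu
    have hv' := (hH v).1 hv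
    obtain ⟨M, hMF, hM⟩ := sep u (hXV hu'.1) v (hXV hv'.1) huv
    have hlam : Lam M X := by
      rcases hX with h | h
      · exact Or.inl (h ▸ hFV M hMF)
      · exact fam.lam M hMF X h
    obtain ⟨w, hwM, hwX, hwK⟩ : ∃ w ∈ M, w ∈ X ∧ ∀ Y ∈ KS, w ∉ Y := by
      rcases hM.2.1 with h | h
      · exact ⟨u, h.1, hu'⟩
      · exact ⟨v, h.1, hv'⟩
    have hnXM : ¬ X ⊆ M := by
      intro h
      rcases hM.2.1 with h' | h'
      · exact h'.2 (h hv'.1)
      · exact h'.2 (h hu'.1)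
    rcases hlam with h | h | h
    · obtain ⟨Y, hY, hMY⟩ := exists_kid hMF (Finset.ssubset_iff_subset_ne.2
        ⟨h, fun h' => hnXM h'.symm.subset⟩)
      exact hwK Y ((hKS Y).2 hY) (hMY hwM)
    · exact hnXM h
    · exact Finset.disjoint_left.1 h hwM hwX
  -- edges leaving a kid
  have hcr : ∀ Y Y' : Finset ℕ, Y ∈ KS → Y' ∈ KS → ∀ e ∈ G.E, G.Touch Y e → G.Touch Y' e →
      Y ≠ Y' → G.Cross Y e := by
    intro Y Y' hY hY' e _ h h' hne
    rcases touch_iff.1 h with h1 | h1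
    · exfalso
      obtain ⟨x, hx, hxY'⟩ := touch_end.1 h'
      exact hne (huq Y hY Y' hY' x (inner_end h1 hx) hxY')
    · exact h1
  have hsep : ∀ e ∈ G.E, ∀ i j, G.Touch (Xi i) e → G.Touch (Xi j) e → i = j := by
    intro e he i j hi hj
    obtain ⟨x, hx, hxi⟩ := touch_end.1 hi
    obtain ⟨y, hy, hyj⟩ := touch_end.1 hj
    obtain ⟨Y, hY, hxY⟩ := (hXi i x).1 hxi
    obtain ⟨Y', hY', hyY'⟩ := (hXi j y).1 hyj
    rw [hKG] at hY hY'
    by_cases hYY : Y = Y'
    · exact clinj _ _ (by rw [← hY.2, ← hY'.2, hYY])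
    · have h1 := hcr Y Y' hY.1 hY'.1 e he (touch_end.2 ⟨x, hx, hxY⟩) (touch_end.2 ⟨y, hy, hyY'⟩) hYY
      have h2 := hcr Y' Y hY'.1 hY.1 e he (touch_end.2 ⟨y, hy, hyY'⟩) (touch_end.2 ⟨x, hx, hxY⟩)
        (Ne.symm hYY)
      have h3 := hkc' Y hY.1 e (G.mem_bd.2 ⟨he, h1⟩)
      have h4 := hkc' Y' hY'.1 e (G.mem_bd.2 ⟨he, h2⟩)
      exact clinj _ _ (by rw [← hY.2, ← hY'.2, ← h3, ← h4])
  -- boundary of a group
  have hbg : ∀ i, ∀ e ∈ G.bd (Xi i), c e = cl i := by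
    intro i e he
    obtain ⟨heE, hc⟩ := G.mem_bd.1 he
    obtain ⟨x, hx, hxi⟩ := cross_end hc
    obtain ⟨Y, hY, hxY⟩ := (hXi i x).1 hxi
    have hYc : G.Cross Y e := by
      rcases touch_iff.1 (touch_end.2 ⟨x, hx, hxY⟩) with h1 | h1
      · exfalso
        apply hc.not_inner
        exact ⟨(hXi i _).2 ⟨Y, hY, h1.1⟩, (hXi i _).2 ⟨Y, hY, h1.2⟩⟩
      · exact h1
    rw [hKG] at hY
    rw [hkc' Y hY.1 e (G.mem_bd.2 ⟨heE, hYc⟩), hY.2]
  have hgk : ∀ i, G.d (Xi i) ≤ k := fun i =>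
    d_le_of_mono col fun e he f hf => by rw [hbg i e he, hbg i f hf]
  -- number of kids in a group
  have hgc : ∀ i, (KG i).card ≤ 2 * k := by
    intro i
    rcases (KG i).eq_empty_or_nonempty with h0 | ⟨Y0, hY0⟩
    · rw [h0, Finset.card_empty]
      exact Nat.zero_le _
    obtain ⟨e0, he0⟩ := hFne Y0 ((hKS Y0).1 ((hKG i Y0).1 hY0).1).1
    have hce0 : c e0 = cl i := by
      rw [hkc' Y0 ((hKG i Y0).1 hY0).1 e0 he0, ((hKG i Y0).1 hY0).2]
    let ec : Finset ℕ := G.E.filter fun f => c f = c e0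
    have hec : ec.card ≤ k := col e0 (G.mem_bd.1 he0).1
    let be : Finset ℕ → ℕ := fun Y => if h : (G.bd Y).Nonempty then h.choose else 0
    have hbe : ∀ Y ∈ KG i, be Y ∈ G.bd Y := by
      intro Y hY
      have h := hFne Y ((hKS Y).1 ((hKG i Y).1 hY).1).1
      simp only [be, dif_pos h]
      exact h.choose_spec
    let ψ : Finset ℕ → ℕ × Bool := fun Y => (be Y, decide (G.a (be Y) ∈ Y))
    have hψm : ∀ Y ∈ KG i, ψ Y ∈ ec ×ˢ (Finset.univ : Finset Bool) := by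
      intro Y hY
      rw [Finset.mem_product]
      refine ⟨Finset.mem_filter.2 ⟨(G.mem_bd.1 (hbe Y hY)).1, ?_⟩, Finset.mem_univ _⟩
      rw [hce0]
      show c (be Y) = cl i
      rw [hkc' Y ((hKG i Y).1 hY).1 _ (hbe Y hY), ((hKG i Y).1 hY).2]
    have hψi : ∀ Y ∈ KG i, ∀ Y' ∈ KG i, ψ Y = ψ Y' → Y = Y' := by
      intro Y hY Y' hY' h
      simp only [ψ, Prod.mk.injEq, decide_eq_decide] at h
      obtain ⟨h1, h2⟩ := h
      have h3 := (G.mem_bd.1 (hbe Y hY)).2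
      have h4 := (G.mem_bd.1 (hbe Y' hY')).2
      rw [← h1] at h4 h2
      rcases h3 with h3 | h3
      · exact huq Y ((hKG i Y).1 hY).1 Y' ((hKG i Y').1 hY').1 _ h3.1 (h2.1 h3.1)
      · have h5 : G.a (be Y) ∉ Y' := fun h => h3.1 (h2.2 h)
        rcases h4 with h4 | h4
        · exact absurd h4.1 h5
        · exact huq Y ((hKG i Y).1 hY).1 Y' ((hKG i Y').1 hY').1 _ h3.2 h4.2
    have h1 : (KG i).card ≤ (ec ×ˢ (Finset.univ : Finset Bool)).card :=
      Finset.card_le_card_of_injOn ψ hψm (fun Y hY Y' hY' h => hψi Y hY Y' hY' h)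
    rw [Finset.card_product, Finset.card_univ, Fintype.card_bool] at h1
    omega
  refine ⟨hen, C.card, Xi, fun i => mkEn G (Xi i), H, hSplit, hHc, ?_, hsep⟩
  intro i
  refine ⟨⟨?_, ?_⟩, ?_⟩
  · show (mkEn G (Xi i)).n ≤ k
    rw [En.n_eq]
    exact hgk i
  · obtain ⟨g, hg1, hg2, hg3⟩ := exists_enum (KG i) (2 * k) (hgc i) (by
      intro A hA B hB
      exact hdis A ((hKG i A).1 hA).1 B ((hKG i B).1 hB).1)
    have hex : ∀ j, ∃ e : En G (g j), (⟨G, g j, e⟩ : Pc Q) ∈ W ∪ Emp Q := by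
      intro j
      rcases hg1 j with h | h
      · obtain ⟨eY, heY⟩ := hkid (g j) ((hKS _).1 ((hKG i _).1 h).1)
        exact ⟨eY, Or.inl heY⟩
      · exact ⟨mkEn G (g j), Or.inr h⟩
    choose eg heg using hex
    refine ⟨g, eg, ⟨?_, hg3, fun j => Finset.disjoint_empty_left _⟩, ?_⟩
    · intro x
      show x ∈ Xi i ↔ _
      rw [hXi]
      constructor
      · rintro ⟨Y, hY, hxY⟩
        obtain ⟨j, hj⟩ := hg2 Y hY
        exact Or.inr ⟨j, hj ▸ hxY⟩
      · rintro (h | ⟨j, hj⟩)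
        · exact absurd h (Finset.notMem_empty _)
        · rcases hg1 j with h | h
          · exact ⟨g j, h, hj⟩
          · rw [h] at hj
            exact absurd hj (Finset.notMem_empty _)
    · intro j
      refine ⟨heg j, ?_⟩
      rcases hg1 j with h | h
      · rw [En.n_eq]
        exact hFk _ ((hKS _).1 ((hKG i _).1 h).1).1
      · have := emp_n (P := ⟨G, g j, eg j⟩) h
        show (eg j).n ≤ k
        have h2 : (eg j).n = 0 := this
        rw [h2]
        exact Nat.zero_le _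
  · show (mkEn G (Xi i)).n ≤ k
    rw [En.n_eq]
    exact hgk i

end Pool.Agent.W2411c4
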