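import Pool.Agent.W_2411c4_h59.Cut
import Pool.Agent.W_2411c4_h59.Node

/-! The exchange operation on laminar families. -/

set_option autoImplicit false

namespace Pool.Agent.W2411c4

variable {Q : Type}

open Gr

open Classical in
/-- the bag of `X`: the vertices of `X` in no smaller member -/
noncomputable def Bag (F : Finset (Finset ℕ)) (X : Finset ℕ) : Finset ℕ :=
  X.filter fun v => ∀ N ∈ F, N ⊂ X → v ∉ N

theorem mem_bag {F : Finset (Finset ℕ)} {X : Finset ℕ} {v : ℕ} :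
    v ∈ Bag F X ↔ v ∈ X ∧ ∀ N ∈ F, N ⊂ X → v ∉ N := by
  classical
  simp [Bag]

/-- all edges at `C` stay in `C` and the bag of `X` -/
def Priv (G : Gr Q) (F : Finset (Finset ℕ)) (X C : Finset ℕ) : Prop :=
  ∀ e ∈ G.E, G.Touch C e → ∀ z, G.Inc e z → z ∈ C ∨ z ∈ Bag F X

open Classical in
/-- the kids that are not private -/
noncomputable def NP (G : Gr Q) (F : Finset (Finset ℕ)) (X : Finset ℕ) : Finset (Finset ℕ) :=
  F.filter fun C => IsKid F X C ∧ ¬ Priv G F X C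

theorem mem_np {G : Gr Q} {F : Finset (Finset ℕ)} {X C : Finset ℕ} :
    C ∈ NP G F X ↔ IsKid F X C ∧ ¬ Priv G F X C := by
  classical
  simp only [NP, Finset.mem_filter]
  exact ⟨fun h => h.2, fun h => ⟨h.1.1, h⟩⟩

/-- valid families -/
structure Val (G : Gr Q) (V0 : Finset ℕ) (K N : ℕ) (F : Finset (Finset ℕ)) : Prop where
  top : V0 ∈ F
  ne : ∀ M ∈ F, M.Nonempty
  sub : ∀ M ∈ F, M ⊆ V0
  lam : ∀ A ∈ F, ∀ B ∈ F, Lam A B
  ord : ∀ M ∈ F, G.d M ≤ K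
  nd : ∀ X ∈ F, (NP G F X).card + (K + 1) * (Bag F X).card ≤ N

theorem lam_sub {F : Finset (Finset ℕ)} (hl : ∀ A ∈ F, ∀ B ∈ F, Lam A B) {A B : Finset ℕ}
    (hA : A ∈ F) (hB : B ∈ F) {x : ℕ} (hx : x ∈ A) (hx' : x ∈ B) : A ⊆ B ∨ B ⊆ A := by
  rcases hl A hA B hB with h | h | h
  · exact Or.inl h
  · exact Or.inr h
  · exact absurd hx' (Finset.disjoint_left.1 h hx)

theorem kid_eq {F : Finset (Finset ℕ)} (hl : ∀ A ∈ F, ∀ B ∈ F, Lam A B) {X A B : Finset ℕ}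
    (hA : IsKid F X A) (hB : IsKid F X B) {x : ℕ} (hx : x ∈ A) (hx' : x ∈ B) : A = B := by
  rcases lam_sub hl hA.1 hB.1 hx hx' with h | h
  · exact (hA.2.2 B hB.1 h hB.2.1).symm
  · exact hB.2.2 A hA.1 h hA.2.1

theorem kid_not_bag {F : Finset (Finset ℕ)} {X A : Finset ℕ} (hA : IsKid F X A) {x : ℕ}
    (hx : x ∈ A) : x ∉ Bag F X := fun h => (mem_bag.1 h).2 A hA.1 hA.2.1 hx

/-- an edge touches at most one private kid -/
theorem priv_uniq {G : Gr Q} {F : Finset (Finset ℕ)} (hl : ∀ A ∈ F, ∀ B ∈ F, Lam A B)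
    {X A B : Finset ℕ} (hA : IsKid F X A) (hB : IsKid F X B) (hPA : Priv G F X A) {e : ℕ}
    (he : e ∈ G.E) (htA : G.Touch A e) (htB : G.Touch B e) : A = B := by
  obtain ⟨y, hy, hyB⟩ := touch_end.1 htB
  rcases hPA e he htA y hy with h | h
  · exact kid_eq hl hA hB h hyB
  · exact absurd h (kid_not_bag hB hyB)

/-- counting -/
theorem np_count {G G' : Gr Q} {F F' : Finset (Finset ℕ)} {M W : Finset ℕ} (τ : Finset ℕ → Finset ℕ)
    (hτ : ∀ C ∈ NP G' F' W, ∃ N, IsKid F M N ∧ τ N = C) (B : Finset (Finset ℕ))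
    (hB : ∀ N, IsKid F M N → Priv G F M N → τ N ∈ NP G' F' W → N ∈ B) :
    (NP G' F' W).card ≤ (NP G F M).card + B.card := by
  classical
  have h1 : NP G' F' W ⊆ (NP G F M ∪ B).image τ := by
    intro C hC
    obtain ⟨N, hN, rfl⟩ := hτ C hC
    refine Finset.mem_image_of_mem _ (Finset.mem_union.2 ?_)
    by_cases hp : Priv G F M N
    · exact Or.inr (hB N hN hp hC)
    · exact Or.inl (mem_np.2 ⟨hN, hp⟩)
  exact (Finset.card_le_card h1).trans (Finset.card_image_le.trans (Finset.card_union_le _ _))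

/-- the number of private kids touched by an edge of a small set -/
theorem bad_count {G : Gr Q} {F : Finset (Finset ℕ)} (hl : ∀ A ∈ F, ∀ B ∈ F, Lam A B)
    {M : Finset ℕ} (D : Finset ℕ) (hD : ∀ e ∈ D, e ∈ G.E) (B : Finset (Finset ℕ))
    (hB : ∀ N ∈ B, IsKid F M N ∧ Priv G F M N ∧ ∃ e ∈ D, G.Touch N e) : B.card ≤ D.card := by
  classical
  have h : ∀ N, ∃ e, N ∈ B → e ∈ D ∧ G.Touch N e := by
    intro N
    by_cases hN : N ∈ B
    · obtain ⟨_, _, e, he, ht⟩ := hB N hN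
      exact ⟨e, fun _ => ⟨he, ht⟩⟩
    · exact ⟨0, fun h => absurd h hN⟩
  choose g hg using h
  refine Finset.card_le_card_of_injOn g (fun N hN => (hg N hN).1) ?_
  intro N hN N' hN' hNN
  obtain ⟨h1, h2, _⟩ := hB N hN
  obtain ⟨h3, _, _⟩ := hB N' hN'
  have h4 := hg N hN
  have h5 := hg N' hN'
  rw [← hNN] at h5
  exact priv_uniq hl h1 h3 h2 (hD _ h4.1) h4.2 h5.2

open Classical in
/-- number of members crossing `W` -/
noncomputable def crn (F : Finset (Finset ℕ)) (W : Finset ℕ) : ℕ := (F.filter fun M => ¬ Lam M W).card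

/-- the exchange situation -/
structure Exs (G : Gr Q) (V0 : Finset ℕ) (K N : ℕ) (F : Finset (Finset ℕ)) (Y X Z : Finset ℕ) :
    Prop where
  val : Val G V0 K N F
  hY : Y ∈ F
  hX : X ∈ F
  hYZ : Y ⊆ Z
  hZX : Z ⊆ X
  low : ∀ M ∈ F, Y ⊆ M → M ⊆ X → G.d Z < G.d M
  min : ∀ W, Y ⊆ W → W ⊆ X → G.d Z ≤ G.d W
  cr : ∀ W, Y ⊆ W → W ⊆ X → G.d W ≤ G.d Z → crn F Z ≤ crn F W

theorem crn_lt {F : Finset (Finset ℕ)} (hl : ∀ A ∈ F, ∀ B ∈ F, Lam A B) {Z L C : Finset ℕ}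
    (hL : L ∈ F) (hLZ : ¬ Lam L Z) (hLC : Lam L C) (h : ∀ M, Lam M L → ¬ Lam M C → ¬ Lam M Z) :
    crn F C < crn F Z := by
  classical
  apply Finset.card_lt_card
  rw [Finset.ssubset_iff_of_subset]
  · exact ⟨L, Finset.mem_filter.2 ⟨hL, hLZ⟩, fun h => (Finset.mem_filter.1 h).2 hLC⟩
  · intro M hM
    obtain ⟨h3, h4⟩ := Finset.mem_filter.1 hM
    exact Finset.mem_filter.2 ⟨h3, h M (hl M h3 L hL) h4⟩

namespace Exs

variable {G : Gr Q} {V0 : Finset ℕ} {K N : ℕ} {F : Finset (Finset ℕ)} {Y X Z : Finset ℕ}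

/-- a crossing member lies in `X` -/
theorem cross_sub (h : Exs G V0 K N F Y X Z) {M : Finset ℕ} (hM : M ∈ F) (hc : ¬ Lam M Z) :
    M ⊆ X := by
  obtain ⟨⟨a, ha, ha'⟩, ⟨b, hb, hb'⟩, c, hc1, hc2⟩ := not_lam.1 hc
  rcases lam_sub h.val.lam hM h.hX hc1 (h.hZX hc2) with h1 | h1
  · exact h1
  · exact absurd (h1 (h.hZX hb)) hb'

theorem cross_Y (h : Exs G V0 K N F Y X Z) {M : Finset ℕ} (hM : M ∈ F) (hc : ¬ Lam M Z) :
    Y ⊆ M ∨ Disjoint M Y := by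
  obtain ⟨⟨a, ha, ha'⟩, ⟨b, hb, hb'⟩, c, hc1, hc2⟩ := not_lam.1 hc
  rcases h.val.lam M hM Y h.hY with h1 | h1 | h1
  · exact absurd (h.hYZ (h1 ha)) ha'
  · exact Or.inl h1
  · exact Or.inr h1

theorem Y_ne (h : Exs G V0 K N F Y X Z) : Y.Nonempty := h.val.ne Y h.hY

/-- no better set -/
theorem cross_no {W : Finset ℕ} (h : Exs G V0 K N F Y X Z) (hYW : Y ⊆ W) (hWX : W ⊆ X)
    (hc : crn F W < crn F Z) : G.d Z < G.d W := by
  by_contra hcon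
  have := h.cr W hYW hWX (not_lt.1 hcon)
  omega

theorem union_gt (h : Exs G V0 K N F Y X Z) {M : Finset ℕ} (hM : M ∈ F) (hc : ¬ Lam M Z) :
    G.d Z < G.d (Z ∪ M) :=
  h.cross_no (h.hYZ.trans Finset.subset_union_left) (Finset.union_subset h.hZX (h.cross_sub hM hc))
    (crn_lt h.val.lam hM hc corner_self.2.1 fun _ hL => (corner_cross hc hL).2.1)

theorem inter_gt (h : Exs G V0 K N F Y X Z) {M : Finset ℕ} (hM : M ∈ F) (hc : ¬ Lam M Z)
    (hY : Y ⊆ M) : G.d Z < G.d (Z ∩ M) :=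
  h.cross_no (Finset.subset_inter h.hYZ hY) (Finset.inter_subset_left.trans h.hZX)
    (crn_lt h.val.lam hM hc corner_self.1 fun _ hL => (corner_cross hc hL).1)

theorem sdiff_gt (h : Exs G V0 K N F Y X Z) {M : Finset ℕ} (hM : M ∈ F) (hc : ¬ Lam M Z)
    (hY : Disjoint M Y) : G.d Z < G.d (Z \ M) :=
  h.cross_no (fun y hy => Finset.mem_sdiff.2 ⟨h.hYZ hy, fun hyM => Finset.disjoint_left.1 hY hyM hy⟩)
    (Finset.sdiff_subset.trans h.hZX)
    (crn_lt h.val.lam hM hc corner_self.2.2.1 fun _ hL => (corner_cross hc hL).2.2.1)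

/-- order of the three types of new sets -/
theorem ordI (h : Exs G V0 K N F Y X Z) {M : Finset ℕ} (hM : M ⊆ X) :
    G.d (M ∩ Z) ≤ G.d M := by
  have h1 := d_sub G M Z
  have h2 := h.min (M ∪ Z) (h.hYZ.trans Finset.subset_union_right) (Finset.union_subset hM h.hZX)
  omega

theorem ordII (h : Exs G V0 K N F Y X Z) {M : Finset ℕ} (hM : Y ⊆ M) :
    G.d (M ∪ Z) ≤ G.d M := by
  have h1 := d_sub G M Z
  have h2 := h.min (M ∩ Z) (Finset.subset_inter hM h.hYZ) (Finset.inter_subset_right.trans h.hZX)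
  omega

theorem ordIII (h : Exs G V0 K N F Y X Z) {M : Finset ℕ} (hM : Disjoint M Y) :
    G.d (M \ Z) ≤ G.d M := by
  have h1 := d_pos G M Z
  have h2 := h.min (Z \ M)
    (fun y hy => Finset.mem_sdiff.2 ⟨h.hYZ hy, fun hyM => Finset.disjoint_left.1 hM hyM hy⟩)
    (Finset.sdiff_subset.trans h.hZX)
  omega

theorem ordI_lt (h : Exs G V0 K N F Y X Z) {M : Finset ℕ} (hM : M ∈ F) (hc : ¬ Lam M Z) :
    G.d (M ∩ Z) < G.d M := by
  have h1 := d_sub G M Z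
  have h2 := h.union_gt hM hc
  rw [Finset.union_comm] at h2
  omega

theorem ordII_lt (h : Exs G V0 K N F Y X Z) {M : Finset ℕ} (hM : M ∈ F) (hc : ¬ Lam M Z)
    (hY : Y ⊆ M) : G.d (M ∪ Z) < G.d M := by
  have h1 := d_sub G M Z
  have h2 := h.inter_gt hM hc hY
  rw [Finset.inter_comm] at h2
  omega

theorem ordIII_lt (h : Exs G V0 K N F Y X Z) {M : Finset ℕ} (hM : M ∈ F) (hc : ¬ Lam M Z)
    (hY : Disjoint M Y) : G.d (M \ Z) < G.d M := by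
  have h1 := d_pos G M Z
  have h2 := h.sdiff_gt hM hc hY
  omega

end Exs

open Classical in
/-- the new family -/
noncomputable def Exch (F : Finset (Finset ℕ)) (Y X Z : Finset ℕ) : Finset (Finset ℕ) :=
  (((F.filter fun M => M ⊆ X).image fun M => M ∩ Z) ∪ ((F.filter fun M => Y ⊆ M).image fun M => M ∪ Z) ∪
    ((F.filter fun M => Disjoint M Y).image fun M => M \ Z)).filter fun W => W.Nonempty

theorem mem_exch {F : Finset (Finset ℕ)} {Y X Z W : Finset ℕ} :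
    W ∈ Exch F Y X Z ↔ W.Nonempty ∧ ((∃ M ∈ F, M ⊆ X ∧ M ∩ Z = W) ∨ (∃ M ∈ F, Y ⊆ M ∧ M ∪ Z = W) ∨
      ∃ M ∈ F, Disjoint M Y ∧ M \ Z = W) := by
  classical
  unfold Exch
  rw [Finset.mem_filter, Finset.mem_union, Finset.mem_union]
  simp only [Finset.mem_image, Finset.mem_filter]
  constructor
  · rintro ⟨(⟨M, ⟨h1, h2⟩, h3⟩ | ⟨M, ⟨h1, h2⟩, h3⟩) | ⟨M, ⟨h1, h2⟩, h3⟩, h⟩
    · exact ⟨h, Or.inl ⟨M, h1, h2, h3⟩⟩
    · exact ⟨h, Or.inr (Or.inl ⟨M, h1, h2, h3⟩)⟩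
    · exact ⟨h, Or.inr (Or.inr ⟨M, h1, h2, h3⟩)⟩
  · rintro ⟨h, ⟨M, h1, h2, h3⟩ | ⟨M, h1, h2, h3⟩ | ⟨M, h1, h2, h3⟩⟩
    · exact ⟨Or.inl (Or.inl ⟨M, ⟨h1, h2⟩, h3⟩), h⟩
    · exact ⟨Or.inl (Or.inr ⟨M, ⟨h1, h2⟩, h3⟩), h⟩
    · exact ⟨Or.inr ⟨M, ⟨h1, h2⟩, h3⟩, h⟩

end Pool.Agent.W2411c4
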