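import Pool.Agent.W_2411c4_h59.Exch

/-! The exchange keeps families valid. -/

set_option autoImplicit false

namespace Pool.Agent.W2411c4

variable {Q : Type}

open Gr

theorem cross_of {G : Gr Q} {Z : Finset ℕ} {e x z : ℕ} (hx : G.Inc e x) (hxZ : x ∈ Z)
    (hz : G.Inc e z) (hzZ : z ∉ Z) : G.Cross Z e := by
  rcases hx with rfl | rfl <;> rcases hz with rfl | rfl
  · exact absurd hxZ hzZ
  · exact Or.inl ⟨hxZ, hzZ⟩
  · exact Or.inr ⟨hzZ, hxZ⟩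
  · exact absurd hxZ hzZ

theorem cross_ends {G : Gr Q} {Z : Finset ℕ} {e : ℕ} (h : G.Cross Z e) :
    ∃ p q, G.Inc e p ∧ p ∈ Z ∧ G.Inc e q ∧ q ∉ Z := by
  rcases h with h | h
  · exact ⟨_, _, inc_a G e, h.1, inc_b G e, h.2⟩
  · exact ⟨_, _, inc_b G e, h.2, inc_a G e, h.1⟩

theorem d_mono {G : Gr Q} {A B : Finset ℕ} (h : ∀ e ∈ G.E, G.Cross A e → G.Cross B e) :
    G.d A ≤ G.d B := by
  apply Finset.card_le_card
  intro e he
  obtain ⟨h1, h2⟩ := G.mem_bd.1 he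
  exact G.mem_bd.2 ⟨h1, h e h1 h2⟩

theorem arith_bag {np np' b b' K N x : ℕ} (h : np + (K + 1) * b ≤ N) (h1 : np' ≤ np + x)
    (hx : x ≤ K + 1) (hb : b' + 1 ≤ b) : np' + (K + 1) * b' ≤ N := by
  have h2 : (K + 1) * (b' + 1) ≤ (K + 1) * b := Nat.mul_le_mul_left _ hb
  rw [Nat.mul_add, Nat.mul_one] at h2
  omega

theorem arith_bag' {np np' b b' K N : ℕ} (h : np + (K + 1) * b ≤ N) (h1 : np' ≤ np)
    (hb : b' ≤ b) : np' + (K + 1) * b' ≤ N := by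
  have h2 : (K + 1) * b' ≤ (K + 1) * b := Nat.mul_le_mul_left _ hb
  omega

namespace Exs

variable {G : Gr Q} {V0 : Finset ℕ} {K N : ℕ} {F : Finset (Finset ℕ)} {Y X Z : Finset ℕ}

theorem dZ_lt (h : Exs G V0 K N F Y X Z) : G.d Z < K :=
  (h.low X h.hX (h.hYZ.trans h.hZX) (Finset.Subset.refl _)).trans_le (h.val.ord X h.hX)

theorem exch_lam (h : Exs G V0 K N F Y X Z) : ∀ A ∈ Exch F Y X Z, ∀ B ∈ Exch F Y X Z, Lam A B := by
  obtain ⟨y, hy⟩ := h.Y_ne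
  have hyZ := h.hYZ hy
  have hl := h.val.lam
  -- II-III
  have h23 : ∀ M1 ∈ F, Y ⊆ M1 → ∀ M2 ∈ F, Disjoint M2 Y → Lam (M1 ∪ Z) (M2 \ Z) := by
    intro M1 hM1 hY1 M2 hM2 hY2
    rcases hl M1 hM1 M2 hM2 with h1 | h1 | h1
    · exact absurd hy (Finset.disjoint_left.1 hY2 (h1 (hY1 hy)))
    · exact Or.inr (Or.inl fun x hx => Finset.mem_union_left _ (h1 (Finset.mem_sdiff.1 hx).1))
    · refine Or.inr (Or.inr ?_)
      rw [Finset.disjoint_left]
      intro x hx hx'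
      rw [Finset.mem_sdiff] at hx'
      rcases Finset.mem_union.1 hx with h2 | h2
      · exact Finset.disjoint_left.1 h1 h2 hx'.1
      · exact hx'.2 h2
  have h13 : ∀ M1 M2 : Finset ℕ, Lam (M1 ∩ Z) (M2 \ Z) := by
    intro M1 M2
    refine Or.inr (Or.inr ?_)
    rw [Finset.disjoint_left]
    intro x hx hx'
    exact (Finset.mem_sdiff.1 hx').2 (Finset.mem_inter.1 hx).2
  have h12 : ∀ M1 M2 : Finset ℕ, Lam (M1 ∩ Z) (M2 ∪ Z) := fun M1 M2 =>
    Or.inl (Finset.inter_subset_right.trans Finset.subset_union_right)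
  intro A hA B hB
  obtain ⟨_, ⟨M1, hM1, hX1, rfl⟩ | ⟨M1, hM1, hY1, rfl⟩ | ⟨M1, hM1, hY1, rfl⟩⟩ := mem_exch.1 hA <;>
    obtain ⟨_, ⟨M2, hM2, hX2, rfl⟩ | ⟨M2, hM2, hY2, rfl⟩ | ⟨M2, hM2, hY2, rfl⟩⟩ := mem_exch.1 hB
  · rcases hl M1 hM1 M2 hM2 with h1 | h1 | h1
    · exact Or.inl (Finset.inter_subset_inter_right h1)
    · exact Or.inr (Or.inl (Finset.inter_subset_inter_right h1))
    · exact Or.inr (Or.inr (h1.mono Finset.inter_subset_left Finset.inter_subset_left))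
  · exact h12 _ _
  · exact h13 _ _
  · exact (h12 _ _).symm
  · rcases lam_sub hl hM1 hM2 (hY1 hy) (hY2 hy) with h1 | h1
    · exact Or.inl (Finset.union_subset_union_left h1)
    · exact Or.inr (Or.inl (Finset.union_subset_union_left h1))
  · exact h23 M1 hM1 hY1 M2 hM2 hY2
  · exact (h13 _ _).symm
  · exact (h23 M2 hM2 hY2 M1 hM1 hY1).symm
  · rcases hl M1 hM1 M2 hM2 with h1 | h1 | h1
    · exact Or.inl (Finset.sdiff_subset_sdiff h1 (Finset.Subset.refl _))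
    · exact Or.inr (Or.inl (Finset.sdiff_subset_sdiff h1 (Finset.Subset.refl _)))
    · exact Or.inr (Or.inr (h1.mono Finset.sdiff_subset Finset.sdiff_subset))

theorem exch_ord (h : Exs G V0 K N F Y X Z) : ∀ A ∈ Exch F Y X Z, G.d A ≤ K := by
  intro A hA
  obtain ⟨_, ⟨M1, hM1, hX1, rfl⟩ | ⟨M1, hM1, hY1, rfl⟩ | ⟨M1, hM1, hY1, rfl⟩⟩ := mem_exch.1 hA
  · exact (h.ordI hX1).trans (h.val.ord M1 hM1)
  · exact (h.ordII hY1).trans (h.val.ord M1 hM1)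
  · exact (h.ordIII hY1).trans (h.val.ord M1 hM1)

/-- nodes inside `Z` -/
theorem ndI (h : Exs G V0 K N F Y X Z) {M : Finset ℕ} (hM : M ∈ F) (hMX : M ⊆ X)
    (hmin : ∀ N' ∈ F, N' ⊂ M → N' ∩ Z ≠ M ∩ Z) :
    (NP G (Exch F Y X Z) (M ∩ Z)).card + (K + 1) * (Bag (Exch F Y X Z) (M ∩ Z)).card ≤ N := by
  classical
  have hl := h.val.lam
  have hsubZ : M ∩ Z ⊆ Z := Finset.inter_subset_right
  -- members strictly inside
  have hrep : ∀ C ∈ Exch F Y X Z, C ⊂ M ∩ Z → ∃ N1 ∈ F, N1 ⊂ M ∧ N1 ∩ Z = C := by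
    intro C hC hCW
    obtain ⟨⟨c, hc⟩, ⟨N1, hN1, hX1, rfl⟩ | ⟨N1, hN1, hY1, rfl⟩ | ⟨N1, hN1, hY1, rfl⟩⟩ :=
      mem_exch.1 hC
    · have hcM := (Finset.mem_inter.1 (hCW.subset hc)).1
      rcases lam_sub hl hN1 hM (Finset.mem_inter.1 hc).1 hcM with h1 | h1
      · refine ⟨N1, hN1, Finset.ssubset_iff_subset_ne.2 ⟨h1, ?_⟩, rfl⟩
        rintro rfl
        exact hCW.ne rfl
      · exact absurd (Finset.inter_subset_inter_right h1) hCW.not_subset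
    · exact absurd (hsubZ.trans Finset.subset_union_right) hCW.not_subset
    · exact absurd (hsubZ (hCW.subset hc)) (Finset.mem_sdiff.1 hc).2
  have hin : ∀ N' ∈ F, N' ⊂ M → (N' ∩ Z).Nonempty →
      N' ∩ Z ∈ Exch F Y X Z ∧ N' ∩ Z ⊂ M ∩ Z := by
    intro N' hN' hNM hne
    exact ⟨mem_exch.2 ⟨hne, Or.inl ⟨N', hN', hNM.subset.trans hMX, rfl⟩⟩,
      Finset.ssubset_iff_subset_ne.2 ⟨Finset.inter_subset_inter_right hNM.subset, hmin N' hN' hNM⟩⟩
  have hbag : ∀ v, v ∈ Bag (Exch F Y X Z) (M ∩ Z) ↔ v ∈ Bag F M ∧ v ∈ Z := by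
    intro v
    constructor
    · intro hv
      obtain ⟨h1, h2⟩ := mem_bag.1 hv
      obtain ⟨h3, h4⟩ := Finset.mem_inter.1 h1
      refine ⟨mem_bag.2 ⟨h3, ?_⟩, h4⟩
      intro N' hN' hNM hvN
      have hvi : v ∈ N' ∩ Z := Finset.mem_inter.2 ⟨hvN, h4⟩
      obtain ⟨h5, h6⟩ := hin N' hN' hNM ⟨v, hvi⟩
      exact h2 _ h5 h6 hvi
    · rintro ⟨hv, hvZ⟩
      obtain ⟨h1, h2⟩ := mem_bag.1 hv
      refine mem_bag.2 ⟨Finset.mem_inter.2 ⟨h1, hvZ⟩, ?_⟩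
      intro C hC hCW hvC
      obtain ⟨N1, hN1, hNM, rfl⟩ := hrep C hC hCW
      exact h2 N1 hN1 hNM (Finset.mem_inter.1 hvC).1
  have hkid : ∀ C ∈ NP G (Exch F Y X Z) (M ∩ Z), ∃ N', IsKid F M N' ∧ N' ∩ Z = C := by
    intro C hC
    obtain ⟨⟨hC1, hC2, hC3⟩, _⟩ := mem_np.1 hC
    obtain ⟨N1, hN1, hNM, rfl⟩ := hrep C hC1 hC2
    obtain ⟨N', hN', hNN⟩ := exists_kid hN1 hNM
    refine ⟨N', hN', ?_⟩
    have hsub : N1 ∩ Z ⊆ N' ∩ Z := Finset.inter_subset_inter_right hNN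
    obtain ⟨h5, h6⟩ := hin N' hN'.1 hN'.2.1 ((mem_exch.1 hC1).1.mono hsub)
    exact hC3 _ h5 hsub h6
  -- touched kids
  have htouch : ∀ N', IsKid F M N' → Priv G F M N' → N' ∩ Z ∈ NP G (Exch F Y X Z) (M ∩ Z) →
      ∃ e ∈ G.E, ∃ x z, G.Inc e x ∧ x ∈ N' ∧ x ∈ Z ∧ G.Inc e z ∧ z ∉ Z ∧
        (z ∈ N' ∨ z ∈ Bag F M) := by
    intro N' hN' hP hNP
    have hnp := (mem_np.1 hNP).2
    unfold Priv at hnp
    push Not at hnp
    obtain ⟨e, he, ht, z, hz, hz1, hz2⟩ := hnp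
    obtain ⟨x, hx, hxN⟩ := touch_end.1 ht
    obtain ⟨hx1, hx2⟩ := Finset.mem_inter.1 hxN
    have h3 := hP e he (touch_end.2 ⟨x, hx, hx1⟩) z hz
    refine ⟨e, he, x, z, hx, hx1, hx2, hz, ?_, h3⟩
    intro hzZ
    rcases h3 with h3 | h3
    · exact hz1 (Finset.mem_inter.2 ⟨h3, hzZ⟩)
    · exact hz2 ((hbag z).2 ⟨h3, hzZ⟩)
  have hval := h.val.nd M hM
  by_cases hA : Bag F M ⊆ Z
  · have h1 := np_count (G := G) (F := F) (M := M) (fun N' => N' ∩ Z) hkid ∅ (by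
      intro N' hN' hP hNP
      exfalso
      obtain ⟨e, he, x, z, hx, hx1, hx2, hz, hzZ, hz1⟩ := htouch N' hN' hP hNP
      have hzN : z ∈ N' := by
        rcases hz1 with h1 | h1
        · exact h1
        · exact absurd (hA h1) hzZ
      have hcr : ¬ Lam N' Z := by
        rw [not_lam]
        refine ⟨⟨z, hzN, hzZ⟩, ?_, x, hx1, hx2⟩
        by_contra hcon
        push Not at hcon
        apply hmin N' hN'.1 hN'.2.1
        apply Finset.Subset.antisymm (Finset.inter_subset_inter_right hN'.2.1.subset)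
        intro w hw
        have hwZ := hsubZ hw
        exact Finset.mem_inter.2 ⟨hcon w hwZ, hwZ⟩
      have hgt := h.union_gt hN'.1 hcr
      have hle : G.d (Z ∪ N') ≤ G.d Z := by
        apply d_mono
        intro f hf hfc
        obtain ⟨p, q, hp, hpZ, hq, hqZ⟩ := cross_ends hfc
        rw [Finset.mem_union] at hpZ hqZ
        push Not at hqZ
        by_cases hpN : p ∈ N'
        · exfalso
          rcases hP f hf (touch_end.2 ⟨p, hp, hpN⟩) q hq with h2 | h2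
          · exact hqZ.2 h2
          · exact hqZ.1 (hA h2)
        · have hpZ' : p ∈ Z := hpZ.resolve_right hpN
          exact cross_of hp hpZ' hq hqZ.1
      omega)
    have h2 : (Bag (Exch F Y X Z) (M ∩ Z)).card ≤ (Bag F M).card :=
      Finset.card_le_card fun v hv => ((hbag v).1 hv).1
    exact arith_bag' hval (by simpa using h1) h2
  · have h1 := np_count (G := G) (F := F) (M := M) (fun N' => N' ∩ Z) hkid
      (F.filter fun N' => IsKid F M N' ∧ Priv G F M N' ∧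
        N' ∩ Z ∈ NP G (Exch F Y X Z) (M ∩ Z))
      (fun N' hN' hP hNP => Finset.mem_filter.2 ⟨hN'.1, hN', hP, hNP⟩)
    have h2 := bad_count hl (M := M) (G.bd Z) (fun e he => (G.mem_bd.1 he).1)
      (F.filter fun N' => IsKid F M N' ∧ Priv G F M N' ∧
        N' ∩ Z ∈ NP G (Exch F Y X Z) (M ∩ Z)) (by
      intro N' hN'
      obtain ⟨_, hk, hP, hNP⟩ := Finset.mem_filter.1 hN'
      obtain ⟨e, he, x, z, hx, hx1, hx2, hz, hzZ, hz1⟩ := htouch N' hk hP hNP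
      exact ⟨hk, hP, e, G.mem_bd.2 ⟨he, cross_of hx hx2 hz hzZ⟩, touch_end.2 ⟨x, hx, hx1⟩⟩)
    have h3 : (Bag (Exch F Y X Z) (M ∩ Z)).card + 1 ≤ (Bag F M).card := by
      apply Finset.card_lt_card
      rw [Finset.ssubset_iff_of_subset fun v hv => ((hbag v).1 hv).1]
      obtain ⟨v, hv, hvZ⟩ := Finset.not_subset.1 hA
      exact ⟨v, hv, fun h' => hvZ ((hbag v).1 h').2⟩
    have h4 := h.dZ_lt
    have h5 : G.d Z = (G.bd Z).card := rfl
    exact arith_bag hval h1 (by omega) h3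

/-- a private kid crossing `Z` next to a bag outside `Z` -/
theorem priv_cross (h : Exs G V0 K N F Y X Z) {M N' : Finset ℕ} (hN' : N' ∈ F)
    (hP : Priv G F M N') (hA : ∀ v ∈ Bag F M, v ∉ Z) (hd : Disjoint N' Y) {x z : ℕ} (hx : x ∈ N')
    (hxZ : x ∉ Z) (hz : z ∈ N') (hzZ : z ∈ Z) : False := by
  obtain ⟨y, hy⟩ := h.Y_ne
  have hcr : ¬ Lam N' Z := by
    rw [not_lam]
    exact ⟨⟨x, hx, hxZ⟩, ⟨y, h.hYZ hy, fun h' => Finset.disjoint_left.1 hd h' hy⟩, z, hz, hzZ⟩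
  have hgt := h.sdiff_gt hN' hcr hd
  have hle : G.d (Z \ N') ≤ G.d Z := by
    apply d_mono
    intro f hf hfc
    obtain ⟨p, q, hp, hpZ, hq, hqZ⟩ := cross_ends hfc
    rw [Finset.mem_sdiff] at hpZ hqZ
    refine cross_of hp hpZ.1 hq fun hqZ' => ?_
    have hqN : q ∈ N' := by
      by_contra h'
      exact hqZ ⟨hqZ', h'⟩
    rcases hP f hf (touch_end.2 ⟨q, hq, hqN⟩) p hp with h2 | h2
    · exact hpZ.2 h2
    · exact hA p h2 hpZ.1
  omega

/-- nodes outside `Z` and not containing it -/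
theorem ndIII (h : Exs G V0 K N F Y X Z) {M : Finset ℕ} (hM : M ∈ F) (hMY : Disjoint M Y)
    (hmin : ∀ N' ∈ F, N' ⊂ M → N' \ Z ≠ M \ Z) :
    (NP G (Exch F Y X Z) (M \ Z)).card + (K + 1) * (Bag (Exch F Y X Z) (M \ Z)).card ≤ N := by
  classical
  have hl := h.val.lam
  obtain ⟨y, hy⟩ := h.Y_ne
  have hyZ := h.hYZ hy
  have hWZ : ∀ w ∈ M \ Z, w ∉ Z := fun w hw => (Finset.mem_sdiff.1 hw).2
  have hrep : ∀ C ∈ Exch F Y X Z, C ⊂ M \ Z → ∃ N1 ∈ F, N1 ⊂ M ∧ N1 \ Z = C := by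
    intro C hC hCW
    obtain ⟨⟨c, hc⟩, ⟨N1, hN1, hX1, rfl⟩ | ⟨N1, hN1, hY1, rfl⟩ | ⟨N1, hN1, hY1, rfl⟩⟩ :=
      mem_exch.1 hC
    · exact absurd (Finset.mem_inter.1 hc).2 (hWZ c (hCW.subset hc))
    · exact absurd hyZ (hWZ y (hCW.subset (Finset.mem_union_right _ hyZ)))
    · have hcM := (Finset.mem_sdiff.1 (hCW.subset hc)).1
      rcases lam_sub hl hN1 hM (Finset.mem_sdiff.1 hc).1 hcM with h1 | h1
      · refine ⟨N1, hN1, Finset.ssubset_iff_subset_ne.2 ⟨h1, ?_⟩, rfl⟩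
        rintro rfl
        exact hCW.ne rfl
      · exact absurd (Finset.sdiff_subset_sdiff h1 (Finset.Subset.refl _)) hCW.not_subset
  have hdY : ∀ N' : Finset ℕ, N' ⊂ M → Disjoint N' Y := fun N' hN' => hMY.mono_left hN'.subset
  have hin : ∀ N' ∈ F, N' ⊂ M → (N' \ Z).Nonempty →
      N' \ Z ∈ Exch F Y X Z ∧ N' \ Z ⊂ M \ Z := by
    intro N' hN' hNM hne
    exact ⟨mem_exch.2 ⟨hne, Or.inr (Or.inr ⟨N', hN', hdY N' hNM, rfl⟩)⟩,
      Finset.ssubset_iff_subset_ne.2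
        ⟨Finset.sdiff_subset_sdiff hNM.subset (Finset.Subset.refl _), hmin N' hN' hNM⟩⟩
  have hbag : ∀ v, v ∈ Bag (Exch F Y X Z) (M \ Z) ↔ v ∈ Bag F M ∧ v ∉ Z := by
    intro v
    constructor
    · intro hv
      obtain ⟨h1, h2⟩ := mem_bag.1 hv
      obtain ⟨h3, h4⟩ := Finset.mem_sdiff.1 h1
      refine ⟨mem_bag.2 ⟨h3, ?_⟩, h4⟩
      intro N' hN' hNM hvN
      have hvi : v ∈ N' \ Z := Finset.mem_sdiff.2 ⟨hvN, h4⟩
      obtain ⟨h5, h6⟩ := hin N' hN' hNM ⟨v, hvi⟩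
      exact h2 _ h5 h6 hvi
    · rintro ⟨hv, hvZ⟩
      obtain ⟨h1, h2⟩ := mem_bag.1 hv
      refine mem_bag.2 ⟨Finset.mem_sdiff.2 ⟨h1, hvZ⟩, ?_⟩
      intro C hC hCW hvC
      obtain ⟨N1, hN1, hNM, rfl⟩ := hrep C hC hCW
      exact h2 N1 hN1 hNM (Finset.mem_sdiff.1 hvC).1
  have hkid : ∀ C ∈ NP G (Exch F Y X Z) (M \ Z), ∃ N', IsKid F M N' ∧ N' \ Z = C := by
    intro C hC
    obtain ⟨⟨hC1, hC2, hC3⟩, _⟩ := mem_np.1 hC
    obtain ⟨N1, hN1, hNM, rfl⟩ := hrep C hC1 hC2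
    obtain ⟨N', hN', hNN⟩ := exists_kid hN1 hNM
    refine ⟨N', hN', ?_⟩
    have hsub : N1 \ Z ⊆ N' \ Z := Finset.sdiff_subset_sdiff hNN (Finset.Subset.refl _)
    obtain ⟨h5, h6⟩ := hin N' hN'.1 hN'.2.1 ((mem_exch.1 hC1).1.mono hsub)
    exact hC3 _ h5 hsub h6
  have htouch : ∀ N', IsKid F M N' → Priv G F M N' → N' \ Z ∈ NP G (Exch F Y X Z) (M \ Z) →
      ∃ e ∈ G.E, ∃ x z, G.Inc e x ∧ x ∈ N' ∧ x ∉ Z ∧ G.Inc e z ∧ z ∈ Z ∧
        (z ∈ N' ∨ z ∈ Bag F M) := by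
    intro N' hN' hP hNP
    have hnp := (mem_np.1 hNP).2
    unfold Priv at hnp
    push Not at hnp
    obtain ⟨e, he, ht, z, hz, hz1, hz2⟩ := hnp
    obtain ⟨x, hx, hxN⟩ := touch_end.1 ht
    obtain ⟨hx1, hx2⟩ := Finset.mem_sdiff.1 hxN
    have h3 := hP e he (touch_end.2 ⟨x, hx, hx1⟩) z hz
    refine ⟨e, he, x, z, hx, hx1, hx2, hz, ?_, h3⟩
    by_contra hzZ
    rcases h3 with h3 | h3
    · exact hz1 (Finset.mem_sdiff.2 ⟨h3, hzZ⟩)
    · exact hz2 ((hbag z).2 ⟨h3, hzZ⟩)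
  have hval := h.val.nd M hM
  by_cases hA : ∀ v ∈ Bag F M, v ∉ Z
  · have h1 := np_count (G := G) (F := F) (M := M) (fun N' => N' \ Z) hkid ∅ (by
      intro N' hN' hP hNP
      exfalso
      obtain ⟨e, he, x, z, hx, hx1, hx2, hz, hzZ, hz1⟩ := htouch N' hN' hP hNP
      have hzN : z ∈ N' := by
        rcases hz1 with h1 | h1
        · exact h1
        · exact absurd hzZ (hA z h1)
      exact h.priv_cross hN'.1 hP hA (hdY N' hN'.2.1) hx1 hx2 hzN hzZ)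
    have h2 : (Bag (Exch F Y X Z) (M \ Z)).card ≤ (Bag F M).card :=
      Finset.card_le_card fun v hv => ((hbag v).1 hv).1
    exact arith_bag' hval (by simpa using h1) h2
  · have h1 := np_count (G := G) (F := F) (M := M) (fun N' => N' \ Z) hkid
      (F.filter fun N' => IsKid F M N' ∧ Priv G F M N' ∧
        N' \ Z ∈ NP G (Exch F Y X Z) (M \ Z))
      (fun N' hN' hP hNP => Finset.mem_filter.2 ⟨hN'.1, hN', hP, hNP⟩)
    have h2 := bad_count hl (M := M) (G.bd Z) (fun e he => (G.mem_bd.1 he).1)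
      (F.filter fun N' => IsKid F M N' ∧ Priv G F M N' ∧
        N' \ Z ∈ NP G (Exch F Y X Z) (M \ Z)) (by
      intro N' hN'
      obtain ⟨_, hk, hP, hNP⟩ := Finset.mem_filter.1 hN'
      obtain ⟨e, he, x, z, hx, hx1, hx2, hz, hzZ, hz1⟩ := htouch N' hk hP hNP
      exact ⟨hk, hP, e, G.mem_bd.2 ⟨he, cross_of hz hzZ hx hx2⟩, touch_end.2 ⟨x, hx, hx1⟩⟩)
    have h3 : (Bag (Exch F Y X Z) (M \ Z)).card + 1 ≤ (Bag F M).card := by
      apply Finset.card_lt_card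
      rw [Finset.ssubset_iff_of_subset fun v hv => ((hbag v).1 hv).1]
      push Not at hA
      obtain ⟨v, hv, hvZ⟩ := hA
      exact ⟨v, hv, fun h' => ((hbag v).1 h').2 hvZ⟩
    have h4 := h.dZ_lt
    have h5 : G.d Z = (G.bd Z).card := rfl
    exact arith_bag hval h1 (by omega) h3

/-- nodes containing `Z` -/
theorem ndII (h : Exs G V0 K N F Y X Z) {M : Finset ℕ} (hM : M ∈ F) (hYM : Y ⊆ M)
    (hne : M ∪ Z ≠ Z) (hmin : ∀ N' ∈ F, Y ⊆ N' → N' ⊂ M → N' ∪ Z ≠ M ∪ Z) :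
    (NP G (Exch F Y X Z) (M ∪ Z)).card + (K + 1) * (Bag (Exch F Y X Z) (M ∪ Z)).card ≤ N := by
  classical
  have hl := h.val.lam
  obtain ⟨y, hy⟩ := h.Y_ne
  have hyZ := h.hYZ hy
  have hYM' : Y ⊂ M := by
    refine Finset.ssubset_iff_subset_ne.2 ⟨hYM, ?_⟩
    rintro rfl
    exact hne (Finset.union_eq_right.2 h.hYZ)
  obtain ⟨N0, hN0, hYN0⟩ := exists_kid h.hY hYM'
  have hkY : ∀ N', IsKid F M N' → y ∈ N' → N' = N0 := fun N' hN' hyN =>
    kid_eq hl hN' hN0 hyN (hYN0 hy)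
  have hN0E : N0 ∪ Z ∈ Exch F Y X Z := mem_exch.2
    ⟨⟨y, Finset.mem_union_right _ hyZ⟩, Or.inr (Or.inl ⟨N0, hN0.1, hYN0, rfl⟩)⟩
  have hN0W : N0 ∪ Z ⊂ M ∪ Z := Finset.ssubset_iff_subset_ne.2
    ⟨Finset.union_subset_union_left hN0.2.1.subset, hmin N0 hN0.1 hYN0 hN0.2.1⟩
  have hrep : ∀ C ∈ Exch F Y X Z, C ⊂ M ∪ Z → C ⊆ N0 ∪ Z ∨
      ∃ N1 ∈ F, N1 ⊂ M ∧ Disjoint N1 Y ∧ N1 \ Z = C := by
    intro C hC hCW
    obtain ⟨⟨c, hc⟩, ⟨N1, hN1, hX1, rfl⟩ | ⟨N1, hN1, hY1, rfl⟩ | ⟨N1, hN1, hY1, rfl⟩⟩ :=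
      mem_exch.1 hC
    · exact Or.inl (Finset.inter_subset_right.trans Finset.subset_union_right)
    · left
      rcases lam_sub hl hN1 hM (hY1 hy) (hYM hy) with h1 | h1
      · have h2 : N1 ⊂ M := by
          refine Finset.ssubset_iff_subset_ne.2 ⟨h1, ?_⟩
          rintro rfl
          exact hCW.ne rfl
        obtain ⟨N', hN', hNN⟩ := exists_kid hN1 h2
        rw [hkY N' hN' (hNN (hY1 hy))] at hNN
        exact Finset.union_subset_union_left hNN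
      · exact absurd (Finset.union_subset_union_left h1) hCW.not_subset
    · right
      obtain ⟨hc1, hc2⟩ := Finset.mem_sdiff.1 hc
      have hcM : c ∈ M := (Finset.mem_union.1 (hCW.subset hc)).resolve_right hc2
      rcases lam_sub hl hN1 hM hc1 hcM with h1 | h1
      · refine ⟨N1, hN1, Finset.ssubset_iff_subset_ne.2 ⟨h1, ?_⟩, hY1, rfl⟩
        rintro rfl
        exact Finset.disjoint_left.1 hY1 (hYM hy) hy
      · exact absurd hy (Finset.disjoint_left.1 hY1 (h1 (hYM hy)))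
  have hinD : ∀ N' ∈ F, N' ⊂ M → Disjoint N' Y → (N' \ Z).Nonempty →
      N' \ Z ∈ Exch F Y X Z ∧ N' \ Z ⊂ M ∪ Z := by
    intro N' hN' hNM hd hne'
    refine ⟨mem_exch.2 ⟨hne', Or.inr (Or.inr ⟨N', hN', hd, rfl⟩)⟩, ?_⟩
    rw [Finset.ssubset_iff_of_subset
      (fun w hw => Finset.mem_union_left _ (hNM.subset (Finset.mem_sdiff.1 hw).1))]
    exact ⟨y, Finset.mem_union_right _ hyZ, fun h' => (Finset.mem_sdiff.1 h').2 hyZ⟩
  have hbag : ∀ v, v ∈ Bag (Exch F Y X Z) (M ∪ Z) ↔ v ∈ Bag F M ∧ v ∉ Z := by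
    intro v
    constructor
    · intro hv
      obtain ⟨h1, h2⟩ := mem_bag.1 hv
      have h3 := h2 _ hN0E hN0W
      have h4 : v ∉ Z := fun h' => h3 (Finset.mem_union_right _ h')
      have h5 : v ∈ M := (Finset.mem_union.1 h1).resolve_right h4
      refine ⟨mem_bag.2 ⟨h5, ?_⟩, h4⟩
      intro N' hN' hNM hvN
      rcases hl N' hN' Y h.hY with h6 | h6 | h6
      · exact h4 (h.hYZ (h6 hvN))
      · refine h2 (N' ∪ Z) (mem_exch.2 ⟨⟨v, Finset.mem_union_left _ hvN⟩,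
          Or.inr (Or.inl ⟨N', hN', h6, rfl⟩)⟩) ?_ (Finset.mem_union_left _ hvN)
        exact Finset.ssubset_iff_subset_ne.2
          ⟨Finset.union_subset_union_left hNM.subset, hmin N' hN' h6 hNM⟩
      · have hvi : v ∈ N' \ Z := Finset.mem_sdiff.2 ⟨hvN, h4⟩
        obtain ⟨h7, h8⟩ := hinD N' hN' hNM h6 ⟨v, hvi⟩
        exact h2 _ h7 h8 hvi
    · rintro ⟨hv, hvZ⟩
      obtain ⟨h1, h2⟩ := mem_bag.1 hv
      refine mem_bag.2 ⟨Finset.mem_union_left _ h1, ?_⟩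
      intro C hC hCW hvC
      rcases hrep C hC hCW with h3 | ⟨N1, hN1, hNM, _, rfl⟩
      · rcases Finset.mem_union.1 (h3 hvC) with h4 | h4
        · exact h2 N0 hN0.1 hN0.2.1 h4
        · exact hvZ h4
      · exact h2 N1 hN1 hNM (Finset.mem_sdiff.1 hvC).1
  let τ : Finset ℕ → Finset ℕ := fun N' => if Y ⊆ N' then N' ∪ Z else N' \ Z
  have τY : ∀ N', Y ⊆ N' → τ N' = N' ∪ Z := fun N' h' => if_pos h'
  have τn : ∀ N', ¬ Y ⊆ N' → τ N' = N' \ Z := fun N' h' => if_neg h'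
  have hkid : ∀ C ∈ NP G (Exch F Y X Z) (M ∪ Z), ∃ N', IsKid F M N' ∧ τ N' = C := by
    intro C hC
    obtain ⟨⟨hC1, hC2, hC3⟩, _⟩ := mem_np.1 hC
    have h0 : C ⊆ N0 ∪ Z → ∃ N', IsKid F M N' ∧ τ N' = C := fun h' =>
      ⟨N0, hN0, by rw [τY N0 hYN0]; exact hC3 _ hN0E h' hN0W⟩
    rcases hrep C hC1 hC2 with h1 | ⟨N1, hN1, hNM, hd, rfl⟩
    · exact h0 h1
    · obtain ⟨N', hN', hNN⟩ := exists_kid hN1 hNM
      have hsub : N1 \ Z ⊆ N' \ Z := Finset.sdiff_subset_sdiff hNN (Finset.Subset.refl _)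
      rcases hl N' hN'.1 Y h.hY with h6 | h6 | h6
      · exfalso
        obtain ⟨c, hc⟩ := (mem_exch.1 hC1).1
        obtain ⟨h7, h8⟩ := Finset.mem_sdiff.1 (hsub hc)
        exact h8 (h.hYZ (h6 h7))
      · apply h0
        rw [hkY N' hN' (h6 hy)] at hsub
        exact hsub.trans (Finset.sdiff_subset.trans Finset.subset_union_left)
      · obtain ⟨h7, h8⟩ := hinD N' hN'.1 hN'.2.1 h6 ((mem_exch.1 hC1).1.mono hsub)
        refine ⟨N', hN', ?_⟩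
        rw [τn N' (fun h' => Finset.disjoint_left.1 h6 (h' hy) hy)]
        exact hC3 _ h7 hsub h8
  have htouch : ∀ N', ¬ Y ⊆ N' → IsKid F M N' → Priv G F M N' →
      τ N' ∈ NP G (Exch F Y X Z) (M ∪ Z) →
      ∃ e ∈ G.E, ∃ x z, G.Inc e x ∧ x ∈ N' ∧ x ∉ Z ∧ G.Inc e z ∧ z ∈ Z ∧
        (z ∈ N' ∨ z ∈ Bag F M) := by
    intro N' hYN hN' hP hNP
    rw [τn N' hYN] at hNP
    have hnp := (mem_np.1 hNP).2
    unfold Priv at hnp
    push Not at hnp
    obtain ⟨e, he, ht, z, hz, hz1, hz2⟩ := hnp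
    obtain ⟨x, hx, hxN⟩ := touch_end.1 ht
    obtain ⟨hx1, hx2⟩ := Finset.mem_sdiff.1 hxN
    have h3 := hP e he (touch_end.2 ⟨x, hx, hx1⟩) z hz
    refine ⟨e, he, x, z, hx, hx1, hx2, hz, ?_, h3⟩
    by_contra hzZ
    rcases h3 with h3 | h3
    · exact hz1 (Finset.mem_sdiff.2 ⟨h3, hzZ⟩)
    · exact hz2 ((hbag z).2 ⟨h3, hzZ⟩)
  have hval := h.val.nd M hM
  by_cases hA : ∀ v ∈ Bag F M, v ∉ Z
  · have h1 := np_count (G := G) (F := F) (M := M) τ hkid ∅ (by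
      intro N' hN' hP hNP
      exfalso
      by_cases hYN : Y ⊆ N'
      · have hle : G.d (Z ∩ N') ≤ G.d Z := by
          apply d_mono
          intro f hf hfc
          obtain ⟨p, q, hp, hpZ, hq, hqZ⟩ := cross_ends hfc
          rw [Finset.mem_inter] at hpZ hqZ
          refine cross_of hp hpZ.1 hq fun hqZ' => ?_
          rcases hP f hf (touch_end.2 ⟨p, hp, hpZ.2⟩) q hq with h2 | h2
          · exact hqZ ⟨hqZ', h2⟩
          · exact hA q h2 hqZ'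
        by_cases hlam : Lam N' Z
        · rcases hlam with h2 | h2 | h2
          · have h3 := h.low N' hN'.1 hYN (h2.trans h.hZX)
            rw [Finset.inter_eq_right.2 h2] at hle
            omega
          · rw [τY N' hYN, Finset.union_eq_left.2 h2] at hNP
            have hnp := (mem_np.1 hNP).2
            apply hnp
            intro f hf ht z hz
            rcases hP f hf ht z hz with h3 | h3
            · exact Or.inl h3
            · exact Or.inr ((hbag z).2 ⟨h3, hA z h3⟩)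
          · exact Finset.disjoint_left.1 h2 (hYN hy) hyZ
        · have := h.inter_gt hN'.1 hlam hYN
          omega
      · obtain ⟨e, he, x, z, hx, hx1, hx2, hz, hzZ, hz1⟩ := htouch N' hYN hN' hP hNP
        have hzN : z ∈ N' := by
          rcases hz1 with h1 | h1
          · exact h1
          · exact absurd hzZ (hA z h1)
        have hd : Disjoint N' Y := by
          rcases hl N' hN'.1 Y h.hY with h6 | h6 | h6
          · exact absurd (h.hYZ (h6 hx1)) hx2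
          · exact absurd h6 hYN
          · exact h6
        exact h.priv_cross hN'.1 hP hA hd hx1 hx2 hzN hzZ)
    have h2 : (Bag (Exch F Y X Z) (M ∪ Z)).card ≤ (Bag F M).card :=
      Finset.card_le_card fun v hv => ((hbag v).1 hv).1
    exact arith_bag' hval (by simpa using h1) h2
  · set B : Finset (Finset ℕ) := F.filter fun N' => ¬ Y ⊆ N' ∧ IsKid F M N' ∧ Priv G F M N' ∧
        τ N' ∈ NP G (Exch F Y X Z) (M ∪ Z) with hB
    have h1 := np_count (G := G) (F := F) (M := M) τ hkid (insert N0 B)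
      (fun N' hN' hP hNP => by
        rw [Finset.mem_insert]
        by_cases hYN : Y ⊆ N'
        · exact Or.inl (hkY N' hN' (hYN hy))
        · exact Or.inr (Finset.mem_filter.2 ⟨hN'.1, hYN, hN', hP, hNP⟩))
    have h2 := bad_count hl (M := M) (G.bd Z) (fun e he => (G.mem_bd.1 he).1) B (by
      intro N' hN'
      obtain ⟨_, hYN, hk, hP, hNP⟩ := Finset.mem_filter.1 hN'
      obtain ⟨e, he, x, z, hx, hx1, hx2, hz, hzZ, hz1⟩ := htouch N' hYN hk hP hNP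
      exact ⟨hk, hP, e, G.mem_bd.2 ⟨he, cross_of hz hzZ hx hx2⟩, touch_end.2 ⟨x, hx, hx1⟩⟩)
    have h3 : (Bag (Exch F Y X Z) (M ∪ Z)).card + 1 ≤ (Bag F M).card := by
      apply Finset.card_lt_card
      rw [Finset.ssubset_iff_of_subset fun v hv => ((hbag v).1 hv).1]
      push Not at hA
      obtain ⟨v, hv, hvZ⟩ := hA
      exact ⟨v, hv, fun h' => ((hbag v).1 h').2 hvZ⟩
    have h4 := h.dZ_lt
    have h5 : G.d Z = (G.bd Z).card := rfl
    have h6 := Finset.card_insert_le N0 B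
    exact arith_bag hval h1 (by omega) h3

/-- the new family is valid -/
theorem exch_val (h : Exs G V0 K N F Y X Z) : Val G V0 K N (Exch F Y X Z) := by
  classical
  obtain ⟨y, hy⟩ := h.Y_ne
  have hyZ := h.hYZ hy
  have hXV := h.val.sub X h.hX
  have hYV := h.val.sub Y h.hY
  have hZV := h.hZX.trans hXV
  refine ⟨?_, ?_, ?_, h.exch_lam, h.exch_ord, ?_⟩
  · refine mem_exch.2 ⟨⟨y, hYV hy⟩, Or.inr (Or.inl ⟨V0, h.val.top, hYV, ?_⟩)⟩
    exact Finset.union_eq_left.2 hZV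
  · exact fun M hM => (mem_exch.1 hM).1
  · intro W hW
    obtain ⟨_, ⟨M1, hM1, _, rfl⟩ | ⟨M1, hM1, _, rfl⟩ | ⟨M1, hM1, _, rfl⟩⟩ := mem_exch.1 hW
    · exact Finset.inter_subset_left.trans (h.val.sub M1 hM1)
    · exact Finset.union_subset (h.val.sub M1 hM1) hZV
    · exact Finset.sdiff_subset.trans (h.val.sub M1 hM1)
  · intro W hW
    -- type I
    have hI : (∃ M ∈ F, M ⊆ X ∧ M ∩ Z = W) →
        (NP G (Exch F Y X Z) W).card + (K + 1) * (Bag (Exch F Y X Z) W).card ≤ N := by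
      rintro ⟨M1, hM1, hX1, hW1⟩
      obtain ⟨M, hMm, hmin⟩ := Finset.exists_min_image
        (F.filter fun M => M ⊆ X ∧ M ∩ Z = W) (fun M => M.card)
        ⟨M1, Finset.mem_filter.2 ⟨hM1, hX1, hW1⟩⟩
      obtain ⟨hM, hMX, rfl⟩ := Finset.mem_filter.1 hMm
      refine h.ndI hM hMX ?_
      intro N' hN' hNM hcon
      have h1 := hmin N' (Finset.mem_filter.2 ⟨hN', hNM.subset.trans hMX, hcon⟩)
      have h2 := Finset.card_lt_card hNM
      omega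
    obtain ⟨hne, h1 | ⟨M1, hM1, hY1, hW1⟩ | ⟨M1, hM1, hY1, hW1⟩⟩ := mem_exch.1 hW
    · exact hI h1
    · by_cases hWZ : W = Z
      · apply hI
        exact ⟨X, h.hX, Finset.Subset.refl _, by rw [hWZ]; exact Finset.inter_eq_right.2 h.hZX⟩
      · obtain ⟨M, hMm, hmin⟩ := Finset.exists_min_image
          (F.filter fun M => Y ⊆ M ∧ M ∪ Z = W) (fun M => M.card)
          ⟨M1, Finset.mem_filter.2 ⟨hM1, hY1, hW1⟩⟩
        obtain ⟨hM, hYM, rfl⟩ := Finset.mem_filter.1 hMm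
        refine h.ndII hM hYM hWZ ?_
        intro N' hN' hYN hNM hcon
        have h1 := hmin N' (Finset.mem_filter.2 ⟨hN', hYN, hcon⟩)
        have h2 := Finset.card_lt_card hNM
        omega
    · obtain ⟨M, hMm, hmin⟩ := Finset.exists_min_image
        (F.filter fun M => Disjoint M Y ∧ M \ Z = W) (fun M => M.card)
        ⟨M1, Finset.mem_filter.2 ⟨hM1, hY1, hW1⟩⟩
      obtain ⟨hM, hYM, rfl⟩ := Finset.mem_filter.1 hMm
      refine h.ndIII hM hYM ?_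
      intro N' hN' hNM hcon
      have h1 := hmin N' (Finset.mem_filter.2 ⟨hN', hYM.mono_left hNM.subset, hcon⟩)
      have h2 := Finset.card_lt_card hNM
      omega

end Exs

end Pool.Agent.W2411c4
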