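import Mathlib

/-! The gap lemma: minimal bad sequences at each level of the label. -/

set_option autoImplicit false

open Set Set.PartiallyWellOrderedOn

namespace Pool.Agent.W2411c4

section

variable {N P : Type}

/-- `z` is below `x` by a chain of kids with labels at least `m` strictly in between -/
inductive Ch (lab : N → ℕ) (kids : N → Set N) (m : ℕ) (x : N) : N → Prop
  | one {z : N} : z ∈ kids x → Ch lab kids m x z
  | step {w z : N} : Ch lab kids m x w → m ≤ lab w → z ∈ kids w → Ch lab kids m x z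

theorem Ch.sz_lt {lab : N → ℕ} {kids : N → Set N} {m : ℕ} {x z : N} {sz : N → ℕ}
    (hsz : ∀ x, ∀ z ∈ kids x, sz z < sz x) (h : Ch lab kids m x z) : sz z < sz x := by
  induction h with
  | one hz => exact hsz _ _ hz
  | step _ _ hz ih => exact (hsz _ _ hz).trans ih

theorem gap_claim {R : P → P → Prop} [IsPreorder P R] (π : P → N) (hπ : Function.Surjective π)
    (lab sz : N → ℕ) (kids : N → Set N) (K : ℕ) (hK : ∀ x, lab x ≤ K)
    (hsz : ∀ x, ∀ z ∈ kids x, sz z < sz x)
    (hnode : ∀ W : Set P, W.PartiallyWellOrderedOn R →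
      {p | ∀ z ∈ kids (π p), ∃ q ∈ W, π q = z}.PartiallyWellOrderedOn R)
    (hlink : ∀ p z, Ch lab kids (lab (π p)) (π p) z → lab z = lab (π p) → ∃ q, π q = z ∧ R q p)
    (n : ℕ) : ∀ (j : ℕ), K + 1 ≤ j + n → ∀ (I : Set N) (W : Set P), W.PartiallyWellOrderedOn R →
      (∀ x ∈ I, j ≤ lab x) → (∀ x ∈ I, ∀ z ∈ kids x, z ∈ I ∨ ∃ q ∈ W, π q = z) →
      {p | π p ∈ I}.PartiallyWellOrderedOn R := by
  induction n with
  | zero =>
    intro j hj I W _ hI _
    rw [partiallyWellOrderedOn_iff_exists_lt]
    intro f hf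
    have h1 := hI _ (hf 0)
    have h2 := hK (π (f 0))
    omega
  | succ n ih =>
    intro j hj I W hW hI hk
    have key : {p | π p ∈ I ∧ lab (π p) = j}.PartiallyWellOrderedOn R := by
      rw [iff_not_exists_isMinBadSeq (fun p => sz (π p))]
      rintro ⟨f, ⟨hf, hbad⟩, hmin⟩
      let D : Set P := {q | (π q ∈ I ∧ lab (π q) = j) ∧ ∃ i, R q (f i) ∧ sz (π q) < sz (π (f i))}
      have hD : D.PartiallyWellOrderedOn R := by
        rw [partiallyWellOrderedOn_iff_exists_lt]
        intro g hg
        by_contra hcon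
        push Not at hcon
        choose ix hix using fun n => (hg n).2
        obtain ⟨n0, hn0⟩ : ∃ n0, ∀ n, ix n0 ≤ ix n := by
          have hne : ∃ v, ∃ n, ix n = v := ⟨_, 0, rfl⟩
          classical
          obtain ⟨n0, h0⟩ := Nat.find_spec hne
          exact ⟨n0, fun n => h0 ▸ Nat.find_min' hne ⟨n, rfl⟩⟩
        refine hmin (ix n0) (fun m => if m < ix n0 then f m else g (n0 + (m - ix n0))) ?_ ?_ ⟨?_, ?_⟩
        · intro m hm
          simp only [if_pos hm]
        · simp only [lt_irrefl, if_false, Nat.sub_self, Nat.add_zero]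
          exact (hix n0).2
        · intro m
          by_cases hm : m < ix n0
          · simp only [if_pos hm]
            exact hf m
          · simp only [if_neg hm]
            exact (hg _).1
        · intro m m' hmm
          by_cases hm' : m' < ix n0
          · have hm : m < ix n0 := hmm.trans hm'
            simp only [if_pos hm, if_pos hm']
            exact hbad m m' hmm
          · by_cases hm : m < ix n0
            · simp only [if_pos hm, if_neg hm']
              intro hr
              have h1 := (hix (n0 + (m' - ix n0))).1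
              have h2 := hn0 (n0 + (m' - ix n0))
              exact hbad m _ (hm.trans_le h2) (_root_.trans hr h1)
            · simp only [if_neg hm, if_neg hm']
              exact hcon _ _ (by omega)
      let T : Set N := {z | z ∈ I ∧ j + 1 ≤ lab z ∧ ∃ i, Ch lab kids j (π (f i)) z}
      -- kids at a chain node
      have hkid : ∀ i w, Ch lab kids j (π (f i)) w → w ∈ I →
          w ∈ T ∨ ∃ q ∈ W ∪ D, π q = w := by
        intro i w hch hwI
        have hlw := hI w hwI
        by_cases hlj : lab w = j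
        · right
          have hfi : lab (π (f i)) = j := (hf i).2
          obtain ⟨q, hq, hqR⟩ := hlink (f i) w (by rw [hfi]; exact hch) (by rw [hfi, hlj])
          refine ⟨q, Or.inr ⟨⟨hq ▸ hwI, hq ▸ hlj⟩, i, hqR, ?_⟩, hq⟩
          rw [hq]
          exact hch.sz_lt hsz
        · left
          exact ⟨hwI, by omega, i, hch⟩
      have hWD : (W ∪ D).PartiallyWellOrderedOn R := hW.union hD
      have hT : {p | π p ∈ T}.PartiallyWellOrderedOn R := by
        refine ih (j + 1) (by omega) T (W ∪ D) hWD (fun x hx => hx.2.1) ?_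
        rintro x ⟨hxI, hxl, i, hch⟩ z hz
        rcases hk x hxI z hz with hzI | ⟨q, hqW, hq⟩
        · exact hkid i z (Ch.step hch (by omega) hz) hzI
        · exact Or.inr ⟨q, Or.inl hqW, hq⟩
      have hall := hnode ((W ∪ D) ∪ {p | π p ∈ T}) (hWD.union hT)
      rw [partiallyWellOrderedOn_iff_exists_lt] at hall
      obtain ⟨m, m', hmm, hr⟩ := hall f (by
        intro i z hz
        rcases hk _ (hf i).1 z hz with hzI | ⟨q, hqW, hq⟩
        · rcases hkid i z (Ch.one hz) hzI with hzT | ⟨q, hqW, hq⟩
          · obtain ⟨q, hq⟩ := hπ z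
            exact ⟨q, Or.inr (by show π q ∈ T; rw [hq]; exact hzT), hq⟩
          · exact ⟨q, Or.inl hqW, hq⟩
        · exact ⟨q, Or.inl (Or.inl hqW), hq⟩)
      exact hbad m m' hmm hr
    have h2 : {p | π p ∈ {x | x ∈ I ∧ j + 1 ≤ lab x}}.PartiallyWellOrderedOn R := by
      refine ih (j + 1) (by omega) _ (W ∪ {p | π p ∈ I ∧ lab (π p) = j}) (hW.union key)
        (fun x hx => hx.2) ?_
      rintro x ⟨hxI, hxl⟩ z hz
      rcases hk x hxI z hz with hzI | ⟨q, hqW, hq⟩
      · by_cases hlj : lab z = j
        · right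
          obtain ⟨q, hq⟩ := hπ z
          exact ⟨q, Or.inr (by show π q ∈ I ∧ lab (π q) = j; rw [hq]; exact ⟨hzI, hlj⟩), hq⟩
        · left
          exact ⟨hzI, by have := hI z hzI; omega⟩
      · exact Or.inr ⟨q, Or.inl hqW, hq⟩
    refine (key.union h2).mono ?_
    intro p hp
    by_cases hlj : lab (π p) = j
    · exact Or.inl ⟨hp, hlj⟩
    · exact Or.inr ⟨hp, by have := hI _ hp; omega⟩

/-- **Gap lemma.** -/
theorem gap {R : P → P → Prop} [IsPreorder P R] (π : P → N) (hπ : Function.Surjective π)
    (lab sz : N → ℕ) (kids : N → Set N) (K : ℕ) (hK : ∀ x, lab x ≤ K)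
    (hsz : ∀ x, ∀ z ∈ kids x, sz z < sz x)
    (hnode : ∀ W : Set P, W.PartiallyWellOrderedOn R →
      {p | ∀ z ∈ kids (π p), ∃ q ∈ W, π q = z}.PartiallyWellOrderedOn R)
    (hlink : ∀ p z, Ch lab kids (lab (π p)) (π p) z → lab z = lab (π p) → ∃ q, π q = z ∧ R q p) :
    ∀ f : ℕ → P, ∃ m n, m < n ∧ R (f m) (f n) := by
  have h := gap_claim π hπ lab sz kids K hK hsz hnode hlink (K + 1) 0 (by omega) Set.univ ∅
    (partiallyWellOrderedOn_empty R) (fun x _ => Nat.zero_le _) (fun x _ z _ => Or.inl (Set.mem_univ _))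
  intro f
  exact h.exists_lt (f := f) (fun n => Set.mem_univ _)

end

end Pool.Agent.W2411c4
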