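import Pool.Agent.W_2411c4_h59.Trans
import Pool.Agent.W_895653_h19.MengerB

/-! Linked pieces of the same graph with the same number of boundary edges are comparable. -/

set_option autoImplicit false

namespace Pool.Agent.W2411c4

variable {Q : Type}

open Gr

theorem link [Preorder Q] {G : Gr Q} {X Y : Finset ℕ} (hYX : Y ⊆ X) (oX : En G X)
    (hd : G.d Y = G.d X) (hsep : ∀ Z : Finset ℕ, Y ⊆ Z → Z ⊆ X → G.d Y ≤ G.d Z) :
    ∃ oY : En G Y, Rp ⟨G, Y, oY⟩ ⟨G, X, oX⟩ := by
  classical
  let U : Finset ℕ := G.E.filter fun e => G.Touch X e ∧ ¬ G.Inner Y e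
  have memU : ∀ e, e ∈ U ↔ e ∈ G.E ∧ G.Touch X e ∧ ¬ G.Inner Y e := by simp [U]
  have hbX : ∀ e, e ∈ G.bd X → e ∈ U := by
    intro e he
    obtain ⟨h1, h2⟩ := G.mem_bd.1 he
    exact (memU e).2 ⟨h1, h2.touch, fun h => h2.not_inner ⟨hYX h.1, hYX h.2⟩⟩
  have hbY : ∀ e, e ∈ G.bd Y → e ∈ U := by
    intro e he
    obtain ⟨h1, h2⟩ := G.mem_bd.1 he
    refine (memU e).2 ⟨h1, ?_, h2.not_inner⟩
    rcases h2.touch with h | h
    · exact Or.inl (hYX h)
    · exact Or.inr (hYX h)
  let V : Type := {e // e ∈ U}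
  let D : V → V → Prop := fun e f => ∃ v, G.Inc e.1 v ∧ G.Inc f.1 v
  let A : Finset V := Finset.univ.filter fun e => G.Cross X e.1
  let B : Finset V := Finset.univ.filter fun e => G.Cross Y e.1
  have memA : ∀ e : V, e ∈ A ↔ e.1 ∈ G.bd X := by
    intro e
    simp only [A, Finset.mem_filter, Finset.mem_univ, true_and, G.mem_bd]
    exact ⟨fun h => ⟨((memU _).1 e.2).1, h⟩, fun h => h.2⟩
  have memB : ∀ e : V, e ∈ B ↔ e.1 ∈ G.bd Y := by
    intro e
    simp only [B, Finset.mem_filter, Finset.mem_univ, true_and, G.mem_bd]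
    exact ⟨fun h => ⟨((memU _).1 e.2).1, h⟩, fun h => h.2⟩
  have cardA : A.card = G.d X := by
    have h1 : A.image (fun e => e.1) = G.bd X := by
      ext e
      rw [Finset.mem_image]
      constructor
      · rintro ⟨f, hf, rfl⟩
        exact (memA f).1 hf
      · intro he
        exact ⟨⟨e, hbX e he⟩, (memA _).2 he, rfl⟩
    rw [Gr.d, ← h1, Finset.card_image_of_injective _ Subtype.val_injective]
  have cardB : B.card = G.d Y := by
    have h1 : B.image (fun e => e.1) = G.bd Y := by
      ext e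
      rw [Finset.mem_image]
      constructor
      · rintro ⟨f, hf, rfl⟩
        exact (memB f).1 hf
      · intro he
        exact ⟨⟨e, hbY e he⟩, (memB _).2 he, rfl⟩
    rw [Gr.d, ← h1, Finset.card_image_of_injective _ Subtype.val_injective]
  have hM : Nonempty (Pool.Agent.W895653.Lk D A B (G.d X)) := by
    apply Pool.Agent.W895653.menger_thm
    intro S hS
    by_contra hcon
    let R : V → Prop := fun e => ∃ a ∈ A, a ∉ S ∧
      Relation.ReflTransGen (fun x y => D x y ∧ y ∉ S) a e
    have hRS : ∀ e, R e → e ∉ S := by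
      rintro e ⟨a, _, haS, hr⟩
      rcases hr.cases_tail with rfl | ⟨c, _, hc⟩
      · exact haS
      · exact hc.2
    let Z : Finset ℕ := X.filter fun v => ¬ ∃ e, R e ∧ G.Inc e.1 v
    have hYZ : Y ⊆ Z := by
      intro y hy
      rw [Finset.mem_filter]
      refine ⟨hYX hy, ?_⟩
      rintro ⟨e, hR, hey⟩
      have hR' := hR
      obtain ⟨a, haA, haS, hr⟩ := hR
      apply hcon
      refine ⟨a, haA, haS, e, ?_, hRS e hR', hr⟩
      rw [memB, G.mem_bd]
      have he := (memU _).1 e.2
      refine ⟨he.1, ?_⟩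
      have ht : G.Touch Y e.1 := by
        rcases hey with h | h
        · exact Or.inl (h ▸ hy)
        · exact Or.inr (h ▸ hy)
      rcases touch_iff.1 ht with h | h
      · exact absurd h he.2.2
      · exact h
    have hZX : Z ⊆ X := Finset.filter_subset _ _
    have hbd : G.bd Z ⊆ S.image (fun e => e.1) := by
      intro e he
      obtain ⟨heE, hec⟩ := G.mem_bd.1 he
      -- the two ends
      obtain ⟨x, y, hx, hy, hxZ, hyZ⟩ : ∃ x y, G.Inc e x ∧ G.Inc e y ∧ x ∈ Z ∧ y ∉ Z := by
        rcases hec with h | h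
        · exact ⟨_, _, Or.inl rfl, Or.inr rfl, h.1, h.2⟩
        · exact ⟨_, _, Or.inr rfl, Or.inl rfl, h.2, h.1⟩
      have hxX := hZX hxZ
      have htX : G.Touch X e := by
        rcases hx with h | h
        · exact Or.inl (h ▸ hxX)
        · exact Or.inr (h ▸ hxX)
      have hnY : ¬ G.Inner Y e := by
        intro h
        apply hyZ
        apply hYZ
        rcases hy with rfl | rfl
        · exact h.1
        · exact h.2
      have heU : e ∈ U := (memU e).2 ⟨heE, htX, hnY⟩
      by_contra heS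
      have heS' : (⟨e, heU⟩ : V) ∉ S := fun h => heS (Finset.mem_image.2 ⟨_, h, rfl⟩)
      have hRe : R ⟨e, heU⟩ := by
        by_cases hyX : y ∈ X
        · have : ∃ f, R f ∧ G.Inc f.1 y := by
            by_contra hno
            exact hyZ (Finset.mem_filter.2 ⟨hyX, hno⟩)
          obtain ⟨f, ⟨a, haA, haS, hr⟩, hfy⟩ := this
          exact ⟨a, haA, haS, hr.tail ⟨⟨y, hfy, hy⟩, heS'⟩⟩
        · refine ⟨⟨e, heU⟩, ?_, heS', Relation.ReflTransGen.refl⟩
          rw [memA, G.mem_bd]
          refine ⟨heE, ?_⟩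
          rcases touch_iff.1 htX with h | h
          · exfalso
            apply hyX
            rcases hy with rfl | rfl
            · exact h.1
            · exact h.2
          · exact h
      exact (Finset.mem_filter.1 hxZ).2 ⟨_, hRe, hx⟩
    have h1 := hsep Z hYZ hZX
    have h2 := Finset.card_le_card hbd
    have h3 := Finset.card_image_le (s := S) (f := fun e => e.1)
    have h4 : G.d Z = (G.bd Z).card := rfl
    omega
  obtain ⟨L⟩ := hM
  have hoX : oX.n = G.d X := oX.n_eq
  -- every boundary edge of `X` is a start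
  have hst : ∀ e : V, e ∈ A → ∃ j, L.p j 0 = e := by
    have h1 : Finset.univ.image (fun j => L.p j 0) = A := by
      apply Finset.eq_of_subset_of_card_le
      · intro e he
        obtain ⟨j, _, rfl⟩ := Finset.mem_image.1 he
        exact L.start j
      · rw [Finset.card_image_of_injective, Finset.card_univ, Fintype.card_fin, cardA]
        intro i j hij
        exact (L.inj i 0 j 0 (Nat.zero_le _) (Nat.zero_le _) hij).1
    intro e he
    rw [← h1] at he
    obtain ⟨j, _, hj⟩ := Finset.mem_image.1 he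
    exact ⟨j, hj⟩
  have hsp : ∀ e : V, e ∈ B → ∃ j, L.p j (L.len j) = e := by
    have h1 : Finset.univ.image (fun j => L.p j (L.len j)) = B := by
      apply Finset.eq_of_subset_of_card_le
      · intro e he
        obtain ⟨j, _, rfl⟩ := Finset.mem_image.1 he
        exact L.stop j
      · rw [Finset.card_image_of_injective, Finset.card_univ, Fintype.card_fin, cardB, hd]
        intro i j hij
        exact (L.inj i _ j _ le_rfl le_rfl hij).1
    intro e he
    rw [← h1] at he
    obtain ⟨j, _, hj⟩ := Finset.mem_image.1 he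
    exact ⟨j, hj⟩
  have key : ∀ i, i < oX.n → ∃ j, (L.p j 0).1 = oX.o i := by
    intro i hi
    have h1 : oX.o i ∈ G.bd X := (oX.mem _).1 ⟨i, hi, rfl⟩
    obtain ⟨j, hj⟩ := hst ⟨oX.o i, hbX _ h1⟩ ((memA _).2 h1)
    exact ⟨j, by rw [hj]⟩
  choose s hs using key
  let last : ℕ → ℕ := fun i => if h : i < oX.n then (L.p (s i h) (L.len (s i h))).1 else 0
  have hlast : ∀ i (h : i < oX.n), last i = (L.p (s i h) (L.len (s i h))).1 := by
    intro i h
    simp only [last, dif_pos h]
  let P : ℕ → Set ℕ := fun i => {f | ∃ h : i < oX.n, ∃ n, n ≤ L.len (s i h) ∧ (L.p (s i h) n).1 = f}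
  have sinj : ∀ i (hi : i < oX.n) j (hj : j < oX.n), s i hi = s j hj → i = j := by
    intro i hi j hj h
    have h1 := hs i hi
    have h2 := hs j hj
    rw [h] at h1
    exact oX.inj i hi j hj (h1.symm.trans h2)
  have linj : ∀ i < oX.n, ∀ j < oX.n, last i = last j → i = j := by
    intro i hi j hj h
    rw [hlast i hi, hlast j hj] at h
    exact sinj i hi j hj (L.inj _ _ _ _ le_rfl le_rfl (Subtype.ext h)).1
  have lmem : ∀ e, (∃ i < oX.n, last i = e) ↔ e ∈ G.bd Y := by
    intro e
    constructor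
    · rintro ⟨i, hi, rfl⟩
      rw [hlast i hi]
      exact (memB _).1 (L.stop _)
    · intro he
      obtain ⟨j, hj⟩ := hsp ⟨e, hbY e he⟩ ((memB _).2 he)
      obtain ⟨i, hi, hij⟩ := (oX.mem _).2 ((memA _).1 (L.start j))
      refine ⟨i, hi, ?_⟩
      rw [hlast i hi]
      have h1 : s i hi = j := by
        have h2 := hs i hi
        rw [hij] at h2
        exact (L.inj _ _ _ _ (Nat.zero_le _) (Nat.zero_le _) (Subtype.ext h2)).1
      rw [h1, hj]
  let oY : En G Y := ⟨oX.n, last, linj, lmem⟩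
  -- facts on the paths
  have PU : ∀ i, ∀ f ∈ P i, f ∈ U := by
    rintro i f ⟨h, n, _, rfl⟩
    exact (L.p (s i h) n).2
  have PX : ∀ i, ∀ f ∈ P i, f = oX.o i ∨ ¬ G.Cross X f := by
    rintro i f ⟨h, n, hn, rfl⟩
    by_cases hc : G.Cross X (L.p (s i h) n).1
    · left
      have hA : L.p (s i h) n ∈ A :=
        (memA _).2 (G.mem_bd.2 ⟨((memU _).1 (L.p (s i h) n).2).1, hc⟩)
      obtain ⟨j, hj⟩ := hst _ hA
      obtain ⟨h1, h2⟩ := L.inj _ _ _ _ (Nat.zero_le _) hn hj
      rw [← h2]
      exact hs i h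
    · exact Or.inr hc
  have PY : ∀ i, ∀ f ∈ P i, f = last i ∨ ¬ G.Cross Y f := by
    rintro i f ⟨h, n, hn, rfl⟩
    by_cases hc : G.Cross Y (L.p (s i h) n).1
    · left
      have hB : L.p (s i h) n ∈ B :=
        (memB _).2 (G.mem_bd.2 ⟨((memU _).1 (L.p (s i h) n).2).1, hc⟩)
      obtain ⟨j, hj⟩ := hsp _ hB
      obtain ⟨h1, h2⟩ := L.inj _ _ _ _ le_rfl hn hj
      rw [hlast i h, ← h2, h1]
    · exact Or.inr hc
  have Pst : ∀ i < oX.n, oX.o i ∈ P i := fun i hi => ⟨hi, 0, Nat.zero_le _, hs i hi⟩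
  have Pdisj : ∀ i j, i ≠ j → Disjoint (P i) (P j) := by
    intro i j hij
    rw [Set.disjoint_left]
    rintro f ⟨hi, n, hn, rfl⟩ ⟨hj, n', hn', h⟩
    exact hij (sinj i hi j hj (L.inj _ _ _ _ hn' hn (Subtype.ext h)).1.symm)
  have Pconn : ∀ i < oX.n, ∀ z, G.Inc (oX.o i) z → ∀ x, G.Inc (last i) x → G.Conn (P i) z x := by
    intro i hi z hz x hx
    have h1 : ∀ n, n ≤ L.len (s i hi) → ∀ x, G.Inc (L.p (s i hi) n).1 x → G.Conn (P i) z x := by
      intro n
      induction n with
      | zero =>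
        intro hn x hx
        rw [hs i hi] at hx
        exact conn_edge (Pst i hi) hz hx
      | succ n ih =>
        intro hn x hx
        obtain ⟨v, hv1, hv2⟩ := L.step (s i hi) n (by omega)
        exact (ih (by omega) v hv1).trans (conn_edge (e := (L.p (s i hi) (n + 1)).1)
          ⟨hi, n + 1, hn, rfl⟩ hv2 hx)
    rw [hlast i hi] at hx
    exact h1 _ le_rfl x hx
  -- the immersion
  let Φ : ℕ → Set ℕ := fun e => {f | (G.Inner Y e ∧ f = e) ∨
    (¬ G.Inner Y e ∧ ∃ i < oX.n, last i = e ∧ f ∈ P i)}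
  have Φin : ∀ e, G.Inner Y e → Φ e = {e} := by
    intro e he
    ext f
    simp only [Φ, Set.mem_ofPred_eq, Set.mem_singleton_iff]
    tauto
  have lcross : ∀ i < oX.n, G.Cross Y (last i) := by
    intro i hi
    exact (G.mem_bd.1 ((lmem _).1 ⟨i, hi, rfl⟩)).2
  have Φbd : ∀ i < oX.n, Φ (last i) = P i := by
    intro i hi
    ext f
    simp only [Φ, Set.mem_ofPred_eq]
    constructor
    · rintro (⟨h, _⟩ | ⟨_, j, hj, hji, hf⟩)
      · exact absurd h (lcross i hi).not_inner
      · rw [linj j hj i hi hji] at hf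
        exact hf
    · exact fun hf => Or.inr ⟨(lcross i hi).not_inner, i, hi, rfl, hf⟩
  have Φcases : ∀ e ∈ G.E, G.Touch Y e → G.Inner Y e ∨ ∃ i < oX.n, last i = e := by
    intro e he ht
    rcases touch_iff.1 ht with h | h
    · exact Or.inl h
    · exact Or.inr ((lmem e).2 (G.mem_bd.2 ⟨he, h⟩))
  refine ⟨oY, id, Φ, ?_⟩
  constructor
  · rfl
  · exact fun x hx => hYX hx
  · exact fun x _ y _ h => h
  · exact fun x _ => le_rfl
  · intro e he hi f hf
    rw [Φin e hi] at hf
    rw [Set.mem_singleton_iff.1 hf]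
    exact ⟨he, hYX hi.1, hYX hi.2⟩
  · intro i hi f hf
    change f ∈ Φ (last i) at hf
    rw [Φbd i hi] at hf
    rcases PX i f hf with h | h
    · exact Or.inl h
    · right
      have h1 := (memU f).1 (PU i f hf)
      refine ⟨h1.1, ?_⟩
      rcases touch_iff.1 h1.2.1 with h2 | h2
      · exact h2
      · exact absurd h2 h
  · intro i hi
    show oX.o i ∈ Φ (last i)
    rw [Φbd i hi]
    exact Pst i hi
  · intro e he hi
    show G.Conn (Φ e) (G.a e) (G.b e)
    rw [Φin e hi]
    exact conn_edge rfl (Or.inl rfl) (Or.inr rfl)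
  · intro i hi x hx _ z hz
    show G.Conn (Φ (last i)) z x
    rw [Φbd i hi]
    exact Pconn i hi z hz x hx
  · intro e he f hf hte htf hef
    rcases Φcases e he hte with h1 | ⟨i, hi, rfl⟩ <;> rcases Φcases f hf htf with h2 | ⟨j, hj, rfl⟩
    · rw [Φin e h1, Φin f h2]
      simpa using hef
    · rw [Φin e h1, Φbd j hj, Set.disjoint_left]
      intro g hg hg'
      rw [Set.mem_singleton_iff.1 hg] at hg'
      exact ((memU e).1 (PU j e hg')).2.2 h1
    · rw [Φin f h2, Φbd i hi, Set.disjoint_left]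
      intro g hg' hg
      rw [Set.mem_singleton_iff.1 hg] at hg'
      exact ((memU f).1 (PU i f hg')).2.2 h2
    · rw [Φbd i hi, Φbd j hj]
      exact Pdisj i j (fun h => hef (by rw [h]))
  · intro e he hte y hy hey f hf
    show ¬ G.Inc f y
    rcases Φcases e he hte with h1 | ⟨i, hi, rfl⟩
    · rw [Φin e h1] at hf
      rw [Set.mem_singleton_iff.1 hf]
      exact hey
    · rw [Φbd i hi] at hf
      intro hc
      have h1 := (memU f).1 (PU i f hf)
      rcases PY i f hf with h | h
      · exact hey (h ▸ hc)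
      · have ht : G.Touch Y f := by
          rcases hc with h' | h'
          · exact Or.inl (h' ▸ hy)
          · exact Or.inr (h' ▸ hy)
        rcases touch_iff.1 ht with h2 | h2
        · exact h1.2.2 h2
        · exact h h2

end Pool.Agent.W2411c4
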