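import Pool.Agent.W_2411c4_h59.ExchVal

/-! Linked valid families exist. -/

set_option autoImplicit false

namespace Pool.Agent.W2411c4

variable {Q : Type}

open Gr

/-- members `A ⊆ B` with all members in between of order at least `k` -/
def RelK (G : Gr Q) (k : ℕ) (F : Finset (Finset ℕ)) (A B : Finset ℕ) : Prop :=
  A ∈ F ∧ B ∈ F ∧ A ⊆ B ∧ ∀ N ∈ F, A ⊆ N → N ⊆ B → k ≤ G.d N

/-- `F'` is better than `F` -/
def Better (G : Gr Q) (F' F : Finset (Finset ℕ)) : Prop :=
  ∃ q, (∀ k, q ≤ k → ∀ A B, RelK G k F' A B → RelK G k F A B) ∧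
    ∃ A B, RelK G q F A B ∧ ¬ RelK G q F' A B

theorem better_trans {G : Gr Q} {F1 F2 F3 : Finset (Finset ℕ)} (h : Better G F1 F2)
    (h' : Better G F2 F3) : Better G F1 F3 := by
  obtain ⟨q, hq, A, B, hA, hB⟩ := h
  obtain ⟨q', hq', A', B', hA', hB'⟩ := h'
  rcases le_total q q' with hqq | hqq
  · exact ⟨q', fun k hk A B h => hq' k hk A B (hq k (hqq.trans hk) A B h), A', B', hA',
      fun h => hB' (hq q' hqq A' B' h)⟩
  · exact ⟨q, fun k hk A B h => hq' k (hqq.trans hk) A B (hq k hk A B h), A, B,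
      hq' q hqq A B hA, hB⟩

theorem better_irrefl {G : Gr Q} {F : Finset (Finset ℕ)} : ¬ Better G F F := by
  rintro ⟨q, _, A, B, hA, hB⟩
  exact hB hA

/-- linked families -/
def Linked (G : Gr Q) (F : Finset (Finset ℕ)) : Prop :=
  ∀ Y ∈ F, ∀ X ∈ F, ∀ Z, Y ⊆ Z → Z ⊆ X → ∃ M ∈ F, Y ⊆ M ∧ M ⊆ X ∧ G.d M ≤ G.d Z

theorem Exs.better {G : Gr Q} {V0 : Finset ℕ} {K N : ℕ} {F : Finset (Finset ℕ)}
    {Y X Z : Finset ℕ} (h : Exs G V0 K N F Y X Z) : Better G (Exch F Y X Z) F := by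
  classical
  obtain ⟨y, hy⟩ := h.Y_ne
  have hyZ := h.hYZ hy
  set s : ℕ := (F.filter fun M => ¬ Lam M Z).sup G.d with hs
  have hsle : ∀ M ∈ F, ¬ Lam M Z → G.d M ≤ s := fun M hM hc =>
    Finset.le_sup (f := G.d) (Finset.mem_filter.2 ⟨hM, hc⟩)
  set q : ℕ := max (G.d Z + 1) s with hq
  have hqZ : G.d Z < q := lt_of_lt_of_le (Nat.lt_succ_self _) (le_max_left _ _)
  have hqs : s ≤ q := le_max_right _ _
  have hmem : ∀ W ∈ Exch F Y X Z, q ≤ G.d W → W ∈ F ∧ Lam W Z := by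
    intro W hW hqW
    obtain ⟨⟨w, hw⟩, ⟨M, hM, hX, rfl⟩ | ⟨M, hM, hY, rfl⟩ | ⟨M, hM, hY, rfl⟩⟩ := mem_exch.1 hW
    · by_cases hl : Lam M Z
      · have hl' := hl
        rcases hl with h1 | h1 | h1
        · rw [Finset.inter_eq_left.2 h1]
          exact ⟨hM, hl'⟩
        · rw [Finset.inter_eq_right.2 h1] at hqW
          omega
        · exact absurd (Finset.mem_inter.1 hw).2 (Finset.disjoint_left.1 h1 (Finset.mem_inter.1 hw).1)
      · have h1 := h.ordI_lt hM hl
        have h2 := hsle M hM hl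
        omega
    · by_cases hl : Lam M Z
      · have hl' := hl
        rcases hl with h1 | h1 | h1
        · rw [Finset.union_eq_right.2 h1] at hqW
          omega
        · rw [Finset.union_eq_left.2 h1]
          exact ⟨hM, hl'⟩
        · exact absurd hyZ (Finset.disjoint_left.1 h1 (hY hy))
      · have h1 := h.ordII_lt hM hl hY
        have h2 := hsle M hM hl
        omega
    · by_cases hl : Lam M Z
      · have hl' := hl
        rcases hl with h1 | h1 | h1
        · exact absurd (h1 (Finset.mem_sdiff.1 hw).1) (Finset.mem_sdiff.1 hw).2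
        · exact absurd hy (Finset.disjoint_left.1 hY (h1 hyZ))
        · rw [Finset.sdiff_eq_self_of_disjoint h1]
          exact ⟨hM, hl'⟩
      · have h1 := h.ordIII_lt hM hl hY
        have h2 := hsle M hM hl
        omega
  have hun : ∀ M ∈ F, Lam M Z → M ∈ Exch F Y X Z := by
    intro M hM hl
    refine mem_exch.2 ⟨h.val.ne M hM, ?_⟩
    rcases hl with h1 | h1 | h1
    · exact Or.inl ⟨M, hM, h1.trans h.hZX, Finset.inter_eq_left.2 h1⟩
    · exact Or.inr (Or.inl ⟨M, hM, h.hYZ.trans h1, Finset.union_eq_left.2 h1⟩)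
    · exact Or.inr (Or.inr ⟨M, hM, h1.mono_right h.hYZ, Finset.sdiff_eq_self_of_disjoint h1⟩)
  refine ⟨q, ?_, ?_⟩
  · rintro k hk A B ⟨hA, hB, hAB, hall⟩
    have hdA := hall A hA (Finset.Subset.refl _) hAB
    have hdB := hall B hB hAB (Finset.Subset.refl _)
    obtain ⟨hAF, hAl⟩ := hmem A hA (hk.trans hdA)
    obtain ⟨hBF, hBl⟩ := hmem B hB (hk.trans hdB)
    refine ⟨hAF, hBF, hAB, ?_⟩
    intro M hM hAM hMB
    by_cases hl : Lam M Z
    · exact hall M (hun M hM hl) hAM hMB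
    · obtain ⟨a, ha⟩ := h.val.ne A hAF
      rcases hAl with h1 | h1 | h1
      · have hsub : A ⊆ M ∩ Z := Finset.subset_inter hAM h1
        have h2 := hall (M ∩ Z) (mem_exch.2 ⟨⟨a, hsub ha⟩, Or.inl ⟨M, hM, h.cross_sub hM hl, rfl⟩⟩)
          hsub (Finset.inter_subset_left.trans hMB)
        exact h2.trans (h.ordI (h.cross_sub hM hl))
      · exact absurd (Or.inr (Or.inl (h1.trans hAM))) hl
      · rcases h.cross_Y hM hl with h3 | h3
        · have hZB : Z ⊆ B := by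
            rcases hBl with h4 | h4 | h4
            · exact absurd (Or.inl (hMB.trans h4)) hl
            · exact h4
            · exact absurd (Or.inr (Or.inr (h4.mono_left hMB))) hl
          have h2 := hall (M ∪ Z) (mem_exch.2 ⟨⟨y, Finset.mem_union_right _ hyZ⟩,
            Or.inr (Or.inl ⟨M, hM, h3, rfl⟩)⟩) (hAM.trans Finset.subset_union_left)
            (Finset.union_subset hMB hZB)
          exact h2.trans (h.ordII h3)
        · have hsub : A ⊆ M \ Z := fun w hw =>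
            Finset.mem_sdiff.2 ⟨hAM hw, Finset.disjoint_left.1 h1 hw⟩
          have h2 := hall (M \ Z) (mem_exch.2 ⟨⟨a, hsub ha⟩,
            Or.inr (Or.inr ⟨M, hM, h3, rfl⟩)⟩) hsub (Finset.sdiff_subset.trans hMB)
          exact h2.trans (h.ordIII h3)
  · by_cases hcase : G.d Z + 1 ≤ s
    · have hqs' : q = s := max_eq_right hcase
      have hne : (F.filter fun M => ¬ Lam M Z).Nonempty := by
        by_contra hcon
        rw [Finset.not_nonempty_iff_eq_empty] at hcon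
        rw [hcon, Finset.sup_empty] at hs
        have : s = 0 := hs
        omega
      obtain ⟨M, hM, hMs⟩ := Finset.exists_mem_eq_sup _ hne G.d
      obtain ⟨hMF, hMl⟩ := Finset.mem_filter.1 hM
      have hMs' : G.d M = s := hMs.symm
      refine ⟨M, M, ⟨hMF, hMF, Finset.Subset.refl _, ?_⟩, ?_⟩
      · intro M' hM' h1 h2
        rw [← Finset.Subset.antisymm h1 h2, hqs', hMs']
      · rintro ⟨hM', _, _, _⟩
        exact hMl (hmem M hM' (by rw [hqs', hMs'])).2
    · have hqz : q = G.d Z + 1 := max_eq_left (by omega)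
      refine ⟨Y, X, ⟨h.hY, h.hX, h.hYZ.trans h.hZX, ?_⟩, ?_⟩
      · intro M hM h1 h2
        rw [hqz]
        exact h.low M hM h1 h2
      · rintro ⟨_, _, _, hall⟩
        have h1 := hall Z (mem_exch.2 ⟨⟨y, hyZ⟩, Or.inl ⟨X, h.hX, Finset.Subset.refl _,
          Finset.inter_eq_right.2 h.hZX⟩⟩) h.hYZ h.hZX
        omega

/-- **Linked valid families exist.** -/
theorem exists_linked {G : Gr Q} {V0 : Finset ℕ} {K N : ℕ} (hex : ∃ F, Val G V0 K N F) :
    ∃ F, Val G V0 K N F ∧ Linked G F := by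
  classical
  let T : Type := {F : Finset (Finset ℕ) // F ∈ V0.powerset.powerset ∧ Val G V0 K N F}
  have hT : ∀ F, Val G V0 K N F → F ∈ V0.powerset.powerset := by
    intro F hF
    rw [Finset.mem_powerset]
    intro M hM
    exact Finset.mem_powerset.2 (hF.sub M hM)
  haveI : Finite T := by
    have h1 : Set.Finite {F : Finset (Finset ℕ) | F ∈ V0.powerset.powerset ∧ Val G V0 K N F} :=
      (Finset.finite_toSet V0.powerset.powerset).subset fun F hF => hF.1
    exact h1.to_subtype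
  let r : T → T → Prop := fun A B => Better G A.1 B.1
  haveI : IsTrans T r := ⟨fun _ _ _ h h' => better_trans h h'⟩
  haveI : Std.Irrefl r := ⟨fun _ => better_irrefl⟩
  have hwf : WellFounded r := Finite.wellFounded_of_trans_of_irrefl r
  obtain ⟨F0, hF0⟩ := hex
  obtain ⟨⟨F, hFT, hF⟩, _, hmin⟩ := hwf.has_min Set.univ ⟨⟨F0, hT F0 hF0, hF0⟩, Set.mem_univ _⟩
  refine ⟨F, hF, ?_⟩
  intro Y hY X hX Z0 hYZ0 hZX0
  by_contra hcon
  push Not at hcon
  -- least order
  obtain ⟨Z1, hZ1, hm1⟩ := Finset.exists_min_image (X.powerset.filter fun W => Y ⊆ W) G.d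
    ⟨Z0, Finset.mem_filter.2 ⟨Finset.mem_powerset.2 hZX0, hYZ0⟩⟩
  obtain ⟨Z, hZ, hm⟩ := Finset.exists_min_image
    (X.powerset.filter fun W => Y ⊆ W ∧ G.d W ≤ G.d Z1) (crn F)
    ⟨Z1, Finset.mem_filter.2 ⟨(Finset.mem_filter.1 hZ1).1, (Finset.mem_filter.1 hZ1).2, le_rfl⟩⟩
  obtain ⟨hZp, hYZ, hZd⟩ := Finset.mem_filter.1 hZ
  have hZX := Finset.mem_powerset.1 hZp
  have hmin' : ∀ W, Y ⊆ W → W ⊆ X → G.d Z1 ≤ G.d W := fun W h1 h2 =>
    hm1 W (Finset.mem_filter.2 ⟨Finset.mem_powerset.2 h2, h1⟩)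
  have hexs : Exs G V0 K N F Y X Z := by
    refine ⟨hF, hY, hX, hYZ, hZX, ?_, fun W h1 h2 => hZd.trans (hmin' W h1 h2), ?_⟩
    · intro M hM h1 h2
      have h3 := hcon M hM h1 h2
      have h4 := hmin' Z0 hYZ0 hZX0
      omega
    · intro W h1 h2 h3
      exact hm W (Finset.mem_filter.2 ⟨Finset.mem_powerset.2 h2, h1, h3.trans hZd⟩)
  have hv := hexs.exch_val
  exact hmin ⟨Exch F Y X Z, hT _ hv, hv⟩ (Set.mem_univ _) hexs.better

end Pool.Agent.W2411c4
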