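import Pool.Agent.W_2411c4_h59.Hubs
import Pool.Agent.W_2411c4_h59.Linked
import Pool.Agent.W_2411c4_h59.Gap
import Pool.Agent.W_2411c4_h59.Link

/-! Nodes of linked valid families; the gap lemma applied to them. -/

set_option autoImplicit false

open Set

namespace Pool.Agent.W2411c4

variable {Q : Type}

open Gr

theorem d_biUnion_le {G : Gr Q} (S : Finset (Finset ℕ)) (k : ℕ) (h : ∀ C ∈ S, G.d C ≤ k) :
    G.d (S.biUnion id) ≤ S.card * k := by
  classical
  have h1 : G.bd (S.biUnion id) ⊆ S.biUnion fun C => G.bd C := by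
    intro e he
    obtain ⟨heE, hc⟩ := G.mem_bd.1 he
    obtain ⟨p, q, hp, hpS, hq, hqS⟩ := cross_ends hc
    simp only [Finset.mem_biUnion, id] at hpS hqS
    push Not at hqS
    obtain ⟨C, hC, hpC⟩ := hpS
    exact Finset.mem_biUnion.2 ⟨C, hC, G.mem_bd.2 ⟨heE, cross_of hp hpC hq (hqS C hC)⟩⟩
  exact (Finset.card_le_card h1).trans (Finset.card_biUnion_le_card_mul _ _ _ h)

theorem node_mem2 [Preorder Q] {G : Gr Q} {V0 : Finset ℕ} {K N : ℕ} {F : Finset (Finset ℕ)}
    (hF : Val G V0 K N F) {X : Finset ℕ} (hX : X ∈ F) (en : En G X) (W : Set (Pc Q))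
    (hkid : ∀ Y, IsKid F X Y → ∃ eY : En G Y, (⟨G, Y, eY⟩ : Pc Q) ∈ W) :
    (⟨G, X, en⟩ : Pc Q) ∈ HubsP N (N * K + K)
      ((W ∪ Emp Q) ∪ UnP N (N * K + K) (W ∪ Emp Q)) := by
  classical
  have hl := hF.lam
  have hnd := hF.nd X hX
  have hNP : (NP G F X).card ≤ N := by omega
  have hBg : (Bag F X).card ≤ N := by
    have h1 : (Bag F X).card ≤ (K + 1) * (Bag F X).card := Nat.le_mul_of_pos_left _ (by omega)
    omega
  have hord : ∀ Y, IsKid F X Y → G.d Y ≤ K := fun Y hY => hF.ord Y hY.1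
  let U : Finset ℕ := (NP G F X).biUnion id
  have hU : ∀ x, x ∈ U ↔ ∃ C, C ∈ NP G F X ∧ x ∈ C := by
    intro x
    simp only [U, Finset.mem_biUnion, id]
  have hdU : G.d U ≤ N * K := by
    refine (d_biUnion_le (NP G F X) K ?_).trans (Nat.mul_le_mul_right _ hNP)
    intro C hC
    exact hord C (mem_np.1 hC).1
  let PK : Finset (Finset ℕ) := F.filter fun C => IsKid F X C ∧ Priv G F X C
  have hPK : ∀ C, C ∈ PK ↔ IsKid F X C ∧ Priv G F X C := by
    intro C
    simp only [PK, Finset.mem_filter]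
    exact ⟨fun h => h.2, fun h => ⟨h.1.1, h⟩⟩
  let S : Finset (Finset ℕ) := insert U PK
  have hUPK : ∀ C ∈ PK, Disjoint U C := by
    intro C hC
    rw [Finset.disjoint_left]
    intro x hx hxC
    obtain ⟨C', hC', hxC'⟩ := (hU x).1 hx
    obtain ⟨h1, h2⟩ := (hPK C).1 hC
    obtain ⟨h3, h4⟩ := mem_np.1 hC'
    rw [kid_eq hl h1 h3 hxC hxC'] at h2
    exact h4 h2
  obtain ⟨g, hg1, hg2, hg3⟩ := exists_enum S S.card le_rfl (by
    intro A hA B hB hAB
    rcases Finset.mem_insert.1 hA with hA' | hA' <;> rcases Finset.mem_insert.1 hB with hB' | hB'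
    · exact absurd (hA'.trans hB'.symm) hAB
    · rw [hA']
      exact hUPK B hB'
    · rw [hB']
      exact (hUPK A hA').symm
    · rw [Finset.disjoint_left]
      intro x hx hx'
      exact hAB (kid_eq hl ((hPK A).1 hA').1 ((hPK B).1 hB').1 hx hx'))
  -- kinds of parts
  have hkind : ∀ j, g j ∈ PK ∨ g j = U ∨ g j = ∅ := by
    intro j
    rcases hg1 j with h | h
    · rcases Finset.mem_insert.1 h with h' | h'
      · exact Or.inr (Or.inl h')
      · exact Or.inl h'
    · exact Or.inr (Or.inr h)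
  have hex : ∀ j, ∃ e : En G (g j),
      (⟨G, g j, e⟩ : Pc Q) ∈ (W ∪ Emp Q) ∪ UnP N (N * K + K) (W ∪ Emp Q) := by
    intro j
    rcases hkind j with h | h | h
    · obtain ⟨e, he⟩ := hkid _ ((hPK _).1 h).1
      exact ⟨e, Or.inl (Or.inl he)⟩
    · refine ⟨mkEn G (g j), Or.inr ⟨?_, ?_⟩⟩
      · show (mkEn G (g j)).n ≤ _
        rw [En.n_eq, h]
        omega
      · obtain ⟨g', hg1', hg2', hg3'⟩ := exists_enum (NP G F X) N hNP (by
          intro A hA B hB hAB
          rw [Finset.disjoint_left]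
          intro x hx hx'
          exact hAB (kid_eq hl (mem_np.1 hA).1 (mem_np.1 hB).1 hx hx'))
        have hex' : ∀ i, ∃ e : En G (g' i), (⟨G, g' i, e⟩ : Pc Q) ∈ W ∪ Emp Q ∧
            e.n ≤ N * K + K := by
          intro i
          rcases hg1' i with h' | h'
          · obtain ⟨e, he⟩ := hkid _ (mem_np.1 h').1
            refine ⟨e, Or.inl he, ?_⟩
            rw [En.n_eq]
            have := hord _ (mem_np.1 h').1
            omega
          · refine ⟨mkEn G (g' i), Or.inr h', ?_⟩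
            have h2 : (mkEn G (g' i)).n = 0 := emp_n (P := ⟨G, g' i, mkEn G (g' i)⟩) h'
            omega
        choose eg heg using hex'
        refine ⟨g', eg, ⟨?_, hg3', fun i => Finset.disjoint_empty_left _⟩, heg⟩
        intro x
        show x ∈ g j ↔ _
        rw [h, hU]
        constructor
        · rintro ⟨C, hC, hxC⟩
          obtain ⟨i, hi⟩ := hg2' C hC
          exact Or.inr ⟨i, hi ▸ hxC⟩
        · rintro (h' | ⟨i, hi⟩)
          · exact absurd h' (Finset.notMem_empty _)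
          · rcases hg1' i with h' | h'
            · exact ⟨g' i, h', hi⟩
            · rw [h'] at hi
              exact absurd hi (Finset.notMem_empty _)
    · exact ⟨mkEn G (g j), Or.inl (Or.inr h)⟩
  choose eg heg using hex
  have hSub : ∀ j, ∀ x ∈ g j, x ∈ X ∧ x ∉ Bag F X := by
    intro j x hx
    rcases hkind j with h | h | h
    · obtain ⟨h1, _⟩ := (hPK _).1 h
      exact ⟨h1.2.1.subset hx, kid_not_bag h1 hx⟩
    · rw [h] at hx
      obtain ⟨C, hC, hxC⟩ := (hU x).1 hx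
      obtain ⟨h1, _⟩ := mem_np.1 hC
      exact ⟨h1.2.1.subset hxC, kid_not_bag h1 hxC⟩
    · rw [h] at hx
      exact absurd hx (Finset.notMem_empty _)
  refine ⟨?_, S.card, g, eg, Bag F X, ⟨?_, hg3, ?_⟩, hBg, ?_, ?_⟩
  · show en.n ≤ _
    rw [En.n_eq]
    have := hF.ord X hX
    omega
  · intro x
    constructor
    · intro hx
      by_cases hb : x ∈ Bag F X
      · exact Or.inl hb
      · right
        have h1 : ∃ N' ∈ F, N' ⊂ X ∧ x ∈ N' := by
          by_contra hcon
          push Not at hcon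
          exact hb (mem_bag.2 ⟨hx, hcon⟩)
        obtain ⟨N', hN', hNX, hxN⟩ := h1
        obtain ⟨C, hC, hNC⟩ := exists_kid hN' hNX
        by_cases hp : Priv G F X C
        · obtain ⟨j, hj⟩ := hg2 C (Finset.mem_insert_of_mem ((hPK C).2 ⟨hC, hp⟩))
          exact ⟨j, hj ▸ hNC hxN⟩
        · obtain ⟨j, hj⟩ := hg2 U (Finset.mem_insert_self _ _)
          exact ⟨j, hj ▸ (hU x).2 ⟨C, mem_np.2 ⟨hC, hp⟩, hNC hxN⟩⟩
    · rintro (h | ⟨j, hj⟩)
      · exact (mem_bag.1 h).1
      · exact (hSub j x hj).1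
  · intro j
    rw [Finset.disjoint_left]
    intro x hx hx'
    exact (hSub j x hx').2 hx
  · intro j
    refine ⟨heg j, ?_⟩
    rw [En.n_eq]
    show G.d (g j) ≤ _
    rcases hkind j with h | h | h
    · have := hord _ ((hPK _).1 h).1
      omega
    · rw [h]
      omega
    · have h2 : (mkEn G (g j)).n = 0 := emp_n (P := ⟨G, g j, mkEn G (g j)⟩) h
      rw [En.n_eq] at h2
      omega
  · intro e he i j hi hj
    by_contra hij
    have hd := hg3 i j hij
    obtain ⟨x, hx, hxi⟩ := touch_end.1 hi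
    obtain ⟨y, hy, hyj⟩ := touch_end.1 hj
    rcases hkind i with h | h | h
    · rcases ((hPK _).1 h).2 e he hi y hy with h' | h'
      · exact Finset.disjoint_left.1 hd h' hyj
      · exact (hSub j y hyj).2 h'
    · rcases hkind j with k | k | k
      · rcases ((hPK _).1 k).2 e he hj x hx with h' | h'
        · exact Finset.disjoint_left.1 hd hxi h'
        · exact (hSub i x hxi).2 h'
      · rw [h] at hxi hd
        rw [k] at hd
        exact Finset.disjoint_left.1 hd hxi hxi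
      · rw [k] at hyj
        exact absurd hyj (Finset.notMem_empty _)
    · rw [h] at hxi
      exact absurd hxi (Finset.notMem_empty _)

/-- nodes of linked valid families -/
structure Nd (Q : Type) (K N : ℕ) where
  G : Gr Q
  V0 : Finset ℕ
  F : Finset (Finset ℕ)
  X : Finset ℕ
  val : Val G V0 K N F
  lk : Linked G F
  hX : X ∈ F

/-- the node of another member -/
def Nd.sub {K N : ℕ} (x : Nd Q K N) (Y : Finset ℕ) (h : Y ∈ x.F) : Nd Q K N :=
  ⟨x.G, x.V0, x.F, Y, x.val, x.lk, h⟩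

/-- the kids of a node -/
def kidsN {K N : ℕ} (x : Nd Q K N) : Set (Nd Q K N) :=
  {z | ∃ (Y : Finset ℕ) (h : IsKid x.F x.X Y), z = x.sub Y h.1}

theorem chain_mem {K N m : ℕ} {x z : Nd Q K N} (h : Ch (fun x => x.G.d x.X) kidsN m x z) :
    ∃ (Y : Finset ℕ) (hY : Y ∈ x.F), z = x.sub Y hY ∧ Y ⊂ x.X ∧
      ∀ M ∈ x.F, Y ⊆ M → M ⊆ x.X → M = Y ∨ M = x.X ∨ m ≤ x.G.d M := by
  induction h with
  | one hz =>
    obtain ⟨Y, hY, rfl⟩ := hz
    refine ⟨Y, hY.1, rfl, hY.2.1, ?_⟩
    intro M hM hYM hMX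
    by_cases hMe : M = x.X
    · exact Or.inr (Or.inl hMe)
    · exact Or.inl (hY.2.2 M hM hYM (Finset.ssubset_iff_subset_ne.2 ⟨hMX, hMe⟩))
  | step _ hm hz ih =>
    obtain ⟨W, hW, rfl, hWX, hall⟩ := ih
    obtain ⟨Y, hY, rfl⟩ := hz
    have hY' : IsKid x.F W Y := hY
    refine ⟨Y, hY'.1, rfl, hY'.2.1.trans hWX, ?_⟩
    intro M hM hYM hMX
    obtain ⟨y, hy⟩ := x.val.ne Y hY'.1
    rcases lam_sub x.val.lam hM hW (hYM hy) (hY'.2.1.subset hy) with h1 | h1
    · by_cases hMe : M = W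
      · right
        right
        rw [hMe]
        exact hm
      · exact Or.inl (hY'.2.2 M hM hYM (Finset.ssubset_iff_subset_ne.2 ⟨h1, hMe⟩))
    · rcases hall M hM h1 hMX with h2 | h2 | h2
      · right
        right
        rw [h2]
        exact hm
      · exact Or.inr (Or.inl h2)
      · exact Or.inr (Or.inr h2)

/-- the piece of a node with an enumeration -/
def pcN {K N : ℕ} (p : (x : Nd Q K N) × En x.G x.X) : Pc Q := ⟨p.1.G, p.1.X, p.2⟩

theorem nodes_pwo [Preorder Q] (hQ : WellQuasiOrdered (fun x y : Q => x ≤ y)) (K N : ℕ) :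
    ∀ f : ℕ → ((x : Nd Q K N) × En x.G x.X), ∃ m n, m < n ∧ Rp (pcN (f m)) (pcN (f n)) := by
  let R : ((x : Nd Q K N) × En x.G x.X) → ((x : Nd Q K N) × En x.G x.X) → Prop :=
    fun p q => Rp (pcN p) (pcN q)
  have : IsPreorder ((x : Nd Q K N) × En x.G x.X) R :=
    { refl := fun p => Rp.refl _
      trans := fun _ _ _ h h' => Rp.trans h h' }
  refine gap (R := R) (fun p => p.1) (fun x => ⟨⟨x, mkEn x.G x.X⟩, rfl⟩)
    (fun x => x.G.d x.X) (fun x => x.X.card) kidsN K (fun x => x.val.ord x.X x.hX) ?_ ?_ ?_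
  · rintro x z ⟨Y, hY, rfl⟩
    exact Finset.card_lt_card hY.2.1
  · intro W hW
    have hW' : (pcN '' W).PartiallyWellOrderedOn Rp :=
      hW.image_of_monotone_on fun _ _ _ _ h => h
    have hE : ((pcN '' W) ∪ Emp Q).PartiallyWellOrderedOn Rp := hW'.union emp_pwo
    have hall := hubs_pwo hQ N (N * K + K) (hE.union (un_pwo N (N * K + K) hE))
    rw [partiallyWellOrderedOn_iff_exists_lt] at hall ⊢
    intro f hf
    obtain ⟨m, n, hmn, hr⟩ := hall (fun i => pcN (f i)) (by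
      intro i
      refine node_mem2 (f i).1.val (f i).1.hX (f i).2 (pcN '' W) ?_
      intro Y hY
      obtain ⟨q, hqW, hq⟩ := hf i ((f i).1.sub Y hY.1) ⟨Y, hY, rfl⟩
      obtain ⟨q1, q2⟩ := q
      simp only at hq
      subst hq
      exact ⟨q2, ⟨_, hqW, rfl⟩⟩)
    exact ⟨m, n, hmn, hr⟩
  · intro p z hch hlab
    obtain ⟨Y, hY, rfl, hYX, hall⟩ := chain_mem hch
    have hd : p.1.G.d Y = p.1.G.d p.1.X := hlab
    obtain ⟨oY, hoY⟩ := link hYX.subset p.2 hd (by
      intro Z hYZ hZX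
      obtain ⟨M, hM, hYM, hMX, hMZ⟩ := p.1.lk Y hY p.1.X p.1.hX Z hYZ hZX
      rcases hall M hM hYM hMX with h1 | h1 | h1
      · rw [h1] at hMZ
        exact hMZ
      · rw [h1] at hMZ
        exact hd.le.trans hMZ
      · exact hd.le.trans (h1.trans hMZ))
    exact ⟨⟨p.1.sub Y hY, oY⟩, rfl, hoY⟩

/-- **Main internal theorem.** Pieces whose vertex set has a valid family are well-quasi-ordered. -/
theorem val_pwo [Preorder Q] (hQ : WellQuasiOrdered (fun x y : Q => x ≤ y)) (K N : ℕ) :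
    {P : Pc Q | ∃ F, Val P.G P.X K N F}.PartiallyWellOrderedOn Rp := by
  rw [partiallyWellOrderedOn_iff_exists_lt]
  intro f hf
  have h : ∀ n, ∃ F, Val (f n).G (f n).X K N F ∧ Linked (f n).G F := fun n => exists_linked (hf n)
  choose F hF using h
  obtain ⟨m, n, hmn, hr⟩ := nodes_pwo hQ K N fun n =>
    ⟨⟨(f n).G, (f n).X, F n, (f n).X, (hF n).1, (hF n).2, (hF n).1.top⟩, (f n).en⟩
  exact ⟨m, n, hmn, hr⟩

end Pool.Agent.W2411c4
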