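import Pool.Agent.W_2411c4_h59.Conv
import Pool.Agent.W_2411c4_h59.Node2

/-! From internal immersions back to strong immersions; the main theorem. -/

set_option autoImplicit false

namespace Pool.Agent.W2411c4

open Gr

attribute [local instance] MGraph.finV MGraph.finE

namespace Walk

variable {G : MGraph}

theorem suffix {u v w : G.V} (p : Walk G u v) (hp : p.verts.Nodup) (hw : w ∈ p.verts) :
    ∃ q : Walk G w v, q.verts.Nodup ∧ ∀ e ∈ q.edges, e ∈ p.edges := by
  induction p with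
  | nil v =>
    have h : w = v := by simpa [Walk.verts] using hw
    subst h
    exact ⟨Walk.nil w, by simp [Walk.verts], fun e he => he⟩
  | @cons a b c e h p ih =>
    simp only [Walk.verts, List.mem_cons] at hw
    simp only [Walk.verts, List.nodup_cons] at hp
    rcases hw with rfl | hw
    · exact ⟨Walk.cons e h p, by simp only [Walk.verts, List.nodup_cons]; exact hp, fun e he => he⟩
    · obtain ⟨q, hq1, hq2⟩ := ih hp.2 hw
      exact ⟨q, hq1, fun f hf => List.mem_cons_of_mem _ (hq2 f hf)⟩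

theorem exists_path {u v : G.V} (p : Walk G u v) :
    ∃ q : Walk G u v, q.verts.Nodup ∧ ∀ e ∈ q.edges, e ∈ p.edges := by
  induction p with
  | nil v => exact ⟨Walk.nil v, by simp [Walk.verts], fun e he => he⟩
  | @cons a b c e h p ih =>
    obtain ⟨q, hq1, hq2⟩ := ih
    by_cases ha : a ∈ q.verts
    · obtain ⟨q', h1, h2⟩ := q.suffix hq1 ha
      exact ⟨q', h1, fun f hf => List.mem_cons_of_mem _ (hq2 f (h2 f hf))⟩
    · refine ⟨Walk.cons e h q, ?_, ?_⟩
      · simp only [Walk.verts, List.nodup_cons]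
        exact ⟨ha, hq1⟩
      · intro f hf
        simp only [Walk.edges, List.mem_cons] at hf ⊢
        rcases hf with rfl | hf
        · exact Or.inl rfl
        · exact Or.inr (hq2 f hf)

theorem mem_verts {u v : G.V} (p : Walk G u v) {x : G.V} (hx : x ∈ p.verts) :
    x = v ∨ ∃ e ∈ p.edges, x ∈ G.ends e := by
  induction p with
  | nil v => exact Or.inl (by simpa [Walk.verts] using hx)
  | @cons a b c e h p ih =>
    simp only [Walk.verts, List.mem_cons] at hx
    rcases hx with rfl | hx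
    · right
      exact ⟨e, List.mem_cons_self, by rw [h]; exact Sym2.mem_mk_left _ _⟩
    · rcases ih hx with h1 | ⟨f, hf, h1⟩
      · exact Or.inl h1
      · exact Or.inr ⟨f, List.mem_cons_of_mem _ hf, h1⟩

theorem last_mem {u v : G.V} (p : Walk G u v) (huv : u ≠ v) : ∃ e ∈ p.edges, v ∈ G.ends e := by
  induction p with
  | nil v => exact absurd rfl huv
  | @cons a b c e h p ih =>
    by_cases hbc : b = c
    · refine ⟨e, List.mem_cons_self, ?_⟩
      rw [h, ← hbc]
      exact Sym2.mem_mk_right _ _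
    · obtain ⟨f, hf, h1⟩ := ih hbc
      exact ⟨f, List.mem_cons_of_mem _ hf, h1⟩

theorem mem_verts' {u v : G.V} (p : Walk G u v) (huv : u ≠ v) {x : G.V} (hx : x ∈ p.verts) :
    ∃ e ∈ p.edges, x ∈ G.ends e := by
  rcases p.mem_verts hx with rfl | h
  · exact p.last_mem huv
  · exact h

end Walk

theorem walk_of_conn {G : MGraph} {Q : Type} {A : Set G.V} {l : G.V → Q} {q0 : Q} {F : Set ℕ}
    (hF : ∀ n ∈ F, n ∈ (G.toGr A l q0).E) {m n : ℕ} (h : (G.toGr A l q0).Conn F m n) :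
    ∀ x y, m = G.cV x → n = G.cV y → ∃ p : Walk G x y, ∀ e ∈ p.edges, G.cE e ∈ F := by
  induction h using Relation.ReflTransGen.head_induction_on with
  | refl =>
    intro x y hx hy
    have h : x = y := G.cV_inj (hx.symm.trans hy)
    subst h
    exact ⟨Walk.nil x, by simp [Walk.edges]⟩
  | head hac _ ih =>
    intro x y hx hy
    obtain ⟨f, hf, hfe⟩ := hac
    obtain ⟨g, _, rfl⟩ := (G.mem_E A l q0).1 (hF f hf)
    rw [G.a_cE, G.b_cE] at hfe
    rcases hfe with ⟨h1, h2⟩ | ⟨h1, h2⟩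
    · obtain ⟨p, hp⟩ := ih (G.snd g) y h2.symm hy
      have hxg : G.fst g = x := G.cV_inj (h1.trans hx)
      refine ⟨Walk.cons g (by rw [G.ends_fs g, hxg]) p, ?_⟩
      intro e he
      simp only [Walk.edges, List.mem_cons] at he
      rcases he with rfl | he
      · exact hf
      · exact hp e he
    · obtain ⟨p, hp⟩ := ih (G.fst g) y h1.symm hy
      have hxg : G.snd g = x := G.cV_inj (h2.trans hx)
      refine ⟨Walk.cons g (by rw [G.ends_fs g, hxg, Sym2.eq_swap]) p, ?_⟩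
      intro e he
      simp only [Walk.edges, List.mem_cons] at he
      rcases he with rfl | he
      · exact hf
      · exact hp e he

/-- number of edges with a given pair of ends -/
noncomputable def cnt (G : MGraph) (z : Sym2 G.V) : ℕ := Nat.card {e : G.E // G.ends e = z}

/-- labels: numbers of edges to the apices -/
noncomputable def labF (G : MGraph) (t s : ℕ) (β : Fin s → G.V) (v : G.V) : Fin t → ℕ :=
  fun i => if h : i.1 < s then cnt G s(v, β ⟨i.1, h⟩) else 0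

theorem exists_code_inj {H G : MGraph} (z : Sym2 H.V) (w : Sym2 G.V) (h : cnt H z ≤ cnt G w) :
    ∃ j : H.E → ℕ, (∀ e, H.ends e = z → ∃ g, G.cE g = j e ∧ G.ends g = w) ∧
      ∀ e f, H.ends e = z → H.ends f = z → j e = j f → e = f := by
  classical
  have := Fintype.ofFinite {e : H.E // H.ends e = z}
  have := Fintype.ofFinite {e : G.E // G.ends e = w}
  obtain ⟨φ⟩ : Nonempty ({e : H.E // H.ends e = z} ↪ {e : G.E // G.ends e = w}) := by
    apply Function.Embedding.nonempty_of_card_le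
    rw [← Nat.card_eq_fintype_card, ← Nat.card_eq_fintype_card]
    exact h
  refine ⟨fun e => if he : H.ends e = z then G.cE (φ ⟨e, he⟩).1 else 0, ?_, ?_⟩
  · intro e he
    exact ⟨(φ ⟨e, he⟩).1, by simp only [dif_pos he], (φ ⟨e, he⟩).2⟩
  · intro e f he hf hef
    simp only [dif_pos he, dif_pos hf] at hef
    exact congrArg Subtype.val (φ.injective (Subtype.ext (G.cE_inj hef)))

theorem extract {H G : MGraph} (t s s' : ℕ) (hs : s = s') (hst : s ≤ t) (α : Fin s → H.V)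
    (β : Fin s' → G.V) (hα : Function.Injective α) (hβ : Function.Injective β)
    (enH : En (H.toGr (Set.range α) (labF H t s α) 0) (H.cs (Set.range α)ᶜ))
    (enG : En (G.toGr (Set.range β) (labF G t s' β) 0) (G.cs (Set.range β)ᶜ))
    (hR : Rp (⟨_, _, enH⟩ : Pc (Fin t → ℕ)) ⟨_, _, enG⟩)
    (hM : ∀ i j (hi : i < s) (hj : j < s),
      cnt H s(α ⟨i, hi⟩, α ⟨j, hj⟩) ≤ cnt G s(β ⟨i, hs ▸ hi⟩, β ⟨j, hs ▸ hj⟩)) :
    Nonempty (StrongImmersion H G) := by
  classical
  subst hs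
  obtain ⟨η, Φ, hI⟩ := hR
  -- the vertex map
  have hθ : ∀ v : H.V, ∃ w : G.V, (∀ i, v = α i → w = β i) ∧
      (v ∉ Set.range α → w ∉ Set.range β ∧ G.cV w = η (H.cV v)) := by
    intro v
    by_cases hv : v ∈ Set.range α
    · obtain ⟨i, rfl⟩ := hv
      exact ⟨β i, fun j hj => by rw [hα hj], fun h => absurd ⟨i, rfl⟩ h⟩
    · have h1 : η (H.cV v) ∈ G.cs (Set.range β)ᶜ := hI.maps _ (H.cV_mem.2 hv)
      obtain ⟨w, hw, hwv⟩ := G.mem_cs.1 h1
      exact ⟨w, fun i hi => absurd ⟨i, hi.symm⟩ hv, fun _ => ⟨hw, hwv⟩⟩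
  choose θ hθ1 hθ2 using hθ
  have hθr : ∀ i, θ (α i) = β i := fun i => hθ1 _ i rfl
  have hθinj : Function.Injective θ := by
    intro u v huv
    by_cases hu : u ∈ Set.range α
    · by_cases hv : v ∈ Set.range α
      · obtain ⟨i, rfl⟩ := hu
        obtain ⟨j, rfl⟩ := hv
        rw [hθr, hθr] at huv
        rw [hβ huv]
      · obtain ⟨i, rfl⟩ := hu
        rw [hθr] at huv
        exact absurd ⟨i, huv⟩ (hθ2 v hv).1
    · by_cases hv : v ∈ Set.range α
      · obtain ⟨j, rfl⟩ := hv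
        rw [hθr] at huv
        exact absurd ⟨j, huv.symm⟩ (hθ2 u hu).1
      · have h1 := (hθ2 u hu).2
        have h2 := (hθ2 v hv).2
        rw [huv] at h1
        exact H.cV_inj (hI.inj _ (H.cV_mem.2 hu) _ (H.cV_mem.2 hv) (h1.symm.trans h2))
  -- counting the edges at the apices
  have hcnt1 : ∀ v i, v ∉ Set.range α → cnt H s(v, α i) ≤ cnt G s(θ v, β i) := by
    intro v i hv
    have h1 := hI.lab (H.cV v) (H.cV_mem.2 hv)
    change (H.toGr _ _ _).lab (H.cV v) ≤ (G.toGr _ _ _).lab (η (H.cV v)) at h1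
    rw [← (hθ2 v hv).2, H.lab_cV, G.lab_cV] at h1
    have h2 := h1 ⟨i.1, i.2.trans_le hst⟩
    simp only [labF, dif_pos i.2, Fin.eta] at h2
    exact h2
  have hcnt : ∀ z : Sym2 H.V, (∃ v ∈ z, v ∈ Set.range α) → cnt H z ≤ cnt G (z.map θ) := by
    intro z
    induction z using Sym2.ind with
    | _ u v =>
      rintro ⟨w, hw, i, rfl⟩
      rw [Sym2.map_mk]
      rcases Sym2.mem_iff.1 hw with rfl | rfl
      · by_cases hv : v ∈ Set.range α
        · obtain ⟨j, rfl⟩ := hv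
          rw [hθr, hθr]
          exact hM i.1 j.1 i.2 j.2
        · rw [hθr, Sym2.eq_swap, Sym2.eq_swap (a := β i)]
          exact hcnt1 v i hv
      · by_cases hv : u ∈ Set.range α
        · obtain ⟨j, rfl⟩ := hv
          rw [hθr, hθr]
          exact hM j.1 i.1 j.2 i.2
        · rw [hθr]
          exact hcnt1 u i hv
  have hj : ∀ z : Sym2 H.V, ∃ j : H.E → ℕ, (∃ v ∈ z, v ∈ Set.range α) →
      (∀ e, H.ends e = z → ∃ g, G.cE g = j e ∧ G.ends g = z.map θ) ∧
      ∀ e f, H.ends e = z → H.ends f = z → j e = j f → e = f := by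
    intro z
    by_cases hz : ∃ v ∈ z, v ∈ Set.range α
    · obtain ⟨j, h1, h2⟩ := exists_code_inj z (z.map θ) (hcnt z hz)
      exact ⟨j, fun _ => ⟨h1, h2⟩⟩
    · exact ⟨fun _ => 0, fun h => absurd h hz⟩
  choose j hj using hj
  -- the paths
  have hpath : ∀ e : H.E, ∃ (x y : G.V) (p : Walk G x y), s(x, y) = (H.ends e).map θ ∧
      p.verts.Nodup ∧ x ≠ y ∧
      ((∃ v ∈ H.ends e, v ∈ Set.range α) → ∀ g ∈ p.edges, G.cE g = j (H.ends e) e ∧
        G.ends g = (H.ends e).map θ) ∧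
      ((¬ ∃ v ∈ H.ends e, v ∈ Set.range α) → ∀ g ∈ p.edges, G.cE g ∈ Φ (H.cE e)) := by
    intro e
    have hxy : θ (H.fst e) ≠ θ (H.snd e) := fun h => H.fst_ne_snd e (hθinj h)
    have hmap : (H.ends e).map θ = s(θ (H.fst e), θ (H.snd e)) := by
      rw [H.ends_fs e, Sym2.map_mk]
    by_cases hz : ∃ v ∈ H.ends e, v ∈ Set.range α
    · obtain ⟨g, hg1, hg2⟩ := (hj (H.ends e) hz).1 e rfl
      refine ⟨θ (H.fst e), θ (H.snd e), Walk.cons g (hg2.trans hmap) (Walk.nil _), hmap.symm, ?_,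
        hxy, ?_, fun h => absurd hz h⟩
      · simpa [Walk.verts] using hxy
      · intro _ g' hg'
        simp only [Walk.edges, List.mem_singleton] at hg'
        rw [hg']
        exact ⟨hg1, hg2⟩
    · have hav : ∀ v ∈ H.ends e, v ∉ Set.range α := fun v hv hva => hz ⟨v, hv, hva⟩
      have hfst : H.fst e ∉ Set.range α := hav _ (H.mem_ends.2 (Or.inl rfl))
      have hsnd : H.snd e ∉ Set.range α := hav _ (H.mem_ends.2 (Or.inr rfl))
      have heE : H.cE e ∈ (H.toGr (Set.range α) (labF H t s α) 0).E :=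
        (H.mem_E _ _ _).2 ⟨e, hav, rfl⟩
      have hin : (H.toGr (Set.range α) (labF H t s α) 0).Inner (H.cs (Set.range α)ᶜ) (H.cE e) := by
        unfold Gr.Inner
        rw [H.a_cE, H.b_cE]
        exact ⟨H.cV_mem.2 hfst, H.cV_mem.2 hsnd⟩
      have hc := hI.conn_in (H.cE e) heE hin
      have ha : (H.toGr (Set.range α) (labF H t s α) 0).a (H.cE e) = H.cV (H.fst e) :=
        H.a_cE _ _ _ e
      have hb : (H.toGr (Set.range α) (labF H t s α) 0).b (H.cE e) = H.cV (H.snd e) :=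
        H.b_cE _ _ _ e
      change (G.toGr _ _ _).Conn (Φ (H.cE e)) (η ((H.toGr _ _ _).a (H.cE e)))
        (η ((H.toGr _ _ _).b (H.cE e))) at hc
      rw [ha, hb, ← (hθ2 _ hfst).2, ← (hθ2 _ hsnd).2] at hc
      obtain ⟨p, hp⟩ := walk_of_conn (fun n hn => (hI.sub_in _ heE hin n hn).1) hc _ _ rfl rfl
      obtain ⟨q, hq1, hq2⟩ := p.exists_path
      exact ⟨_, _, q, hmap.symm, hq1, hxy, fun h => absurd h hz, fun _ g hg => hp g (hq2 g hg)⟩
  choose x y p hp1 hp2 hp3 hp4 hp5 using hpath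
  have hnt : ∀ e : H.E, (¬ ∃ v ∈ H.ends e, v ∈ Set.range α) →
      H.cE e ∈ (H.toGr (Set.range α) (labF H t s α) 0).E ∧
      (H.toGr (Set.range α) (labF H t s α) 0).Inner (H.cs (Set.range α)ᶜ) (H.cE e) := by
    intro e hz
    have hav : ∀ v ∈ H.ends e, v ∉ Set.range α := fun v hv hva => hz ⟨v, hv, hva⟩
    refine ⟨(H.mem_E _ _ _).2 ⟨e, hav, rfl⟩, ?_⟩
    unfold Gr.Inner
    rw [H.a_cE, H.b_cE]
    exact ⟨H.cV_mem.2 (hav _ (H.mem_ends.2 (Or.inl rfl))),
      H.cV_mem.2 (hav _ (H.mem_ends.2 (Or.inr rfl)))⟩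
  -- an edge of a path of an edge off the apices avoids the apices
  have hoff : ∀ e : H.E, (¬ ∃ v ∈ H.ends e, v ∈ Set.range α) → ∀ g ∈ (p e).edges,
      ∀ v ∈ G.ends g, v ∉ Set.range β := by
    intro e hz g hg
    obtain ⟨h1, h2⟩ := hnt e hz
    have h3 := (hI.sub_in _ h1 h2 _ (hp5 e hz g hg)).1
    obtain ⟨g', hg', hgg⟩ := (G.mem_E _ _ _).1 h3
    rw [← G.cE_inj hgg]
    exact hg'
  refine ⟨⟨θ, hθinj, x, y, p, hp1, hp2, ?_, ?_⟩⟩
  · intro e f hef g hg hg'
    by_cases hze : ∃ v ∈ H.ends e, v ∈ Set.range α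
    · obtain ⟨h1, h2⟩ := hp4 e hze g hg
      by_cases hzf : ∃ v ∈ H.ends f, v ∈ Set.range α
      · obtain ⟨h3, h4⟩ := hp4 f hzf g hg'
        have h5 : H.ends e = H.ends f := Sym2.map.injective hθinj (h2.symm.trans h4)
        rw [← h5] at h3
        exact hef ((hj (H.ends e) hze).2 e f rfl h5.symm (h1.symm.trans h3))
      · obtain ⟨v, hv, i, rfl⟩ := hze
        refine hoff f hzf g hg' (β i) ?_ ⟨i, rfl⟩
        rw [h2, ← hθr i]
        exact Sym2.mem_map.2 ⟨_, hv, rfl⟩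
    · by_cases hzf : ∃ v ∈ H.ends f, v ∈ Set.range α
      · obtain ⟨h3, h4⟩ := hp4 f hzf g hg'
        obtain ⟨v, hv, i, rfl⟩ := hzf
        refine hoff e hze g hg (β i) ?_ ⟨i, rfl⟩
        rw [h4, ← hθr i]
        exact Sym2.mem_map.2 ⟨_, hv, rfl⟩
      · obtain ⟨e1, e2⟩ := hnt e hze
        obtain ⟨f1, f2⟩ := hnt f hzf
        exact Set.disjoint_left.1 (hI.disj _ e1 _ f1 e2.touch f2.touch
          (fun h => hef (H.cE_inj h))) (hp5 e hze g hg) (hp5 f hzf g hg')
  · intro e v hv hmem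
    obtain ⟨g, hg, hvg⟩ := (p e).mem_verts' (hp3 e) hmem
    by_cases hze : ∃ v ∈ H.ends e, v ∈ Set.range α
    · obtain ⟨_, h2⟩ := hp4 e hze g hg
      rw [h2] at hvg
      obtain ⟨w, hw, hwv⟩ := Sym2.mem_map.1 hvg
      exact hv (hθinj hwv ▸ hw)
    · have hvA : v ∉ Set.range α := by
        rintro ⟨i, rfl⟩
        rw [hθr] at hvg
        exact hoff e hze g hg _ hvg ⟨i, rfl⟩
      obtain ⟨e1, e2⟩ := hnt e hze
      have h1 := hI.strong (H.cE e) e1 e2.touch (H.cV v) (H.cV_mem.2 hvA)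
        (fun h => hv ((H.inc_cV _ _ _).1 h)) (G.cE g) (hp5 e hze g hg)
      apply h1
      rw [← (hθ2 v hvA).2]
      exact (G.inc_cV _ _ _).2 hvg

theorem exists_range {G : MGraph} (A : Set G.V) :
    ∃ α : Fin A.ncard → G.V, Function.Injective α ∧ Set.range α = A := by
  have e : A ≃ Fin A.ncard := Finite.equivFinOfCardEq (Nat.card_coe_set_eq A)
  refine ⟨fun i => (e.symm i).1, fun i j h => e.symm.injective (Subtype.ext h), ?_⟩
  ext v
  constructor
  · rintro ⟨i, rfl⟩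
    exact (e.symm i).2
  · intro hv
    exact ⟨e ⟨v, hv⟩, by simp⟩

/-- **Main theorem.** -/
theorem main (t K N : ℕ) (G : ℕ → MGraph)
    (hG : ∀ n, ∃ A : Set (G n).V, A.ncard ≤ t ∧ TreeCut K N (G n) A) :
    ∃ i j, i < j ∧ Nonempty (StrongImmersion (G i) (G j)) := by
  classical
  choose A hA hT using hG
  choose α hα hαr using fun n => exists_range (A n)
  let s : ℕ → ℕ := fun n => (A n).ncard
  let P : ℕ → Pc (Fin t → ℕ) := fun n =>
    ⟨(G n).toGr (Set.range (α n)) (labF (G n) t (s n) (α n)) 0, (G n).cs (Set.range (α n))ᶜ,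
      mkEn _ _⟩
  let M : ℕ → (Fin t × Fin t → ℕ) := fun n p =>
    if h : p.1.1 < s n ∧ p.2.1 < s n then cnt (G n) s(α n ⟨p.1.1, h.1⟩, α n ⟨p.2.1, h.2⟩) else 0
  have hwq : ∀ (ι : Type) [Finite ι], WellQuasiOrdered (fun x y : ι → ℕ => x ≤ y) := by
    intro ι _
    have h1 : (Set.univ.pi fun _ : ι => (Set.univ : Set ℕ)).PartiallyWellOrderedOn
        (fun x y : ι → ℕ => x ≤ y) :=
      Set.PartiallyWellOrderedOn.pi (fun _ =>
        Set.partiallyWellOrderedOn_of_wellQuasiOrdered wellQuasiOrdered_le _)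
    intro f
    exact h1.exists_lt (f := f) (fun n => fun _ _ => Set.mem_univ _)
  have h1 : (Set.univ : Set (Fin (t + 1))).PartiallyWellOrderedOn Eq :=
    Set.finite_univ.partiallyWellOrderedOn
  have h2 : (Set.univ : Set (Fin t × Fin t → ℕ)).PartiallyWellOrderedOn (fun x y => x ≤ y) :=
    Set.partiallyWellOrderedOn_of_wellQuasiOrdered (hwq _) _
  have h3 : ({P : Pc (Fin t → ℕ) | ∃ F, Val P.G P.X (K + 2) (bnd K N) F} ∪
      Emp (Fin t → ℕ)).PartiallyWellOrderedOn Rp :=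
    (val_pwo (hwq (Fin t)) _ _).union emp_pwo
  obtain ⟨i, j, hij, hs, hMM, hR⟩ := (h1.prod (h2.prod h3)).exists_lt
    (f := fun n => ((⟨s n, Nat.lt_succ_of_le (hA n)⟩ : Fin (t + 1)), M n, P n))
    (fun n => ⟨Set.mem_univ _, Set.mem_univ _, by
      by_cases hne : ((G n).cs (Set.range (α n))ᶜ).Nonempty
      · left
        have hT' := hT n
        rw [← hαr n] at hT'
        obtain ⟨F0, hF0⟩ := treeCut_val0 (G n) (Set.range (α n)) (labF (G n) t (s n) (α n)) 0 hT' hne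
        exact exists_val hF0
      · right
        exact Finset.not_nonempty_iff_eq_empty.1 hne⟩)
  refine ⟨i, j, hij, ?_⟩
  simp only [Fin.mk.injEq] at hs
  refine extract t (s i) (s j) hs (hA i) (α i) (α j) (hα i) (hα j) (mkEn _ _) (mkEn _ _) hR ?_
  intro a b ha hb
  have h4 := hMM (⟨a, ha.trans_le (hA i)⟩, ⟨b, hb.trans_le (hA i)⟩)
  have ha' : a < s j := hs ▸ ha
  have hb' : b < s j := hs ▸ hb
  simp only [M, dif_pos (And.intro ha hb), dif_pos (And.intro ha' hb')] at h4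
  exact h4

end Pool.Agent.W2411c4
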