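import Pool.Agent.W_2411c4_h59.Trans

/-! The gluing lemma. -/

set_option autoImplicit false

namespace Pool.Agent.W2411c4

variable {Q : Type}

open Gr

/-- `X` is the disjoint union of the hub set `H` and the parts `Xi i`. -/
structure Split {ι : Type} (X H : Finset ℕ) (Xi : ι → Finset ℕ) : Prop where
  mem : ∀ x, x ∈ X ↔ x ∈ H ∨ ∃ i, x ∈ Xi i
  disj : ∀ i j, i ≠ j → Disjoint (Xi i) (Xi j)
  disjH : ∀ i, Disjoint H (Xi i)

theorem Split.sub {ι : Type} {X H : Finset ℕ} {Xi : ι → Finset ℕ} (h : Split X H Xi) (i : ι) {x : ℕ}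
    (hx : x ∈ Xi i) : x ∈ X := (h.mem x).2 (Or.inr ⟨i, hx⟩)

theorem Split.uniq {ι : Type} {X H : Finset ℕ} {Xi : ι → Finset ℕ} (h : Split X H Xi) {i j : ι} {x : ℕ}
    (hx : x ∈ Xi i) (hx' : x ∈ Xi j) : i = j := by
  by_contra hij
  exact Finset.disjoint_left.1 (h.disj i j hij) hx hx'

/-- an edge of `X` that is not inside a part -/
def NE {ι : Type} (G : Gr Q) (X : Finset ℕ) (Xi : ι → Finset ℕ) (e : ℕ) : Prop :=
  e ∈ G.E ∧ G.Touch X e ∧ ∀ i, ¬ G.Inner (Xi i) e

theorem inc_a (G : Gr Q) (e : ℕ) : G.Inc e (G.a e) := Or.inl rfl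

theorem inc_b (G : Gr Q) (e : ℕ) : G.Inc e (G.b e) := Or.inr rfl

theorem cross_end {G : Gr Q} {X : Finset ℕ} {e : ℕ} (h : G.Cross X e) : ∃ x, G.Inc e x ∧ x ∈ X := by
  rcases h with h | h
  · exact ⟨_, inc_a G e, h.1⟩
  · exact ⟨_, inc_b G e, h.2⟩

theorem touch_end {G : Gr Q} {X : Finset ℕ} {e : ℕ} : G.Touch X e ↔ ∃ x, G.Inc e x ∧ x ∈ X := by
  constructor
  · rintro (h | h)
    · exact ⟨_, inc_a G e, h⟩
    · exact ⟨_, inc_b G e, h⟩
  · rintro ⟨x, rfl | rfl, hx⟩
    · exact Or.inl hx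
    · exact Or.inr hx

theorem inner_end {G : Gr Q} {X : Finset ℕ} {e x : ℕ} (h : G.Inner X e) (hx : G.Inc e x) : x ∈ X := by
  rcases hx with rfl | rfl
  · exact h.1
  · exact h.2

theorem Split.ne_o {ι : Type} {G : Gr Q} {X H : Finset ℕ} {Xi : ι → Finset ℕ} (h : Split X H Xi)
    {i : ι} {e : ℕ} (he : e ∈ G.E) (hc : G.Cross (Xi i) e) : NE G X Xi e := by
  obtain ⟨x, hx, hxi⟩ := cross_end hc
  refine ⟨he, touch_end.2 ⟨x, hx, h.sub i hxi⟩, fun j hj => ?_⟩
  have hij := h.uniq hxi (inner_end hj hx)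
  subst hij
  exact hc.not_inner hj

theorem Split.ne_bd {ι : Type} {G : Gr Q} {X H : Finset ℕ} {Xi : ι → Finset ℕ} (h : Split X H Xi)
    {e : ℕ} (he : e ∈ G.E) (hc : G.Cross X e) : NE G X Xi e := by
  refine ⟨he, hc.touch, fun j hj => hc.not_inner ⟨h.sub j hj.1, h.sub j hj.2⟩⟩

theorem Split.cases {ι : Type} {G : Gr Q} {X H : Finset ℕ} {Xi : ι → Finset ℕ} {e : ℕ}
    (he : e ∈ G.E) (ht : G.Touch X e) : (∃ i, G.Inner (Xi i) e) ∨ NE G X Xi e := by
  by_cases h : ∃ i, G.Inner (Xi i) e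
  · exact Or.inl h
  · push Not at h
    exact Or.inr ⟨he, ht, h⟩

/-- The gluing lemma: an injection of the parts with immersions, an injection of the hubs, and a
compatible injection `ε` of the remaining edges. -/
theorem glue [Preorder Q] {G G' : Gr Q} {X X' : Finset ℕ} (en : En G X) (en' : En G' X')
    {ι ι' : Type} {Xi : ι → Finset ℕ} (ei : ∀ i, En G (Xi i))
    {Xi' : ι' → Finset ℕ} (ei' : ∀ i, En G' (Xi' i)) {H H' : Finset ℕ}
    (hS : Split X H Xi) (hS' : Split X' H' Xi')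
    (φ : ι → ι') (hφ : Function.Injective φ)
    (θ : ℕ → ℕ) (hθ : ∀ x ∈ H, θ x ∈ H') (hθi : ∀ x ∈ H, ∀ y ∈ H, θ x = θ y → x = y)
    (hθl : ∀ x ∈ H, G.lab x ≤ G'.lab (θ x))
    (him : ∀ i, Rp ⟨G, Xi i, ei i⟩ ⟨G', Xi' (φ i), ei' (φ i)⟩)
    (hn : en.n = en'.n) (ε : ℕ → ℕ)
    (ε_in : ∀ e, NE G X Xi e → G.Inner X e → ε e ∈ G'.E ∧ G'.Inner X' (ε e))
    (ε_bd : ∀ j < en.n, ε (en.o j) = en'.o j)
    (ε_part : ∀ i, ∀ a < (ei i).n, ε ((ei i).o a) = (ei' (φ i)).o a)
    (ε_inj : ∀ e f, NE G X Xi e → NE G X Xi f → ε e = ε f → e = f)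
    (ε_hub : ∀ e, NE G X Xi e → ∀ x ∈ H, G.Inc e x ↔ G'.Inc (ε e) (θ x)) :
    Rp ⟨G, X, en⟩ ⟨G', X', en'⟩ := by
  classical
  choose ηi Φi hi using him
  have hni : ∀ i, (ei i).n = (ei' (φ i)).n := fun i => (hi i).n_eq
  -- the vertex map
  let η : ℕ → ℕ := fun x => if h : ∃ i, x ∈ Xi i then ηi h.choose x else θ x
  have ηp : ∀ i x, x ∈ Xi i → η x = ηi i x := by
    intro i x hx
    have h : ∃ i, x ∈ Xi i := ⟨i, hx⟩
    have h2 : h.choose = i := hS.uniq h.choose_spec hx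
    simp only [η, dif_pos h, h2]
  have ηh : ∀ x ∈ H, η x = θ x := by
    intro x hx
    have h : ¬ ∃ i, x ∈ Xi i := fun ⟨i, hxi⟩ => Finset.disjoint_left.1 (hS.disjH i) hx hxi
    simp only [η, dif_neg h]
  -- the edge map
  let Φ : ℕ → Set ℕ := fun e => {g | (∃ i, G.Inner (Xi i) e ∧ g ∈ Φi i e) ∨
    ((∀ i, ¬ G.Inner (Xi i) e) ∧ (g = ε e ∨ ∃ i, G.Touch (Xi i) e ∧ g ∈ Φi i e))}
  have Φin : ∀ i e, G.Inner (Xi i) e → Φ e = Φi i e := by
    intro i e hie
    ext g
    constructor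
    · rintro (⟨j, hj, hg⟩ | ⟨h, _⟩)
      · rwa [hS.uniq hie.1 hj.1]
      · exact absurd hie (h i)
    · exact fun hg => Or.inl ⟨i, hie, hg⟩
  have ΦN : ∀ e, NE G X Xi e → ∀ g, g ∈ Φ e ↔ (g = ε e ∨ ∃ i, G.Touch (Xi i) e ∧ g ∈ Φi i e) := by
    intro e he g
    constructor
    · rintro (⟨j, hj, hg⟩ | ⟨_, h⟩)
      · exact absurd hj (he.2.2 j)
      · exact h
    · exact fun hg => Or.inr ⟨he.2.2, hg⟩
  -- an edge of `NE` that touches a part is a boundary edge of this part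
  have tc : ∀ e i, NE G X Xi e → G.Touch (Xi i) e → ∃ a < (ei i).n, (ei i).o a = e := by
    intro e i he ht
    rcases touch_iff.1 ht with h | h
    · exact absurd h (he.2.2 i)
    · exact (ei i).mem e |>.2 (G.mem_bd.2 ⟨he.1, h⟩)
  have cr : ∀ i, ∀ a < (ei i).n, G.Cross (Xi i) ((ei i).o a) ∧ (ei i).o a ∈ G.E := by
    intro i a ha
    have := G.mem_bd.1 (((ei i).mem _).1 ⟨a, ha, rfl⟩)
    exact ⟨this.2, this.1⟩
  have cr' : ∀ i, ∀ a < (ei i).n, G'.Cross (Xi' (φ i)) ((ei' (φ i)).o a) ∧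
      (ei' (φ i)).o a ∈ G'.E := by
    intro i a ha
    have := G'.mem_bd.1 (((ei' (φ i)).mem _).1 ⟨a, hni i ▸ ha, rfl⟩)
    exact ⟨this.2, this.1⟩
  have crX : ∀ j < en.n, G.Cross X (en.o j) ∧ en.o j ∈ G.E := by
    intro j hj
    have := G.mem_bd.1 ((en.mem _).1 ⟨j, hj, rfl⟩)
    exact ⟨this.2, this.1⟩
  have crX' : ∀ j < en.n, G'.Cross X' (en'.o j) ∧ en'.o j ∈ G'.E := by
    intro j hj
    have := G'.mem_bd.1 ((en'.mem _).1 ⟨j, hn ▸ hj, rfl⟩)
    exact ⟨this.2, this.1⟩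
  -- images of `NE` edges are not inside parts
  have ε_not : ∀ e, NE G X Xi e → ∀ i, ¬ G'.Inner (Xi' (φ i)) (ε e) := by
    intro e he i hin
    by_cases hp : ∃ l, G.Touch (Xi l) e
    · obtain ⟨l, hl⟩ := hp
      obtain ⟨a, ha, rfl⟩ := tc e l he hl
      rw [ε_part l a ha] at hin
      have hc := (cr' l a ha).1
      obtain ⟨x, hx, hxl⟩ := cross_end hc
      have hil := hS'.uniq hxl (inner_end hin hx)
      rw [← hil] at hin
      exact hc.not_inner hin
    · push Not at hp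
      obtain ⟨x, hx, hxX⟩ := touch_end.1 he.2.1
      rcases (hS.mem x).1 hxX with hxH | ⟨l, hxl⟩
      · have h1 := (ε_hub e he x hxH).1 hx
        exact Finset.disjoint_left.1 (hS'.disjH (φ i)) (hθ x hxH) (inner_end hin h1)
      · exact hp l (touch_end.2 ⟨x, hx, hxl⟩)
  have ε_E : ∀ e, NE G X Xi e → ε e ∈ G'.E := by
    intro e he
    rcases touch_iff.1 he.2.1 with h | h
    · exact (ε_in e he h).1
    · obtain ⟨j, hj, rfl⟩ := (en.mem e).2 (G.mem_bd.2 ⟨he.1, h⟩)
      rw [ε_bd j hj]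
      exact (crX' j hj).2
  have ε_touch : ∀ e, NE G X Xi e → ∀ i, G'.Touch (Xi' (φ i)) (ε e) → G.Touch (Xi i) e := by
    intro e he i ht
    rcases touch_iff.1 ht with h | h
    · exact absurd h (ε_not e he i)
    · obtain ⟨a, ha, hae⟩ := ((ei' (φ i)).mem (ε e)).2 (G'.mem_bd.2 ⟨ε_E e he, h⟩)
      have ha' : a < (ei i).n := hni i ▸ ha
      have h1 := cr i a ha'
      have h2 : (ei i).o a = e := ε_inj _ _ (hS.ne_o h1.2 h1.1) he (by rw [ε_part i a ha', hae])
      rw [← h2]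
      exact h1.1.touch
  -- elements of `Φi i e` for a boundary edge
  have Φpart : ∀ e i, NE G X Xi e → G.Touch (Xi i) e → ∀ g ∈ Φi i e,
      g = ε e ∨ (g ∈ G'.E ∧ G'.Inner (Xi' (φ i)) g) := by
    intro e i he ht g hg
    obtain ⟨a, ha, rfl⟩ := tc e i he ht
    rw [ε_part i a ha]
    exact (hi i).sub_bd a ha g hg
  have Φmem : ∀ e i, NE G X Xi e → G.Touch (Xi i) e → ε e ∈ Φi i e := by
    intro e i he ht
    obtain ⟨a, ha, rfl⟩ := tc e i he ht
    rw [ε_part i a ha]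
    exact (hi i).mem_bd a ha
  have inX' : ∀ i g, G'.Inner (Xi' (φ i)) g → G'.Inner X' g := fun i g h =>
    ⟨hS'.sub _ h.1, hS'.sub _ h.2⟩
  -- connectivity of an `NE` edge
  have conn : ∀ e, NE G X Xi e → ∀ x, G.Inc e x → x ∈ X → ∀ z, G'.Inc (ε e) z →
      G'.Conn (Φ e) z (η x) := by
    intro e he x hx hxX z hz
    rcases (hS.mem x).1 hxX with hxH | ⟨i, hxi⟩
    · rw [ηh x hxH]
      exact conn_edge ((ΦN e he _).2 (Or.inl rfl)) hz ((ε_hub e he x hxH).1 hx)
    · have ht : G.Touch (Xi i) e := touch_end.2 ⟨x, hx, hxi⟩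
      rw [ηp i x hxi]
      have hsub : Φi i e ⊆ Φ e := fun g hg => (ΦN e he g).2 (Or.inr ⟨i, ht, hg⟩)
      refine Conn.mono hsub ?_
      obtain ⟨a, ha, rfl⟩ := tc e i he ht
      rw [ε_part i a ha] at hz
      exact (hi i).conn_bd a ha x hx hxi z hz
  refine ⟨η, Φ, ?_⟩
  constructor
  · exact hn
  · -- maps
    intro x hx
    rcases (hS.mem x).1 hx with hxH | ⟨i, hxi⟩
    · rw [ηh x hxH]
      exact (hS'.mem _).2 (Or.inl (hθ x hxH))
    · rw [ηp i x hxi]
      exact hS'.sub _ ((hi i).maps x hxi)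
  · -- inj
    intro x hx y hy hxy
    rcases (hS.mem x).1 hx with hxH | ⟨i, hxi⟩ <;> rcases (hS.mem y).1 hy with hyH | ⟨j, hyj⟩
    · rw [ηh x hxH, ηh y hyH] at hxy
      exact hθi x hxH y hyH hxy
    · rw [ηh x hxH, ηp j y hyj] at hxy
      exact absurd (hxy ▸ (hi j).maps y hyj) (Finset.disjoint_left.1 (hS'.disjH (φ j)) (hθ x hxH))
    · rw [ηh y hyH, ηp i x hxi] at hxy
      exact absurd (hxy ▸ (hi i).maps x hxi) (Finset.disjoint_left.1 (hS'.disjH (φ i)) (hθ y hyH))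
    · rw [ηp i x hxi, ηp j y hyj] at hxy
      have h1 : φ i = φ j := hS'.uniq ((hi i).maps x hxi) (hxy ▸ (hi j).maps y hyj)
      have h2 : i = j := hφ h1
      subst h2
      exact (hi i).inj x hxi y hyj hxy
  · -- lab
    intro x hx
    rcases (hS.mem x).1 hx with hxH | ⟨i, hxi⟩
    · show G.lab x ≤ G'.lab (η x)
      rw [ηh x hxH]
      exact hθl x hxH
    · show G.lab x ≤ G'.lab (η x)
      rw [ηp i x hxi]
      exact (hi i).lab x hxi
  · -- sub_in
    intro e he hin f hf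
    rcases Split.cases (H := H) (Xi := Xi) he hin.touch with ⟨i, hii⟩ | hN
    · rw [Φin i e hii] at hf
      obtain ⟨h1, h2⟩ := (hi i).sub_in e he hii f hf
      exact ⟨h1, inX' i f h2⟩
    · rcases (ΦN e hN f).1 hf with rfl | ⟨i, ht, hf⟩
      · exact ε_in e hN hin
      · rcases Φpart e i hN ht f hf with rfl | ⟨h1, h2⟩
        · exact ε_in e hN hin
        · exact ⟨h1, inX' i f h2⟩
  · -- sub_bd
    intro j hj f hf
    have hN : NE G X Xi (en.o j) := hS.ne_bd (crX j hj).2 (crX j hj).1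
    rcases (ΦN _ hN f).1 hf with rfl | ⟨i, ht, hf⟩
    · exact Or.inl (ε_bd j hj)
    · rcases Φpart _ i hN ht f hf with rfl | ⟨h1, h2⟩
      · exact Or.inl (ε_bd j hj)
      · exact Or.inr ⟨h1, inX' i f h2⟩
  · -- mem_bd
    intro j hj
    have hN : NE G X Xi (en.o j) := hS.ne_bd (crX j hj).2 (crX j hj).1
    exact (ΦN _ hN _).2 (Or.inl (ε_bd j hj).symm)
  · -- conn_in
    intro e he hin
    rcases Split.cases (H := H) (Xi := Xi) he hin.touch with ⟨i, hii⟩ | hN
    · show G'.Conn (Φ e) (η (G.a e)) (η (G.b e))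
      rw [Φin i e hii, ηp i _ hii.1, ηp i _ hii.2]
      exact (hi i).conn_in e he hii
    · exact (conn e hN _ (inc_a G e) hin.1 _ (inc_a G' (ε e))).symm.trans
        (conn e hN _ (inc_b G e) hin.2 _ (inc_a G' (ε e)))
  · -- conn_bd
    intro j hj x hx hxX z hz
    have hN : NE G X Xi (en.o j) := hS.ne_bd (crX j hj).2 (crX j hj).1
    refine conn _ hN x hx hxX z ?_
    rw [ε_bd j hj]
    exact hz
  · -- disj
    intro e he f hf hte htf hef
    rw [Set.disjoint_left]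
    intro g hg hg'
    rcases Split.cases (H := H) (Xi := Xi) he hte with ⟨i, hii⟩ | hNe <;>
      rcases Split.cases (H := H) (Xi := Xi) hf htf with ⟨l, hll⟩ | hNf
    · rw [Φin i e hii] at hg
      rw [Φin l f hll] at hg'
      by_cases hil : i = l
      · subst hil
        exact Set.disjoint_left.1 ((hi i).disj e he f hf hii.touch hll.touch hef) hg hg'
      · have h1 := ((hi i).sub_in e he hii g hg).2
        have h2 := ((hi l).sub_in f hf hll g hg').2
        exact hil (hφ (hS'.uniq h1.1 h2.1))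
    · rw [Φin i e hii] at hg
      have h1 := ((hi i).sub_in e he hii g hg).2
      rcases (ΦN f hNf g).1 hg' with rfl | ⟨l, htl, hg'⟩
      · exact ε_not f hNf i h1
      · rcases Φpart f l hNf htl g hg' with rfl | ⟨_, h2⟩
        · exact ε_not f hNf i h1
        · have hil : i = l := hφ (hS'.uniq h1.1 h2.1)
          subst hil
          exact Set.disjoint_left.1 ((hi i).disj e he f hf hii.touch htl hef) hg hg'
    · rw [Φin l f hll] at hg'
      have h1 := ((hi l).sub_in f hf hll g hg').2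
      rcases (ΦN e hNe g).1 hg with rfl | ⟨i, hti, hg⟩
      · exact ε_not e hNe l h1
      · rcases Φpart e i hNe hti g hg with rfl | ⟨_, h2⟩
        · exact ε_not e hNe l h1
        · have hil : i = l := hφ (hS'.uniq h2.1 h1.1)
          subst hil
          exact Set.disjoint_left.1 ((hi i).disj e he f hf hti hll.touch hef) hg hg'
    · rcases (ΦN e hNe g).1 hg with rfl | ⟨i, hti, hg⟩
      · rcases (ΦN f hNf _).1 hg' with h | ⟨l, htl, hg'⟩
        · exact hef (ε_inj e f hNe hNf h)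
        · rcases Φpart f l hNf htl _ hg' with h | ⟨_, h2⟩
          · exact hef (ε_inj e f hNe hNf h)
          · exact ε_not e hNe l h2
      · rcases (ΦN f hNf g).1 hg' with rfl | ⟨l, htl, hg'⟩
        · rcases Φpart e i hNe hti _ hg with h | ⟨_, h2⟩
          · exact hef (ε_inj e f hNe hNf h.symm)
          · exact ε_not f hNf i h2
        · rcases Φpart e i hNe hti g hg with rfl | ⟨_, h2⟩
          · rcases Φpart f l hNf htl _ hg' with h | ⟨_, h3⟩
            · exact hef (ε_inj e f hNe hNf h)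
            · exact ε_not e hNe l h3
          · rcases Φpart f l hNf htl g hg' with rfl | ⟨_, h3⟩
            · exact ε_not f hNf i h2
            · have hil : i = l := hφ (hS'.uniq h2.1 h3.1)
              subst hil
              exact Set.disjoint_left.1 ((hi i).disj e he f hf hti htl hef) hg hg'
  · -- strong
    intro e he hte y hy hey f hf
    show ¬ G'.Inc f (η y)
    rcases Split.cases (H := H) (Xi := Xi) he hte with ⟨i, hii⟩ | hN
    · rw [Φin i e hii] at hf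
      have hfin := ((hi i).sub_in e he hii f hf).2
      rcases (hS.mem y).1 hy with hyH | ⟨l, hyl⟩
      · rw [ηh y hyH]
        intro hc
        exact Finset.disjoint_left.1 (hS'.disjH (φ i)) (hθ y hyH) (inner_end hfin hc)
      · rw [ηp l y hyl]
        by_cases hil : i = l
        · subst hil
          exact (hi i).strong e he hii.touch y hyl hey f hf
        · intro hc
          exact hil (hφ (hS'.uniq (inner_end hfin hc) ((hi l).maps y hyl)))
    · have hcase : f = ε e ∨ ∃ i, G.Touch (Xi i) e ∧ f ∈ Φi i e ∧ G'.Inner (Xi' (φ i)) f := by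
        rcases (ΦN e hN f).1 hf with h | ⟨i, ht, hf⟩
        · exact Or.inl h
        · rcases Φpart e i hN ht f hf with h | ⟨_, h⟩
          · exact Or.inl h
          · exact Or.inr ⟨i, ht, hf, h⟩
      rcases hcase with rfl | ⟨i, hti, hf, hfin⟩
      · rcases (hS.mem y).1 hy with hyH | ⟨l, hyl⟩
        · rw [ηh y hyH]
          exact fun hc => hey ((ε_hub e hN y hyH).2 hc)
        · rw [ηp l y hyl]
          by_cases htl : G.Touch (Xi l) e
          · exact (hi l).strong e he htl y hyl hey _ (Φmem e l hN htl)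
          · intro hc
            exact htl (ε_touch e hN l (touch_end.2 ⟨_, hc, (hi l).maps y hyl⟩))
      · rcases (hS.mem y).1 hy with hyH | ⟨l, hyl⟩
        · rw [ηh y hyH]
          intro hc
          exact Finset.disjoint_left.1 (hS'.disjH (φ i)) (hθ y hyH) (inner_end hfin hc)
        · rw [ηp l y hyl]
          by_cases hil : i = l
          · subst hil
            exact (hi i).strong e he hti y hyl hey f hf
          · intro hc
            exact hil (hφ (hS'.uniq (inner_end hfin hc) ((hi l).maps y hyl)))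

end Pool.Agent.W2411c4
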