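import Pool.Agent.W_2411c4_h59.Pwo
import Pool.Agent.W_2411c4_h59.Node

/-! Pieces with boundedly many hub vertices. -/

set_option autoImplicit false

open Set

namespace Pool.Agent.W2411c4

variable {Q : Type}

open Gr

/-- the edges with ends `u` and `v` -/
def EH (G : Gr Q) (u v : ℕ) : Finset ℕ :=
  G.E.filter fun e => (G.a e = u ∧ G.b e = v) ∨ (G.a e = v ∧ G.b e = u)

theorem mem_EH {G : Gr Q} {u v e : ℕ} :
    e ∈ EH G u v ↔ e ∈ G.E ∧ ((G.a e = u ∧ G.b e = v) ∨ (G.a e = v ∧ G.b e = u)) := by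
  simp [EH]

theorem EH_inc {G : Gr Q} {u v e x : ℕ} (h : e ∈ EH G u v) : G.Inc e x ↔ x = u ∨ x = v := by
  obtain ⟨_, ⟨h1, h2⟩ | ⟨h1, h2⟩⟩ := mem_EH.1 h
  · unfold Gr.Inc
    rw [h1, h2]
  · unfold Gr.Inc
    rw [h1, h2]
    tauto

theorem exists_inj (S T : Finset ℕ) (h : S.card ≤ T.card) :
    ∃ f : ℕ → ℕ, (∀ x ∈ S, f x ∈ T) ∧ ∀ x ∈ S, ∀ y ∈ S, f x = f y → x = y := by
  classical
  obtain ⟨g⟩ : Nonempty (↥S ↪ ↥T) := by
    apply Function.Embedding.nonempty_of_card_le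
    simpa using h
  refine ⟨fun x => if hx : x ∈ S then (g ⟨x, hx⟩).1 else 0, ?_, ?_⟩
  · intro x hx
    simp only [dif_pos hx]
    exact (g ⟨x, hx⟩).2
  · intro x hx y hy hxy
    simp only [dif_pos hx, dif_pos hy] at hxy
    exact congrArg Subtype.val (g.injective (Subtype.ext hxy))

/-- injection of the edges inside the hub set -/
theorem hub_inj {G G' : Gr Q} (s : ℕ) (h h' : ℕ → ℕ)
    (hi : ∀ l < s, ∀ m < s, h l = h m → l = m) (hi' : ∀ l < s, ∀ m < s, h' l = h' m → l = m)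
    (hm : ∀ l < s, ∀ m < s, (EH G (h l) (h m)).card ≤ (EH G' (h' l) (h' m)).card) :
    ∃ f : ℕ → ℕ, (∀ e ∈ G.E, (∃ l < s, G.a e = h l) → (∃ m < s, G.b e = h m) →
      f e ∈ G'.E ∧ (∀ z, G'.Inc (f e) z → ∃ l < s, z = h' l) ∧
        ∀ l < s, (G.Inc e (h l) ↔ G'.Inc (f e) (h' l))) ∧
      ∀ e ∈ G.E, (∃ l < s, G.a e = h l) → (∃ m < s, G.b e = h m) →
      ∀ f' ∈ G.E, (∃ l < s, G.a f' = h l) → (∃ m < s, G.b f' = h m) → f e = f f' → e = f' := by
  classical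
  have h1 : ∀ l m, ∃ f : ℕ → ℕ, l < s → m < s → (∀ x ∈ EH G (h l) (h m), f x ∈ EH G' (h' l) (h' m)) ∧
      ∀ x ∈ EH G (h l) (h m), ∀ y ∈ EH G (h l) (h m), f x = f y → x = y := by
    intro l m
    by_cases hl : l < s
    · by_cases hm' : m < s
      · obtain ⟨f, h2, h3⟩ := exists_inj _ _ (hm l hl m hm')
        exact ⟨f, fun _ _ => ⟨h2, h3⟩⟩
      · exact ⟨id, fun _ h => absurd h hm'⟩
    · exact ⟨id, fun h => absurd h hl⟩
  choose g hg using h1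
  -- the sorted pair of an edge
  have h2 : ∀ e, ∃ p : ℕ × ℕ, e ∈ G.E → (∃ l < s, G.a e = h l) → (∃ m < s, G.b e = h m) →
      p.1 < p.2 ∧ p.1 < s ∧ p.2 < s ∧ e ∈ EH G (h p.1) (h p.2) := by
    intro e
    by_cases he : e ∈ G.E ∧ (∃ l < s, G.a e = h l) ∧ (∃ m < s, G.b e = h m)
    · obtain ⟨heE, ⟨l, hl, hle⟩, ⟨m, hm', hme⟩⟩ := he
      have hne : l ≠ m := by
        rintro rfl
        exact G.ne e heE (hle.trans hme.symm)
      rcases lt_or_gt_of_ne hne with hlt | hgt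
      · exact ⟨(l, m), fun _ _ _ => ⟨hlt, hl, hm', mem_EH.2 ⟨heE, Or.inl ⟨hle, hme⟩⟩⟩⟩
      · exact ⟨(m, l), fun _ _ _ => ⟨hgt, hm', hl, mem_EH.2 ⟨heE, Or.inr ⟨hle, hme⟩⟩⟩⟩
    · exact ⟨(0, 0), fun h3 h4 h5 => absurd ⟨h3, h4, h5⟩ he⟩
  choose p hp using h2
  refine ⟨fun e => g (p e).1 (p e).2 e, ?_, ?_⟩
  · intro e he ha hb
    obtain ⟨h3, h4, h5, h6⟩ := hp e he ha hb
    have h7 := (hg _ _ h4 h5).1 e h6
    refine ⟨(mem_EH.1 h7).1, ?_, ?_⟩
    · intro z hz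
      rcases (EH_inc h7).1 hz with h8 | h8
      · exact ⟨_, h4, h8⟩
      · exact ⟨_, h5, h8⟩
    · intro l hl
      rw [EH_inc h6, EH_inc h7]
      constructor
      · rintro (h8 | h8)
        · exact Or.inl (by rw [hi l hl _ h4 h8])
        · exact Or.inr (by rw [hi l hl _ h5 h8])
      · rintro (h8 | h8)
        · exact Or.inl (by rw [hi' l hl _ h4 h8])
        · exact Or.inr (by rw [hi' l hl _ h5 h8])
  · intro e he ha hb f' hf' ha' hb' heq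
    obtain ⟨h3, h4, h5, h6⟩ := hp e he ha hb
    obtain ⟨k3, k4, k5, k6⟩ := hp f' hf' ha' hb'
    have h7 := (hg _ _ h4 h5).1 e h6
    have k7 := (hg _ _ k4 k5).1 f' k6
    simp only at heq
    rw [← heq] at k7
    have e1 : p e = p f' := by
      have i1 := (EH_inc k7).1 ((EH_inc h7).2 (Or.inl rfl))
      have i2 := (EH_inc k7).1 ((EH_inc h7).2 (Or.inr rfl))
      rcases i1 with i1 | i1 <;> rcases i2 with i2 | i2
      · have := hi' _ h4 _ k4 i1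
        have := hi' _ h5 _ k4 i2
        omega
      · exact Prod.ext (hi' _ h4 _ k4 i1) (hi' _ h5 _ k5 i2)
      · have := hi' _ h4 _ k5 i1
        have := hi' _ h5 _ k4 i2
        omega
      · have := hi' _ h4 _ k5 i1
        have := hi' _ h5 _ k5 i2
        omega
    rw [← e1] at k6 heq
    exact (hg _ _ h4 h5).2 e h6 f' k6 heq

theorem hubs_step [Preorder Q] {P P' : Pc Q} {ι ι' : Type} {Xi : ι → Finset ℕ}
    {Xi' : ι' → Finset ℕ} {H H' : Finset ℕ} (ei : ∀ i, En P.G (Xi i)) (ei' : ∀ i, En P'.G (Xi' i))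
    (hS : Split P.X H Xi) (hS' : Split P'.X H' Xi') (s : ℕ) (h h' : ℕ → ℕ)
    (hh : ∀ x, x ∈ H ↔ ∃ l < s, x = h l) (hh' : ∀ x, x ∈ H' ↔ ∃ l < s, x = h' l)
    (hi : ∀ l < s, ∀ m < s, h l = h m → l = m) (hi' : ∀ l < s, ∀ m < s, h' l = h' m → l = m)
    (hlab : ∀ l < s, P.G.lab (h l) ≤ P'.G.lab (h' l))
    (hsep : ∀ e ∈ P.G.E, ∀ i j, P.G.Touch (Xi i) e → P.G.Touch (Xi j) e → i = j)
    (hsep' : ∀ e ∈ P'.G.E, ∀ i j, P'.G.Touch (Xi' i) e → P'.G.Touch (Xi' j) e → i = j)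
    (hn : P.n = P'.n) (φ : ι → ι') (hφ : Function.Injective φ)
    (hR : ∀ i, Rp ⟨P.G, Xi i, ei i⟩ ⟨P'.G, Xi' (φ i), ei' (φ i)⟩)
    (hB : ∀ i, ∀ a < (ei i).n, ∀ j < P.n, (ei i).o a = P.o j ↔ (ei' (φ i)).o a = P'.o j)
    (hC : ∀ i, ∀ a < (ei i).n, ∀ l < s,
      P.G.Inc ((ei i).o a) (h l) ↔ P'.G.Inc ((ei' (φ i)).o a) (h' l))
    (hM : ∀ j < P.n, ∀ l < s, P.G.Inc (P.o j) (h l) ↔ P'.G.Inc (P'.o j) (h' l))
    (hm : ∀ l < s, ∀ m < s, (EH P.G (h l) (h m)).card ≤ (EH P'.G (h' l) (h' m)).card) :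
    Rp P P' := by
  classical
  have hni : ∀ i, (ei i).n = (ei' (φ i)).n := fun i => (hR i).n_eq
  obtain ⟨f, hf1, hf2⟩ := hub_inj (G := P.G) (G' := P'.G) s h h' hi hi' hm
  have hcr : ∀ i a, a < (ei i).n → (ei i).o a ∈ P.G.E ∧ P.G.Cross (Xi i) ((ei i).o a) := by
    intro i a ha
    exact P.G.mem_bd.1 (((ei i).mem _).1 ⟨a, ha, rfl⟩)
  have hcr' : ∀ i a, a < (ei i).n → (ei' (φ i)).o a ∈ P'.G.E ∧
      P'.G.Cross (Xi' (φ i)) ((ei' (φ i)).o a) := by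
    intro i a ha
    exact P'.G.mem_bd.1 (((ei' (φ i)).mem _).1 ⟨a, hni i ▸ ha, rfl⟩)
  have hNE : ∀ e, NE P.G P.X Xi e → (∃ i a, a < (ei i).n ∧ (ei i).o a = e) ∨
      ((∀ i, ¬ P.G.Touch (Xi i) e) ∧ ∃ j < P.n, P.o j = e) ∨
      ((∀ i, ¬ P.G.Touch (Xi i) e) ∧ P.G.Inner P.X e ∧ (∃ l < s, P.G.a e = h l) ∧
        ∃ l < s, P.G.b e = h l) := by
    rintro e ⟨heE, ht, hni⟩
    by_cases hp : ∃ i, P.G.Touch (Xi i) e
    · left
      obtain ⟨i, hi⟩ := hp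
      rcases touch_iff.1 hi with h1 | h1
      · exact absurd h1 (hni i)
      · obtain ⟨a, ha, hae⟩ := ((ei i).mem e).2 (P.G.mem_bd.2 ⟨heE, h1⟩)
        exact ⟨i, a, ha, hae⟩
    · right
      push Not at hp
      rcases touch_iff.1 ht with h1 | h1
      · right
        have hends : ∀ z, P.G.Inc e z → ∃ l < s, z = h l := by
          intro z hz
          rcases (hS.mem z).1 (inner_end h1 hz) with h2 | ⟨i, h2⟩
          · exact (hh z).1 h2
          · exact absurd (touch_end.2 ⟨z, hz, h2⟩) (hp i)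
        exact ⟨hp, h1, hends _ (inc_a _ _), hends _ (inc_b _ _)⟩
      · left
        exact ⟨hp, P.exists_o heE h1⟩
  let ε : ℕ → ℕ := fun e =>
    if h : ∃ i a, a < (ei i).n ∧ (ei i).o a = e then (ei' (φ h.choose)).o h.choose_spec.choose
    else if h' : ∃ j, j < P.n ∧ P.o j = e then P'.o h'.choose else f e
  have huq : ∀ i' a' i a, a' < (ei i').n → a < (ei i).n → (ei i').o a' = (ei i).o a →
      (ei' (φ i')).o a' = (ei' (φ i)).o a := by
    intro i' a' i a ha' ha h1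
    have h3 : i' = i :=
      hsep _ (hcr i a ha).1 _ _ (h1 ▸ (hcr i' a' ha').2.touch) (hcr i a ha).2.touch
    subst h3
    rw [(ei i').inj _ ha' _ ha h1]
  have hεA : ∀ i a, a < (ei i).n → ε ((ei i).o a) = (ei' (φ i)).o a := by
    intro i a ha
    have h1 : ∃ i' a', a' < (ei i').n ∧ (ei i').o a' = (ei i).o a := ⟨i, a, ha, rfl⟩
    have h2 := h1.choose_spec.choose_spec
    simp only [ε, dif_pos h1]
    exact huq _ _ _ _ h2.1 ha h2.2
  have hnoA : ∀ e, (∀ i, ¬ P.G.Touch (Xi i) e) → ¬ ∃ i' a', a' < (ei i').n ∧ (ei i').o a' = e := by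
    rintro e hp ⟨i, a, ha, hae⟩
    exact hp i (hae ▸ (hcr i a ha).2.touch)
  have hεB : ∀ j, j < P.n → (∀ i, ¬ P.G.Touch (Xi i) (P.o j)) → ε (P.o j) = P'.o j := by
    intro j hj hp
    have h1 : ∃ j', j' < P.n ∧ P.o j' = P.o j := ⟨j, hj, rfl⟩
    simp only [ε, dif_neg (hnoA _ hp), dif_pos h1]
    rw [P.o_inj h1.choose_spec.1 hj h1.choose_spec.2]
  have hεC : ∀ e, (∀ i, ¬ P.G.Touch (Xi i) e) → P.G.Inner P.X e → ε e = f e := by
    intro e hp hin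
    have h1 : ¬ ∃ j', j' < P.n ∧ P.o j' = e := by
      rintro ⟨j, hj, rfl⟩
      exact (P.o_cross hj).not_inner hin
    simp only [ε, dif_neg (hnoA _ hp), dif_neg h1]
  have hin : ∀ i a, a < (ei i).n → P.G.Inner P.X ((ei i).o a) →
      P'.G.Inner P'.X ((ei' (φ i)).o a) := by
    intro i a ha hi
    have hb := hcr' i a ha
    obtain ⟨x, hx, hxi⟩ := cross_end hb.2
    rcases touch_iff.1 (touch_end.2 ⟨x, hx, hS'.sub _ hxi⟩) with h1 | h1
    · exact h1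
    · exfalso
      obtain ⟨j, hj, hje⟩ := P'.exists_o hb.1 h1
      have hj' : j < P.n := hn ▸ hj
      have h3 := (hB i a ha j hj').2 hje.symm
      exact (P.o_cross hj').not_inner (h3 ▸ hi)
  have hfin : ∀ e ∈ P.G.E, (∃ l < s, P.G.a e = h l) → (∃ l < s, P.G.b e = h l) →
      f e ∈ P'.G.E ∧ P'.G.Inner H' (f e) := by
    intro e he h1 h2
    obtain ⟨h3, h4, _⟩ := hf1 e he h1 h2
    exact ⟨h3, (hh' _).2 (h4 _ (inc_a _ _)), (hh' _).2 (h4 _ (inc_b _ _))⟩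
  have hH'X : ∀ z ∈ H', z ∈ P'.X := fun z hz => (hS'.mem z).2 (Or.inl hz)
  let θ : ℕ → ℕ := fun x => if hx : ∃ l, l < s ∧ x = h l then h' hx.choose else 0
  have hθ : ∀ l < s, θ (h l) = h' l := by
    intro l hl
    have hx : ∃ l', l' < s ∧ h l = h l' := ⟨l, hl, rfl⟩
    simp only [θ, dif_pos hx]
    exact congrArg h' (hi l hl _ hx.choose_spec.1 hx.choose_spec.2).symm
  refine glue P.en P'.en ei ei' hS hS' φ hφ θ ?_ ?_ ?_ hR hn ε ?_ ?_ ?_ ?_ ?_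
  · intro x hx
    obtain ⟨l, hl, rfl⟩ := (hh x).1 hx
    rw [hθ l hl]
    exact (hh' _).2 ⟨l, hl, rfl⟩
  · intro x hx y hy hxy
    obtain ⟨l, hl, rfl⟩ := (hh x).1 hx
    obtain ⟨m, hm', rfl⟩ := (hh y).1 hy
    rw [hθ l hl, hθ m hm'] at hxy
    rw [hi' l hl m hm' hxy]
  · intro x hx
    obtain ⟨l, hl, rfl⟩ := (hh x).1 hx
    rw [hθ l hl]
    exact hlab l hl
  · intro e he hinn
    rcases hNE e he with ⟨i, a, ha, rfl⟩ | ⟨hp, j, hj, rfl⟩ | ⟨hp, hinn', h1, h2⟩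
    · rw [hεA i a ha]
      exact ⟨(hcr' i a ha).1, hin i a ha hinn⟩
    · exact absurd hinn (P.o_cross hj).not_inner
    · rw [hεC e hp hinn']
      obtain ⟨h3, h4⟩ := hfin e he.1 h1 h2
      exact ⟨h3, hH'X _ h4.1, hH'X _ h4.2⟩
  · intro j hj
    show ε (P.o j) = P'.o j
    have hN : NE P.G P.X Xi (P.o j) := hS.ne_bd (P.o_E hj) (P.o_cross hj)
    rcases hNE _ hN with ⟨i, a, ha, hae⟩ | ⟨hp, _⟩ | ⟨hp, hinn', _⟩
    · rw [← hae, hεA i a ha]
      exact (hB i a ha j hj).1 hae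
    · exact hεB j hj hp
    · exact absurd hinn' (P.o_cross hj).not_inner
  · intro i a ha
    exact hεA i a ha
  · have hAC : ∀ i a, a < (ei i).n → ∀ g ∈ P.G.E, (∃ l < s, P.G.a g = h l) →
        (∃ l < s, P.G.b g = h l) → (ei' (φ i)).o a ≠ f g := by
      intro i a ha g hg h1 h2 heq
      obtain ⟨x, hx, hxi⟩ := cross_end (hcr' i a ha).2
      have h3 := (hfin g hg h1 h2).2
      rw [← heq] at h3
      exact Finset.disjoint_left.1 (hS'.disjH (φ i)) (inner_end h3 hx) hxi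
    have hBC : ∀ j < P.n, ∀ g ∈ P.G.E, (∃ l < s, P.G.a g = h l) →
        (∃ l < s, P.G.b g = h l) → P'.o j ≠ f g := by
      intro j hj g hg h1 h2 heq
      have h3 := (hfin g hg h1 h2).2
      rw [← heq] at h3
      have hj' : j < P'.n := hn ▸ hj
      exact (P'.o_cross hj').not_inner ⟨hH'X _ h3.1, hH'X _ h3.2⟩
    intro e g he hg heq
    rcases hNE e he with ⟨i, a, ha, rfl⟩ | ⟨hp, j, hj, rfl⟩ | ⟨hp, hinn, h1, h2⟩ <;>
      rcases hNE g hg with ⟨l, b, hb, rfl⟩ | ⟨hq, m, hm', rfl⟩ | ⟨hq, hinn', k1, k2⟩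
    · rw [hεA i a ha, hεA l b hb] at heq
      have h1 := hcr' i a ha
      have h2 := hcr' l b hb
      have h3 : φ i = φ l := hsep' _ h1.1 _ _ h1.2.touch (heq ▸ h2.2.touch)
      have h4 : i = l := hφ h3
      subst h4
      rw [(ei' (φ i)).inj a (hni i ▸ ha) b (hni i ▸ hb) heq]
    · exfalso
      rw [hεA i a ha, hεB m hm' hq] at heq
      have h1 := (hB i a ha m hm').2 heq
      exact hq i (h1 ▸ (hcr i a ha).2.touch)
    · rw [hεA i a ha, hεC g hq hinn'] at heq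
      exact absurd heq (hAC i a ha g hg.1 k1 k2)
    · exfalso
      rw [hεA l b hb, hεB j hj hp] at heq
      have h1 := (hB l b hb j hj).2 heq.symm
      exact hp l (h1 ▸ (hcr l b hb).2.touch)
    · rw [hεB j hj hp, hεB m hm' hq] at heq
      rw [P'.o_inj (hn ▸ hj) (hn ▸ hm') heq]
    · rw [hεB j hj hp, hεC g hq hinn'] at heq
      exact absurd heq (hBC j hj g hg.1 k1 k2)
    · rw [hεA l b hb, hεC e hp hinn] at heq
      exact absurd heq.symm (hAC l b hb e he.1 h1 h2)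
    · rw [hεB m hm' hq, hεC e hp hinn] at heq
      exact absurd heq.symm (hBC m hm' e he.1 h1 h2)
    · rw [hεC e hp hinn, hεC g hq hinn'] at heq
      exact hf2 e he.1 h1 h2 g hg.1 k1 k2 heq
  · intro e he x hx
    obtain ⟨l, hl, rfl⟩ := (hh x).1 hx
    rw [hθ l hl]
    rcases hNE e he with ⟨i, a, ha, rfl⟩ | ⟨hp, j, hj, rfl⟩ | ⟨hp, hinn, h1, h2⟩
    · rw [hεA i a ha]
      exact hC i a ha l hl
    · rw [hεB j hj hp]
      exact hM j hj l hl
    · rw [hεC e hp hinn]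
      exact (hf1 e he.1 h1 h2).2.2 l hl

/-- pieces with at most `b` hub vertices whose other parts are in `W` and are not joined by edges -/
def HubsP (b K : ℕ) (W : Set (Pc Q)) : Set (Pc Q) :=
  {P | P.n ≤ K ∧ ∃ (s : ℕ) (Xi : Fin s → Finset ℕ) (ei : ∀ i, En P.G (Xi i)) (H : Finset ℕ),
    Split P.X H Xi ∧ H.card ≤ b ∧ (∀ i, (⟨P.G, Xi i, ei i⟩ : Pc Q) ∈ W ∧ (ei i).n ≤ K) ∧
    ∀ e ∈ P.G.E, ∀ i j, P.G.Touch (Xi i) e → P.G.Touch (Xi j) e → i = j}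

/-- relation of coded pieces -/
def DRp [Preorder Q] (b K : ℕ) (x y : ((Fin K → Fin K → Prop) × (Fin K → Fin b → Prop)) × Pc Q) :
    Prop := x.1 = y.1 ∧ Rp x.2 y.2

instance [Preorder Q] (b K : ℕ) :
    IsPreorder (((Fin K → Fin K → Prop) × (Fin K → Fin b → Prop)) × Pc Q) (DRp b K) where
  refl := fun x => ⟨rfl, Rp.refl x.2⟩
  trans := fun _ _ _ h h' => ⟨h.1.trans h'.1, h.2.trans h'.2⟩

theorem exists_enumN (H : Finset ℕ) : ∃ h : ℕ → ℕ, (∀ x, x ∈ H ↔ ∃ l < H.card, x = h l) ∧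
    ∀ l < H.card, ∀ m < H.card, h l = h m → l = m := by
  classical
  refine ⟨fun l => if hl : l < H.card then (H.equivFin.symm ⟨l, hl⟩).1 else 0, ?_, ?_⟩
  · intro x
    constructor
    · intro hx
      have h1 := (H.equivFin ⟨x, hx⟩).2
      refine ⟨(H.equivFin ⟨x, hx⟩).1, h1, ?_⟩
      simp only [dif_pos h1, Fin.eta, Equiv.symm_apply_apply]
    · rintro ⟨l, hl, rfl⟩
      simp only [dif_pos hl]
      exact (H.equivFin.symm ⟨l, hl⟩).2
  · intro l hl m hm hlm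
    simp only [dif_pos hl, dif_pos hm] at hlm
    have h1 := H.equivFin.symm.injective (Subtype.ext hlm)
    simpa using h1

theorem hubs_pwo [Preorder Q] (hQ : WellQuasiOrdered (fun x y : Q => x ≤ y)) (b K : ℕ)
    {W : Set (Pc Q)} (hW : W.PartiallyWellOrderedOn Rp) :
    (HubsP b K W).PartiallyWellOrderedOn Rp := by
  classical
  rw [partiallyWellOrderedOn_iff_exists_lt]
  intro f hf
  have hf' : ∀ n, (f n).n ≤ K ∧ ∃ (s : ℕ) (Xi : Fin s → Finset ℕ) (ei : ∀ i, En (f n).G (Xi i))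
      (H : Finset ℕ), Split (f n).X H Xi ∧ H.card ≤ b ∧
      (∀ i, (⟨(f n).G, Xi i, ei i⟩ : Pc Q) ∈ W ∧ (ei i).n ≤ K) ∧
      ∀ e ∈ (f n).G.E, ∀ i j, (f n).G.Touch (Xi i) e → (f n).G.Touch (Xi j) e → i = j := hf
  choose hK s Xi ei H hS hc hm hsep using hf'
  choose h hh hi using fun n => exists_enumN (H n)
  let σ : ∀ n, Fin (s n) → (Fin K → Fin K → Prop) × (Fin K → Fin b → Prop) := fun n i =>
    (fun a j => a.1 < (ei n i).n ∧ j.1 < (f n).n ∧ (ei n i).o a.1 = (f n).o j.1,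
      fun a l => a.1 < (ei n i).n ∧ l.1 < (H n).card ∧ (f n).G.Inc ((ei n i).o a.1) (h n l.1))
  let M : ℕ → Fin K → Fin b → Prop := fun n j l =>
    j.1 < (f n).n ∧ l.1 < (H n).card ∧ (f n).G.Inc ((f n).o j.1) (h n l.1)
  have h1 : (Set.univ : Set ((Fin K → Fin b → Prop) × Fin (b + 1) × Fin (K + 1))).PartiallyWellOrderedOn
      Eq := Set.finite_univ.partiallyWellOrderedOn
  have h2 : (Set.univ.pi fun _ : Fin b => (Set.univ : Set Q)).PartiallyWellOrderedOn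
      (fun x y : Fin b → Q => x ≤ y) :=
    PartiallyWellOrderedOn.pi (fun _ => partiallyWellOrderedOn_of_wellQuasiOrdered hQ _)
  have h2' : (Set.univ.pi fun _ : Fin b × Fin b => (Set.univ : Set ℕ)).PartiallyWellOrderedOn
      (fun x y : Fin b × Fin b → ℕ => x ≤ y) :=
    PartiallyWellOrderedOn.pi (fun _ => partiallyWellOrderedOn_of_wellQuasiOrdered
      (wellQuasiOrdered_le) _)
  have h3 : (Set.univ : Set ((Fin K → Fin K → Prop) × (Fin K → Fin b → Prop))).PartiallyWellOrderedOn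
      Eq := Set.finite_univ.partiallyWellOrderedOn
  have h4 : ((Set.univ : Set ((Fin K → Fin K → Prop) × (Fin K → Fin b → Prop))) ×ˢ
      W).PartiallyWellOrderedOn (DRp b K) := h3.prod hW
  have h5 := PartiallyWellOrderedOn.partiallyWellOrderedOn_sublistForall₂ (DRp b K) h4
  obtain ⟨m, n, hmn, hd, hq, hmu, hl⟩ := (h1.prod (h2.prod (h2'.prod h5))).exists_lt
    (f := fun n => ((M n, (⟨(H n).card, Nat.lt_succ_of_le (hc n)⟩ : Fin (b + 1)),
        (⟨(f n).n, Nat.lt_succ_of_le (hK n)⟩ : Fin (K + 1))),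
      (fun l : Fin b => (f n).G.lab (h n l.1)),
      (fun p : Fin b × Fin b => (EH (f n).G (h n p.1.1) (h n p.2.1)).card),
      List.ofFn (fun i => (σ n i, (⟨(f n).G, Xi n i, ei n i⟩ : Pc Q)))))
    (fun n => ⟨Set.mem_univ _, fun _ _ => Set.mem_univ _, fun _ _ => Set.mem_univ _, by
      intro x hx
      obtain ⟨i, rfl⟩ := (List.mem_ofFn' _ _).1 hx
      exact ⟨Set.mem_univ _, (hm n i).1⟩⟩)
  refine ⟨m, n, hmn, ?_⟩
  simp only [Prod.mk.injEq, Fin.mk.injEq] at hd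
  obtain ⟨hdM, hdH, hdn⟩ := hd
  obtain ⟨φ, hφ, hφr⟩ := sublistForall₂_fn hl
  have hni : ∀ i, (ei m i).n = (ei n (φ i)).n := fun i => (hφr i).2.n_eq
  have hhn : ∀ x, x ∈ H n ↔ ∃ l < (H m).card, x = h n l := by
    intro x
    rw [hdH]
    exact hh n x
  have hin : ∀ l < (H m).card, ∀ l' < (H m).card, h n l = h n l' → l = l' := by
    rw [hdH]
    exact hi n
  refine hubs_step (ei m) (ei n) (hS m) (hS n) (H m).card (h m) (h n) (hh m) hhn (hi m) hin ?_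
    (hsep m) (hsep n) hdn φ hφ (fun i => (hφr i).2) ?_ ?_ ?_ ?_
  · intro l hl
    exact hq ⟨l, hl.trans_le (hc m)⟩
  · intro i a ha j hj
    have haK : a < K := ha.trans_le (hm m i).2
    have hjK : j < K := hj.trans_le (hK m)
    have h6 := congrFun (congrFun (Prod.ext_iff.1 (hφr i).1).1 ⟨a, haK⟩) ⟨j, hjK⟩
    simp only [σ, eq_iff_iff] at h6
    constructor
    · intro h'
      exact (h6.1 ⟨ha, hj, h'⟩).2.2
    · intro h'
      exact (h6.2 ⟨hni i ▸ ha, hdn ▸ hj, h'⟩).2.2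
  · intro i a ha l hl
    have haK : a < K := ha.trans_le (hm m i).2
    have hlb : l < b := hl.trans_le (hc m)
    have h6 := congrFun (congrFun (Prod.ext_iff.1 (hφr i).1).2 ⟨a, haK⟩) ⟨l, hlb⟩
    simp only [σ, eq_iff_iff] at h6
    constructor
    · intro h'
      exact (h6.1 ⟨ha, hl, h'⟩).2.2
    · intro h'
      exact (h6.2 ⟨hni i ▸ ha, hdH ▸ hl, h'⟩).2.2
  · intro j hj l hl
    have hjK : j < K := hj.trans_le (hK m)
    have hlb : l < b := hl.trans_le (hc m)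
    have h6 := congrFun (congrFun hdM ⟨j, hjK⟩) ⟨l, hlb⟩
    simp only [M, eq_iff_iff] at h6
    constructor
    · intro h'
      exact (h6.1 ⟨hj, hl, h'⟩).2.2
    · intro h'
      exact (h6.2 ⟨hdn ▸ hj, hdH ▸ hl, h'⟩).2.2
  · intro l hl l' hl'
    exact hmu (⟨l, hl.trans_le (hc m)⟩, ⟨l', hl'.trans_le (hc m)⟩)

end Pool.Agent.W2411c4
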