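import Pool.Agent.W_2411c4_h59.Union

/-! Well-quasi-ordering of unions of boundedly many pieces and of pieces with a hub. -/

set_option autoImplicit false

open Set

namespace Pool.Agent.W2411c4

variable {Q : Type}

open Gr

/-- unions of `N` pieces of `W` -/
def UnP (N K : ℕ) (W : Set (Pc Q)) : Set (Pc Q) :=
  {P | P.n ≤ K ∧ ∃ (Xi : Fin N → Finset ℕ) (ei : ∀ i, En P.G (Xi i)), Split P.X ∅ Xi ∧
    ∀ i, (⟨P.G, Xi i, ei i⟩ : Pc Q) ∈ W ∧ (ei i).n ≤ K}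

theorem un_pwo [Preorder Q] (N K : ℕ) {W : Set (Pc Q)} (hW : W.PartiallyWellOrderedOn Rp) :
    (UnP N K W).PartiallyWellOrderedOn Rp := by
  classical
  rw [partiallyWellOrderedOn_iff_exists_lt]
  intro f hf
  have hf' : ∀ n, (f n).n ≤ K ∧ ∃ (Xi : Fin N → Finset ℕ) (ei : ∀ i, En (f n).G (Xi i)),
      Split (f n).X ∅ Xi ∧ ∀ i, (⟨(f n).G, Xi i, ei i⟩ : Pc Q) ∈ W ∧ (ei i).n ≤ K := hf
  choose hK Xi ei hS hm using hf'
  let DB : ℕ → Fin N → Fin K → Fin K → Prop := fun n i a j =>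
    a.1 < (ei n i).n ∧ j.1 < (f n).n ∧ (ei n i).o a.1 = (f n).o j.1
  let DP : ℕ → Fin N → Fin K → Fin N → Fin K → Prop := fun n i a i' a' =>
    a.1 < (ei n i).n ∧ a'.1 < (ei n i').n ∧ (ei n i).o a.1 = (ei n i').o a'.1
  have h1 : (Set.univ : Set ((Fin N → Fin K → Fin K → Prop) ×
      (Fin N → Fin K → Fin N → Fin K → Prop) × Fin (K + 1))).PartiallyWellOrderedOn Eq :=
    Set.finite_univ.partiallyWellOrderedOn
  have h2 : (Set.univ.pi fun _ : Fin N => W).PartiallyWellOrderedOn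
      (fun a b => ∀ i, Rp (a i) (b i)) := PartiallyWellOrderedOn.pi (fun _ => hW)
  obtain ⟨m, n, hmn, hd, hr⟩ := (h1.prod h2).exists_lt
    (f := fun n => ((DB n, DP n, (⟨(f n).n, Nat.lt_succ_of_le (hK n)⟩ : Fin (K + 1))),
      fun i => (⟨(f n).G, Xi n i, ei n i⟩ : Pc Q)))
    (fun n => ⟨Set.mem_univ _, fun i _ => (hm n i).1⟩)
  refine ⟨m, n, hmn, ?_⟩
  simp only [Prod.mk.injEq, Fin.mk.injEq] at hd
  obtain ⟨hdB, hdP, hdn⟩ := hd
  have hni : ∀ i, (ei m i).n = (ei n i).n := fun i => (hr i).n_eq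
  refine un_step (ei m) (ei n) (hS m) (hS n) hdn hr ?_ ?_
  · intro i a ha j hj
    have haK : a < K := ha.trans_le (hm m i).2
    have hjK : j < K := hj.trans_le (hK m)
    have h3 := congrFun (congrFun (congrFun hdB i) ⟨a, haK⟩) ⟨j, hjK⟩
    simp only [DB, eq_iff_iff] at h3
    constructor
    · intro h
      exact (h3.1 ⟨ha, hj, h⟩).2.2
    · intro h
      exact (h3.2 ⟨hni i ▸ ha, hdn ▸ hj, h⟩).2.2
  · intro i a ha i' a' ha'
    have haK : a < K := ha.trans_le (hm m i).2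
    have haK' : a' < K := ha'.trans_le (hm m i').2
    have h3 := congrFun (congrFun (congrFun (congrFun hdP i) ⟨a, haK⟩) i') ⟨a', haK'⟩
    simp only [DP, eq_iff_iff] at h3
    constructor
    · intro h
      exact (h3.1 ⟨ha, ha', h⟩).2.2
    · intro h
      exact (h3.2 ⟨hni i ▸ ha, hni i' ▸ ha', h⟩).2.2

theorem sublistForall₂_fn {α : Type} {r : α → α → Prop} {s s' : ℕ} {g : Fin s → α} {g' : Fin s' → α}
    (h : List.SublistForall₂ r (List.ofFn g) (List.ofFn g')) :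
    ∃ φ : Fin s → Fin s', Function.Injective φ ∧ ∀ i, r (g i) (g' (φ i)) := by
  obtain ⟨l, h1, h2⟩ := List.sublistForall₂_iff.1 h
  obtain ⟨ψ, hψ⟩ := List.sublist_iff_exists_fin_orderEmbedding_get_eq.1 h2
  have hl : s = l.length := by
    have := h1.length_eq
    rwa [List.length_ofFn] at this
  have hl' : (List.ofFn g').length = s' := List.length_ofFn
  refine ⟨fun i => Fin.cast hl' (ψ (Fin.cast hl i)), ?_, ?_⟩
  · intro i j hij
    have h3 : ψ (Fin.cast hl i) = ψ (Fin.cast hl j) := by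
      simpa using hij
    have h4 := ψ.injective h3
    simpa using h4
  · intro i
    have h3 := h1.get (i := i.1) (by rw [List.length_ofFn]; exact i.2) (by rw [← hl]; exact i.2)
    have h4 := hψ (Fin.cast hl i)
    have h5 : l.get ⟨i.1, by rw [← hl]; exact i.2⟩ = g' (Fin.cast hl' (ψ (Fin.cast hl i))) := by
      have h6 : l.get ⟨i.1, by rw [← hl]; exact i.2⟩ = l.get (Fin.cast hl i) := rfl
      rw [h6, h4, List.get_ofFn]
    rw [h5, List.get_ofFn] at h3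
    exact h3

/-- pieces with at most one hub vertex whose other parts are in `W` and are not joined by edges -/
def HubP (K : ℕ) (W : Set (Pc Q)) : Set (Pc Q) :=
  {P | P.n ≤ K ∧ ∃ (s : ℕ) (Xi : Fin s → Finset ℕ) (ei : ∀ i, En P.G (Xi i)) (H : Finset ℕ),
    Split P.X H Xi ∧ H.card ≤ 1 ∧ (∀ i, (⟨P.G, Xi i, ei i⟩ : Pc Q) ∈ W ∧ (ei i).n ≤ K) ∧
    ∀ e ∈ P.G.E, ∀ i j, P.G.Touch (Xi i) e → P.G.Touch (Xi j) e → i = j}

/-- relation of coded pieces -/
def CRp [Preorder Q] (K : ℕ) (x y : (Fin K → Fin K → Prop) × Pc Q) : Prop := x.1 = y.1 ∧ Rp x.2 y.2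

instance [Preorder Q] (K : ℕ) : IsPreorder ((Fin K → Fin K → Prop) × Pc Q) (CRp K) where
  refl := fun x => ⟨rfl, Rp.refl x.2⟩
  trans := fun _ _ _ h h' => ⟨h.1.trans h'.1, h.2.trans h'.2⟩

theorem hub_pwo [Preorder Q] (hQ : WellQuasiOrdered (fun x y : Q => x ≤ y)) (K : ℕ)
    {W : Set (Pc Q)} (hW : W.PartiallyWellOrderedOn Rp) :
    (HubP K W).PartiallyWellOrderedOn Rp := by
  classical
  rw [partiallyWellOrderedOn_iff_exists_lt]
  intro f hf
  have hf' : ∀ n, (f n).n ≤ K ∧ ∃ (s : ℕ) (Xi : Fin s → Finset ℕ) (ei : ∀ i, En (f n).G (Xi i))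
      (H : Finset ℕ), Split (f n).X H Xi ∧ H.card ≤ 1 ∧
      (∀ i, (⟨(f n).G, Xi i, ei i⟩ : Pc Q) ∈ W ∧ (ei i).n ≤ K) ∧
      ∀ e ∈ (f n).G.E, ∀ i j, (f n).G.Touch (Xi i) e → (f n).G.Touch (Xi j) e → i = j := hf
  choose hK s Xi ei H hS hc hm hsep using hf'
  let σ : ∀ n, Fin (s n) → Fin K → Fin K → Prop := fun n i a j =>
    a.1 < (ei n i).n ∧ j.1 < (f n).n ∧ (ei n i).o a.1 = (f n).o j.1
  let M : ℕ → Fin K → Prop := fun n j => j.1 < (f n).n ∧ ∃ x ∈ H n, (f n).G.Inc ((f n).o j.1) x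
  let lb : ℕ → Q := fun n => (f n).G.lab (if h : (H n).Nonempty then h.choose else 0)
  have hlb : ∀ n, ∀ x ∈ H n, lb n = (f n).G.lab x := by
    intro n x hx
    have h : (H n).Nonempty := ⟨x, hx⟩
    simp only [lb, dif_pos h]
    rw [Finset.card_le_one.1 (hc n) _ h.choose_spec _ hx]
  have h1 : (Set.univ : Set ((Fin K → Prop) × Prop × Fin (K + 1))).PartiallyWellOrderedOn Eq :=
    Set.finite_univ.partiallyWellOrderedOn
  have h2 : (Set.univ : Set Q).PartiallyWellOrderedOn (fun x y => x ≤ y) :=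
    partiallyWellOrderedOn_of_wellQuasiOrdered hQ _
  have h3 : (Set.univ : Set (Fin K → Fin K → Prop)).PartiallyWellOrderedOn Eq :=
    Set.finite_univ.partiallyWellOrderedOn
  have h4 : ((Set.univ : Set (Fin K → Fin K → Prop)) ×ˢ W).PartiallyWellOrderedOn (CRp K) :=
    h3.prod hW
  have h5 := PartiallyWellOrderedOn.partiallyWellOrderedOn_sublistForall₂ (CRp K) h4
  obtain ⟨m, n, hmn, hd, hq, hl⟩ := (h1.prod (h2.prod h5)).exists_lt
    (f := fun n => ((M n, (H n).Nonempty, (⟨(f n).n, Nat.lt_succ_of_le (hK n)⟩ : Fin (K + 1))),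
      lb n, List.ofFn (fun i => (σ n i, (⟨(f n).G, Xi n i, ei n i⟩ : Pc Q)))))
    (fun n => ⟨Set.mem_univ _, Set.mem_univ _, by
      intro x hx
      obtain ⟨i, rfl⟩ := (List.mem_ofFn' _ _).1 hx
      exact ⟨Set.mem_univ _, (hm n i).1⟩⟩)
  refine ⟨m, n, hmn, ?_⟩
  simp only [Prod.mk.injEq, Fin.mk.injEq] at hd
  obtain ⟨hdM, hdH, hdn⟩ := hd
  obtain ⟨φ, hφ, hφr⟩ := sublistForall₂_fn hl
  have hni : ∀ i, (ei m i).n = (ei n (φ i)).n := fun i => (hφr i).2.n_eq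
  refine hub_step (ei m) (ei n) (hS m) (hS n) (hc m) (hc n) (iff_of_eq hdH) ?_ (hsep m) (hsep n) hdn
    φ hφ (fun i => (hφr i).2) ?_ ?_
  · intro x hx y hy
    rw [← hlb m x hx, ← hlb n y hy]
    exact hq
  · intro i a ha j hj
    have haK : a < K := ha.trans_le (hm m i).2
    have hjK : j < K := hj.trans_le (hK m)
    have h6 := congrFun (congrFun (hφr i).1 ⟨a, haK⟩) ⟨j, hjK⟩
    simp only [σ, eq_iff_iff] at h6
    constructor
    · intro h
      exact (h6.1 ⟨ha, hj, h⟩).2.2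
    · intro h
      exact (h6.2 ⟨hni i ▸ ha, hdn ▸ hj, h⟩).2.2
  · intro j hj
    have hjK : j < K := hj.trans_le (hK m)
    have h6 := congrFun hdM ⟨j, hjK⟩
    simp only [M, eq_iff_iff] at h6
    constructor
    · intro h
      exact (h6.1 ⟨hj, h⟩).2
    · intro h
      exact (h6.2 ⟨hdn ▸ hj, h⟩).2

end Pool.Agent.W2411c4
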