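import Pool.Agent.W_2411c4_h59.Basic

/-! `Rp` is transitive. -/

set_option autoImplicit false

namespace Pool.Agent.W2411c4

variable {Q : Type}

open Gr

/-- an edge used by the image of a touching edge touches, and is inner or the boundary edge -/
theorem Imm.used [LE Q] {P P' : Pc Q} {η : ℕ → ℕ} {Φ : ℕ → Set ℕ} (h : Imm P P' η Φ) {e : ℕ}
    (he : e ∈ P.G.E) (ht : P.G.Touch P.X e) {f : ℕ} (hf : f ∈ Φ e) :
    f ∈ P'.G.E ∧ P'.G.Touch P'.X f := by
  rcases touch_iff.1 ht with hi | hc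
  · obtain ⟨h1, h2⟩ := h.sub_in e he hi f hf
    exact ⟨h1, h2.touch⟩
  · obtain ⟨i, hi, rfl⟩ := P.exists_o he hc
    rcases h.sub_bd i hi f hf with rfl | ⟨h1, h2⟩
    · have hi' : i < P'.n := h.n_eq ▸ hi
      exact ⟨P'.o_E hi', (P'.o_cross hi').touch⟩
    · exact ⟨h1, h2.touch⟩

/-- transport of connectivity -/
theorem conn_map {G G' : Gr Q} {F : Set ℕ} {F' : Set ℕ} (θ : ℕ → ℕ)
    (hθ : ∀ f ∈ F, G'.Conn F' (θ (G.a f)) (θ (G.b f))) {u v : ℕ} (h : G.Conn F u v) :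
    G'.Conn F' (θ u) (θ v) := by
  induction h with
  | refl => exact Conn.refl
  | tail _ hbc ih =>
    obtain ⟨f, hf, ⟨rfl, rfl⟩ | ⟨rfl, rfl⟩⟩ := hbc
    · exact ih.trans (hθ f hf)
    · exact ih.trans (hθ f hf).symm

theorem Imm.trans [Preorder Q] {P P' P'' : Pc Q} {η₁ η₂ : ℕ → ℕ} {Φ₁ Φ₂ : ℕ → Set ℕ}
    (h₁ : Imm P P' η₁ Φ₁) (h₂ : Imm P' P'' η₂ Φ₂) :
    Imm P P'' (fun x => η₂ (η₁ x)) (fun e => ⋃ f ∈ Φ₁ e, Φ₂ f) where
  n_eq := h₁.n_eq.trans h₂.n_eq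
  maps := fun x hx => h₂.maps _ (h₁.maps x hx)
  inj := fun x hx y hy h => h₁.inj x hx y hy (h₂.inj _ (h₁.maps x hx) _ (h₁.maps y hy) h)
  lab := fun x hx => (h₁.lab x hx).trans (h₂.lab _ (h₁.maps x hx))
  sub_in := by
    intro e he hi g hg
    simp only [Set.mem_iUnion] at hg
    obtain ⟨f, hf, hg⟩ := hg
    obtain ⟨h1, h2⟩ := h₁.sub_in e he hi f hf
    exact h₂.sub_in f h1 h2 g hg
  sub_bd := by
    intro i hi g hg
    simp only [Set.mem_iUnion] at hg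
    obtain ⟨f, hf, hg⟩ := hg
    rcases h₁.sub_bd i hi f hf with rfl | ⟨h1, h2⟩
    · exact h₂.sub_bd i (h₁.n_eq ▸ hi) g hg
    · exact Or.inr (h₂.sub_in f h1 h2 g hg)
  mem_bd := by
    intro i hi
    simp only [Set.mem_iUnion]
    exact ⟨P'.o i, h₁.mem_bd i hi, h₂.mem_bd i (h₁.n_eq ▸ hi)⟩
  conn_in := by
    intro e he hi
    refine conn_map η₂ ?_ (h₁.conn_in e he hi)
    intro f hf
    obtain ⟨h1, h2⟩ := h₁.sub_in e he hi f hf
    exact (h₂.conn_in f h1 h2).mono fun g hg => Set.mem_biUnion hf hg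
  conn_bd := by
    intro i hi x hx hxX z hz
    have hi' : i < P'.n := h₁.n_eq ▸ hi
    -- the inner end of `P'.o i`
    obtain ⟨x', hx', hx'X⟩ : ∃ x', P'.G.Inc (P'.o i) x' ∧ x' ∈ P'.X := by
      rcases (P'.o_cross hi') with h | h
      · exact ⟨_, Or.inl rfl, h.1⟩
      · exact ⟨_, Or.inr rfl, h.2⟩
    have hA : P''.G.Conn (⋃ f ∈ Φ₁ (P.o i), Φ₂ f) z (η₂ x') :=
      (h₂.conn_bd i hi' x' hx' hx'X z hz).mono fun g hg => Set.mem_biUnion (h₁.mem_bd i hi) hg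
    let θ : ℕ → ℕ := fun y => if y ∈ P'.X then η₂ y else η₂ x'
    have hB : P''.G.Conn (⋃ f ∈ Φ₁ (P.o i), Φ₂ f) (θ x') (θ (η₁ x)) := by
      refine conn_map θ ?_ (h₁.conn_bd i hi x hx hxX x' hx')
      intro f hf
      rcases h₁.sub_bd i hi f hf with rfl | ⟨h1, h2⟩
      · -- both ends go to `η₂ x'`
        have key : ∀ y, P'.G.Inc (P'.o i) y → θ y = η₂ x' := by
          intro y hy
          by_cases hyX : y ∈ P'.X
          · have hyx : y = x' := by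
              rcases (P'.o_cross hi') with hc | hc <;> rcases hy with rfl | rfl <;>
                rcases hx' with h | h <;> simp_all
            rw [hyx]
            simp only [θ, if_pos hx'X]
          · simp only [θ, if_neg hyX]
        rw [key _ (Or.inl rfl), key _ (Or.inr rfl)]
        exact Conn.refl
      · simp only [θ, if_pos h2.1, if_pos h2.2]
        exact (h₂.conn_in f h1 h2).mono fun g hg => Set.mem_biUnion hf hg
    simp only [θ, if_pos hx'X, if_pos (h₁.maps x hxX)] at hB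
    exact hA.trans hB
  disj := by
    intro e he f hf hte htf hef
    rw [Set.disjoint_left]
    intro g hg hg'
    simp only [Set.mem_iUnion] at hg hg'
    obtain ⟨e', he', hg⟩ := hg
    obtain ⟨f', hf', hg'⟩ := hg'
    have hne : e' ≠ f' := fun h => Set.disjoint_left.1 (h₁.disj e he f hf hte htf hef) he' (h ▸ hf')
    obtain ⟨h1, h2⟩ := h₁.used he hte he'
    obtain ⟨h3, h4⟩ := h₁.used hf htf hf'
    exact Set.disjoint_left.1 (h₂.disj e' h1 f' h3 h2 h4 hne) hg hg'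
  strong := by
    intro e he hte y hy hey g hg
    simp only [Set.mem_iUnion] at hg
    obtain ⟨f, hf, hg⟩ := hg
    obtain ⟨h1, h2⟩ := h₁.used he hte hf
    exact h₂.strong f h1 h2 (η₁ y) (h₁.maps y hy) (h₁.strong e he hte y hy hey f hf) g hg

theorem Rp.trans [Preorder Q] {P P' P'' : Pc Q} (h₁ : Rp P P') (h₂ : Rp P' P'') : Rp P P'' := by
  obtain ⟨η₁, Φ₁, h₁⟩ := h₁
  obtain ⟨η₂, Φ₂, h₂⟩ := h₂
  exact ⟨_, _, h₁.trans h₂⟩

instance [Preorder Q] : IsPreorder (Pc Q) Rp where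
  refl := Rp.refl
  trans := fun _ _ _ => Rp.trans

end Pool.Agent.W2411c4
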