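import Pool.Agent.W_2411c4_h59.Glue

/-! Unions of boundedly many pieces, and pieces with a hub. -/

set_option autoImplicit false

namespace Pool.Agent.W2411c4

variable {Q : Type}

open Gr

theorem Rp.n_eq [LE Q] {P P' : Pc Q} (h : Rp P P') : P.n = P'.n := by
  obtain ⟨η, Φ, h⟩ := h
  exact h.n_eq

theorem un_step [Preorder Q] {P P' : Pc Q} {ι : Type} {Xi Xi' : ι → Finset ℕ}
    (ei : ∀ i, En P.G (Xi i)) (ei' : ∀ i, En P'.G (Xi' i)) (hS : Split P.X ∅ Xi)
    (hS' : Split P'.X ∅ Xi') (hn : P.n = P'.n)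
    (hR : ∀ i, Rp ⟨P.G, Xi i, ei i⟩ ⟨P'.G, Xi' i, ei' i⟩)
    (hB : ∀ i, ∀ a < (ei i).n, ∀ j < P.n, (ei i).o a = P.o j ↔ (ei' i).o a = P'.o j)
    (hP : ∀ i, ∀ a < (ei i).n, ∀ i', ∀ a' < (ei i').n,
      (ei i).o a = (ei i').o a' ↔ (ei' i).o a = (ei' i').o a') : Rp P P' := by
  classical
  have hni : ∀ i, (ei i).n = (ei' i).n := fun i => (hR i).n_eq
  have hNE : ∀ e, NE P.G P.X Xi e → ∃ i a, a < (ei i).n ∧ (ei i).o a = e := by
    rintro e ⟨heE, ht, hni⟩
    obtain ⟨x, hx, hxX⟩ := touch_end.1 ht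
    rcases (hS.mem x).1 hxX with h | ⟨i, hi⟩
    · exact absurd h (Finset.notMem_empty _)
    · have h1 : P.G.Touch (Xi i) e := touch_end.2 ⟨x, hx, hi⟩
      rcases touch_iff.1 h1 with h | h
      · exact absurd h (hni i)
      · obtain ⟨a, ha, hae⟩ := ((ei i).mem e).2 (P.G.mem_bd.2 ⟨heE, h⟩)
        exact ⟨i, a, ha, hae⟩
  let ε : ℕ → ℕ := fun e =>
    if h : ∃ i a, a < (ei i).n ∧ (ei i).o a = e then (ei' h.choose).o h.choose_spec.choose else 0
  have hε : ∀ i a, a < (ei i).n → ε ((ei i).o a) = (ei' i).o a := by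
    intro i a ha
    have h : ∃ i' a', a' < (ei i').n ∧ (ei i').o a' = (ei i).o a := ⟨i, a, ha, rfl⟩
    have h2 := h.choose_spec.choose_spec
    simp only [ε, dif_pos h]
    exact (hP _ _ h2.1 _ _ ha).1 h2.2
  refine glue P.en P'.en ei ei' hS hS' id Function.injective_id id (by simp) (by simp) (by simp)
    hR hn ε ?_ ?_ ?_ ?_ ?_
  · intro e he hin
    obtain ⟨i, a, ha, rfl⟩ := hNE e he
    rw [hε i a ha]
    have hb := P'.G.mem_bd.1 (((ei' i).mem _).1 ⟨a, hni i ▸ ha, rfl⟩)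
    refine ⟨hb.1, ?_⟩
    obtain ⟨x, hx, hxi⟩ := cross_end hb.2
    rcases touch_iff.1 (touch_end.2 ⟨x, hx, hS'.sub i hxi⟩) with h | h
    · exact h
    · exfalso
      obtain ⟨j, hj, hje⟩ := P'.exists_o hb.1 h
      have hj' : j < P.n := hn ▸ hj
      have h3 := (hB i a ha j hj').2 hje.symm
      exact (P.o_cross hj').not_inner (h3 ▸ hin)
  · intro j hj
    have hN : NE P.G P.X Xi (P.o j) := hS.ne_bd (P.o_E hj) (P.o_cross hj)
    obtain ⟨i, a, ha, hae⟩ := hNE _ hN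
    have h1 := (hB i a ha j hj).1 hae
    show ε (P.o j) = P'.o j
    rw [← hae, hε i a ha, h1]
  · intro i a ha
    exact hε i a ha
  · intro e f he hf hef
    obtain ⟨i, a, ha, rfl⟩ := hNE e he
    obtain ⟨l, b, hb, rfl⟩ := hNE f hf
    rw [hε i a ha, hε l b hb] at hef
    exact (hP i a ha l b hb).2 hef
  · intro e _ x hx
    exact absurd hx (Finset.notMem_empty _)

theorem hub_step [Preorder Q] {P P' : Pc Q} {ι ι' : Type} {Xi : ι → Finset ℕ}
    {Xi' : ι' → Finset ℕ} {H H' : Finset ℕ} (ei : ∀ i, En P.G (Xi i)) (ei' : ∀ i, En P'.G (Xi' i))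
    (hS : Split P.X H Xi) (hS' : Split P'.X H' Xi') (hc : H.card ≤ 1) (hc' : H'.card ≤ 1)
    (hcc : H.Nonempty ↔ H'.Nonempty) (hH : ∀ x ∈ H, ∀ y ∈ H', P.G.lab x ≤ P'.G.lab y)
    (hsep : ∀ e ∈ P.G.E, ∀ i j, P.G.Touch (Xi i) e → P.G.Touch (Xi j) e → i = j)
    (hsep' : ∀ e ∈ P'.G.E, ∀ i j, P'.G.Touch (Xi' i) e → P'.G.Touch (Xi' j) e → i = j)
    (hn : P.n = P'.n) (φ : ι → ι') (hφ : Function.Injective φ)
    (hR : ∀ i, Rp ⟨P.G, Xi i, ei i⟩ ⟨P'.G, Xi' (φ i), ei' (φ i)⟩)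
    (hB : ∀ i, ∀ a < (ei i).n, ∀ j < P.n, (ei i).o a = P.o j ↔ (ei' (φ i)).o a = P'.o j)
    (hM : ∀ j < P.n, (∃ x ∈ H, P.G.Inc (P.o j) x) ↔ ∃ x ∈ H', P'.G.Inc (P'.o j) x) : Rp P P' := by
  classical
  have hni : ∀ i, (ei i).n = (ei' (φ i)).n := fun i => (hR i).n_eq
  have hone : ∀ x ∈ H, ∀ y ∈ H, x = y := Finset.card_le_one.1 hc
  have hone' : ∀ x ∈ H', ∀ y ∈ H', x = y := Finset.card_le_one.1 hc'
  -- an edge of `NE` is a boundary edge of a part or a hub edge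
  have hNE : ∀ e, NE P.G P.X Xi e → (∃ i a, a < (ei i).n ∧ (ei i).o a = e) ∨
      ((∀ i, ¬ P.G.Touch (Xi i) e) ∧ (∃ j < P.n, P.o j = e) ∧ ∃ y ∈ H, P.G.Inc e y) := by
    rintro e ⟨heE, ht, hni⟩
    by_cases hp : ∃ i, P.G.Touch (Xi i) e
    · left
      obtain ⟨i, hi⟩ := hp
      rcases touch_iff.1 hi with h | h
      · exact absurd h (hni i)
      · obtain ⟨a, ha, hae⟩ := ((ei i).mem e).2 (P.G.mem_bd.2 ⟨heE, h⟩)
        exact ⟨i, a, ha, hae⟩
    · right
      push Not at hp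
      obtain ⟨x, hx, hxX⟩ := touch_end.1 ht
      have hxH : x ∈ H := by
        rcases (hS.mem x).1 hxX with h | ⟨i, hi⟩
        · exact h
        · exact absurd (touch_end.2 ⟨x, hx, hi⟩) (hp i)
      refine ⟨hp, ?_, x, hxH, hx⟩
      apply P.exists_o heE
      rcases touch_iff.1 ht with h | h
      · exfalso
        have hends : ∀ z, P.G.Inc e z → z ∈ H := by
          intro z hz
          rcases (hS.mem z).1 (inner_end h hz) with h' | ⟨i, hi⟩
          · exact h'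
          · exact absurd (touch_end.2 ⟨z, hz, hi⟩) (hp i)
        exact P.G.ne e heE (hone _ (hends _ (inc_a _ _)) _ (hends _ (inc_b _ _)))
      · exact h
  let ε : ℕ → ℕ := fun e =>
    if h : ∃ i a, a < (ei i).n ∧ (ei i).o a = e then (ei' (φ h.choose)).o h.choose_spec.choose
    else if h' : ∃ j, j < P.n ∧ P.o j = e then P'.o h'.choose else 0
  have hcr : ∀ i a, a < (ei i).n → (ei i).o a ∈ P.G.E ∧ P.G.Cross (Xi i) ((ei i).o a) := by
    intro i a ha
    exact P.G.mem_bd.1 (((ei i).mem _).1 ⟨a, ha, rfl⟩)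
  have hcr' : ∀ i a, a < (ei i).n → (ei' (φ i)).o a ∈ P'.G.E ∧
      P'.G.Cross (Xi' (φ i)) ((ei' (φ i)).o a) := by
    intro i a ha
    exact P'.G.mem_bd.1 (((ei' (φ i)).mem _).1 ⟨a, hni i ▸ ha, rfl⟩)
  have huq : ∀ i' a' i a, a' < (ei i').n → a < (ei i).n → (ei i').o a' = (ei i).o a →
      (ei' (φ i')).o a' = (ei' (φ i)).o a := by
    intro i' a' i a ha' ha h
    have h3 : i' = i :=
      hsep _ (hcr i a ha).1 _ _ (h ▸ (hcr i' a' ha').2.touch) (hcr i a ha).2.touch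
    subst h3
    rw [(ei i').inj _ ha' _ ha h]
  have hεA : ∀ i a, a < (ei i).n → ε ((ei i).o a) = (ei' (φ i)).o a := by
    intro i a ha
    have h : ∃ i' a', a' < (ei i').n ∧ (ei i').o a' = (ei i).o a := ⟨i, a, ha, rfl⟩
    have h2 := h.choose_spec.choose_spec
    simp only [ε, dif_pos h]
    exact huq _ _ _ _ h2.1 ha h2.2
  have hεB : ∀ j, j < P.n → (∀ i, ¬ P.G.Touch (Xi i) (P.o j)) → ε (P.o j) = P'.o j := by
    intro j hj hp
    have h : ¬ ∃ i' a', a' < (ei i').n ∧ (ei i').o a' = P.o j := by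
      rintro ⟨i, a, ha, hae⟩
      exact hp i (hae ▸ (hcr i a ha).2.touch)
    have h' : ∃ j', j' < P.n ∧ P.o j' = P.o j := ⟨j, hj, rfl⟩
    simp only [ε, dif_neg h, dif_pos h']
    rw [P.o_inj h'.choose_spec.1 hj h'.choose_spec.2]
  -- inner edges go to inner edges
  have hin : ∀ i a, a < (ei i).n → P.G.Inner P.X ((ei i).o a) →
      P'.G.Inner P'.X ((ei' (φ i)).o a) := by
    intro i a ha hi
    have hb := hcr' i a ha
    obtain ⟨x, hx, hxi⟩ := cross_end hb.2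
    rcases touch_iff.1 (touch_end.2 ⟨x, hx, hS'.sub _ hxi⟩) with h | h
    · exact h
    · exfalso
      obtain ⟨j, hj, hje⟩ := P'.exists_o hb.1 h
      have hj' : j < P.n := hn ▸ hj
      have h3 := (hB i a ha j hj').2 hje.symm
      exact (P.o_cross hj').not_inner (h3 ▸ hi)
  have hin' : ∀ i a, a < (ei i).n → P'.G.Inner P'.X ((ei' (φ i)).o a) →
      P.G.Inner P.X ((ei i).o a) := by
    intro i a ha hi
    have hb := hcr i a ha
    obtain ⟨x, hx, hxi⟩ := cross_end hb.2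
    rcases touch_iff.1 (touch_end.2 ⟨x, hx, hS.sub _ hxi⟩) with h | h
    · exact h
    · exfalso
      obtain ⟨j, hj, hje⟩ := P.exists_o hb.1 h
      have h3 := (hB i a ha j hj).1 hje.symm
      have hj' : j < P'.n := hn ▸ hj
      exact (P'.o_cross hj').not_inner (h3 ▸ hi)
  -- the other end of an inner part edge is in the hub
  have hother : ∀ i a, a < (ei i).n → P.G.Inner P.X ((ei i).o a) →
      ∃ z ∈ H, P.G.Inc ((ei i).o a) z := by
    intro i a ha hi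
    obtain ⟨h1, h2⟩ := hcr i a ha
    obtain ⟨z, hz, hzi⟩ : ∃ z, P.G.Inc ((ei i).o a) z ∧ z ∉ Xi i := by
      rcases h2 with h | h
      · exact ⟨_, inc_b _ _, h.2⟩
      · exact ⟨_, inc_a _ _, h.1⟩
    refine ⟨z, ?_, hz⟩
    rcases (hS.mem z).1 (inner_end hi hz) with h | ⟨l, hl⟩
    · exact h
    · exfalso
      have h3 := hsep _ h1 i l h2.touch (touch_end.2 ⟨z, hz, hl⟩)
      subst h3
      exact hzi hl
  have hother' : ∀ i a, a < (ei i).n → P'.G.Inner P'.X ((ei' (φ i)).o a) →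
      ∃ z ∈ H', P'.G.Inc ((ei' (φ i)).o a) z := by
    intro i a ha hi
    obtain ⟨h1, h2⟩ := hcr' i a ha
    obtain ⟨z, hz, hzi⟩ : ∃ z, P'.G.Inc ((ei' (φ i)).o a) z ∧ z ∉ Xi' (φ i) := by
      rcases h2 with h | h
      · exact ⟨_, inc_b _ _, h.2⟩
      · exact ⟨_, inc_a _ _, h.1⟩
    refine ⟨z, ?_, hz⟩
    rcases (hS'.mem z).1 (inner_end hi hz) with h | ⟨l, hl⟩
    · exact h
    · exfalso
      have h3 := hsep' _ h1 (φ i) l h2.touch (touch_end.2 ⟨z, hz, hl⟩)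
      rw [← h3] at hl
      exact hzi hl
  let θ : ℕ → ℕ := fun _ => if h : H'.Nonempty then h.choose else 0
  have hθ : ∀ x ∈ H, θ x ∈ H' := by
    intro x hx
    have h : H'.Nonempty := hcc.1 ⟨x, hx⟩
    simp only [θ, dif_pos h]
    exact h.choose_spec
  refine glue P.en P'.en ei ei' hS hS' φ hφ θ hθ (fun x hx y hy _ => hone x hx y hy)
    (fun x hx => hH x hx _ (hθ x hx)) hR hn ε ?_ ?_ ?_ ?_ ?_
  · intro e he hi
    rcases hNE e he with ⟨i, a, ha, rfl⟩ | ⟨_, ⟨j, hj, rfl⟩, _⟩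
    · rw [hεA i a ha]
      exact ⟨(hcr' i a ha).1, hin i a ha hi⟩
    · exact absurd hi (P.o_cross hj).not_inner
  · intro j hj
    show ε (P.o j) = P'.o j
    have hN : NE P.G P.X Xi (P.o j) := hS.ne_bd (P.o_E hj) (P.o_cross hj)
    rcases hNE _ hN with ⟨i, a, ha, hae⟩ | ⟨hp, _, _⟩
    · rw [← hae, hεA i a ha]
      exact (hB i a ha j hj).1 hae
    · exact hεB j hj hp
  · intro i a ha
    exact hεA i a ha
  · intro e f he hf hef
    rcases hNE e he with ⟨i, a, ha, rfl⟩ | ⟨hp, ⟨j, hj, rfl⟩, _⟩ <;>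
      rcases hNE f hf with ⟨l, b, hb, rfl⟩ | ⟨hq, ⟨m, hm, rfl⟩, _⟩
    · rw [hεA i a ha, hεA l b hb] at hef
      have h1 := hcr' i a ha
      have h2 := hcr' l b hb
      have h3 : φ i = φ l := hsep' _ h1.1 _ _ h1.2.touch (hef ▸ h2.2.touch)
      have h4 : i = l := hφ h3
      subst h4
      rw [(ei' (φ i)).inj a (hni i ▸ ha) b (hni i ▸ hb) hef]
    · exfalso
      rw [hεA i a ha, hεB m hm hq] at hef
      have h1 := (hB i a ha m hm).2 hef
      exact hq i (h1 ▸ (hcr i a ha).2.touch)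
    · exfalso
      rw [hεA l b hb, hεB j hj hp] at hef
      have h1 := (hB l b hb j hj).2 hef.symm
      exact hp l (h1 ▸ (hcr l b hb).2.touch)
    · rw [hεB j hj hp, hεB m hm hq] at hef
      rw [P'.o_inj (hn ▸ hj) (hn ▸ hm) hef]
  · intro e he x hx
    rcases hNE e he with ⟨i, a, ha, rfl⟩ | ⟨hp, ⟨j, hj, rfl⟩, y, hy, hye⟩
    · rw [hεA i a ha]
      constructor
      · intro hinc
        have hi : P.G.Inner P.X ((ei i).o a) := by
          obtain ⟨h1, h2⟩ := hcr i a ha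
          obtain ⟨y, hy, hyi⟩ := cross_end h2
          have hxX : x ∈ P.X := (hS.mem x).2 (Or.inl hx)
          have hyX : y ∈ P.X := hS.sub i hyi
          have hxy : x ≠ y := fun h => Finset.disjoint_left.1 (hS.disjH i) hx (h ▸ hyi)
          rcases hinc with h | h <;> rcases hy with h' | h'
          · exact absurd (h.trans h'.symm) hxy
          · exact ⟨h ▸ hxX, h' ▸ hyX⟩
          · exact ⟨h' ▸ hyX, h ▸ hxX⟩
          · exact absurd (h.trans h'.symm) hxy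
        obtain ⟨z, hz, hzi⟩ := hother' i a ha (hin i a ha hi)
        rw [hone' _ (hθ x hx) _ hz]
        exact hzi
      · intro hinc
        have hi : P'.G.Inner P'.X ((ei' (φ i)).o a) := by
          obtain ⟨h1, h2⟩ := hcr' i a ha
          obtain ⟨y, hy, hyi⟩ := cross_end h2
          have hxX : θ x ∈ P'.X := (hS'.mem _).2 (Or.inl (hθ x hx))
          have hyX : y ∈ P'.X := hS'.sub _ hyi
          have hxy : θ x ≠ y := fun h => Finset.disjoint_left.1 (hS'.disjH (φ i)) (hθ x hx) (h ▸ hyi)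
          rcases hinc with h | h <;> rcases hy with h' | h'
          · exact absurd (h.trans h'.symm) hxy
          · exact ⟨h ▸ hxX, h' ▸ hyX⟩
          · exact ⟨h' ▸ hyX, h ▸ hxX⟩
          · exact absurd (h.trans h'.symm) hxy
        obtain ⟨z, hz, hzi⟩ := hother i a ha (hin' i a ha hi)
        rw [hone x hx z hz]
        exact hzi
    · rw [hεB j hj hp]
      have h1 : P.G.Inc (P.o j) x := by
        rw [hone x hx y hy]
        exact hye
      obtain ⟨z, hz, hzi⟩ := (hM j hj).1 ⟨x, hx, h1⟩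
      refine ⟨fun _ => ?_, fun _ => h1⟩
      rw [hone' _ (hθ x hx) _ hz]
      exact hzi

end Pool.Agent.W2411c4
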